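import Pool.Agent.BR2.Base
set_option autoImplicit false
namespace Pool.Agent.BR2
open Finset
variable {α : Type*} [DecidableEq α] {H S T M : Finset (Finset α)} {e : ℕ}

/-- The points of a special triangle with its midlines. -/
structure SpD (H : Finset (Finset α)) (g l k p q : Finset α) (A B C a b c : α) : Prop where
  hg : g = {B, C, a}
  hl : l = {C, A, b}
  hk : k = {A, B, c}
  nd : [A, B, C, a, b, c].Nodup
  gH : g ∈ H
  lH : l ∈ H
  kH : k ∈ H
  pH : p ∈ H
  qH : q ∈ H
  ap : a ∈ p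
  bp : b ∈ p
  bq : b ∈ q
  cq : c ∈ q
  ne : p ≠ q

theorem Sp.data (hH : Lin H) {g l k p q : Finset α} (h : Sp H g l k p q) :
    ∃ A B C a b c : α, SpD H g l k p q A B C a b c := by
  obtain ⟨ht, ⟨hp, ⟨x, hx⟩, ⟨y, hy⟩⟩, ⟨hq, ⟨z, hz⟩, ⟨w, hw⟩⟩, hne⟩ := h
  obtain ⟨A, B, C, a, b, c, hg, hl, hk, nd⟩ := ht.pts hH
  have nd' := nd
  simp only [List.nodup_cons, List.mem_cons, List.not_mem_nil, or_false, not_or,
    List.nodup_nil, and_true, not_false_eq_true] at nd'
  refine ⟨A, B, C, a, b, c, hg, hl, hk, nd, ht.1, ht.2.1, ht.2.2.1, hp, hq, ?_, ?_, ?_, ?_, hne⟩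
  · have : x = a := by
      subst hg; subst hl; subst hk
      simp only [mem_inter, mem_sdiff, mem_union, mem_insert, mem_singleton] at hx
      tauto
    subst this
    exact (mem_inter.1 hx).1
  · have : y = b := by
      subst hg; subst hl; subst hk
      simp only [mem_inter, mem_sdiff, mem_union, mem_insert, mem_singleton] at hy
      tauto
    subst this
    exact (mem_inter.1 hy).1
  · have : z = b := by
      subst hg; subst hl; subst hk
      simp only [mem_inter, mem_sdiff, mem_union, mem_insert, mem_singleton] at hz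
      tauto
    subst this
    exact (mem_inter.1 hz).1
  · have : w = c := by
      subst hg; subst hl; subst hk
      simp only [mem_inter, mem_sdiff, mem_union, mem_insert, mem_singleton] at hw
      tauto
    subst this
    exact (mem_inter.1 hw).1

theorem SpD.dich {g l k p q : Finset α} {A B C a b c : α} (D : SpD H g l k p q A B C a b c)
    (hS : Closed H S) (hp : p ∈ S) (hq : q ∈ S) :
    (g ∈ S ∧ l ∈ S ∧ k ∈ S) ∨ (A ∉ U S ∧ B ∉ U S ∧ C ∉ U S) := by
  obtain ⟨hg, hl, hk, nd, gH, lH, kH, pH, qH, ap, bp, bq, cq, ne⟩ := D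
  simp only [List.nodup_cons, List.mem_cons, List.not_mem_nil, or_false, not_or,
    List.nodup_nil, and_true, not_false_eq_true] at nd
  have ha : a ∈ U S := subset_U hp ap
  have hb : b ∈ U S := subset_U hp bp
  have hc : c ∈ U S := subset_U hq cq
  have A_g : A ∈ l ∧ A ∈ k := by subst hl; subst hk; simp
  have B_g : B ∈ g ∧ B ∈ k := by subst hg; subst hk; simp
  have C_g : C ∈ g ∧ C ∈ l := by subst hg; subst hl; simp
  have a_g : a ∈ g := by subst hg; simp
  have b_l : b ∈ l := by subst hl; simp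
  have c_k : c ∈ k := by subst hk; simp
  have key : A ∈ U S ∨ B ∈ U S ∨ C ∈ U S → g ∈ S ∧ l ∈ S ∧ k ∈ S := by
    have g1 : B ∈ U S ∨ C ∈ U S → g ∈ S := by
      rintro (h | h)
      · exact hS.mem_of_two gH (x := a) (y := B) (by tauto) a_g B_g.1 ha h
      · exact hS.mem_of_two gH (x := a) (y := C) (by tauto) a_g C_g.1 ha h
    have l1 : A ∈ U S ∨ C ∈ U S → l ∈ S := by
      rintro (h | h)
      · exact hS.mem_of_two lH (x := b) (y := A) (by tauto) b_l A_g.1 hb h
      · exact hS.mem_of_two lH (x := b) (y := C) (by tauto) b_l C_g.2 hb h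
    have k1 : A ∈ U S ∨ B ∈ U S → k ∈ S := by
      rintro (h | h)
      · exact hS.mem_of_two kH (x := c) (y := A) (by tauto) c_k A_g.2 hc h
      · exact hS.mem_of_two kH (x := c) (y := B) (by tauto) c_k B_g.2 hc h
    have hA : l ∈ S ∨ k ∈ S → A ∈ U S := by
      rintro (h | h)
      · exact subset_U h A_g.1
      · exact subset_U h A_g.2
    have hB : g ∈ S ∨ k ∈ S → B ∈ U S := by
      rintro (h | h)
      · exact subset_U h B_g.1
      · exact subset_U h B_g.2
    have hC : g ∈ S ∨ l ∈ S → C ∈ U S := by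
      rintro (h | h)
      · exact subset_U h C_g.1
      · exact subset_U h C_g.2
    rintro (h | h | h)
    · exact ⟨g1 (Or.inl (hB (Or.inr (k1 (Or.inl h))))), l1 (Or.inl h), k1 (Or.inl h)⟩
    · exact ⟨g1 (Or.inl h), l1 (Or.inr (hC (Or.inl (g1 (Or.inl h))))), k1 (Or.inr h)⟩
    · exact ⟨g1 (Or.inr h), l1 (Or.inr h), k1 (Or.inr (hB (Or.inl (g1 (Or.inr h)))))⟩
  by_contra hcon
  push Not at hcon
  obtain ⟨h1, h2⟩ := hcon
  by_cases hA : A ∈ U S
  · obtain ⟨x1, x2, x3⟩ := key (Or.inl hA)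
    exact h1 x1 x2 x3
  by_cases hB : B ∈ U S
  · obtain ⟨x1, x2, x3⟩ := key (Or.inr (Or.inl hB))
    exact h1 x1 x2 x3
  · obtain ⟨x1, x2, x3⟩ := key (Or.inr (Or.inr (h2 hA hB)))
    exact h1 x1 x2 x3

theorem SpD.up {g l k p q : Finset α} {A B C a b c : α} (D : SpD H g l k p q A B C a b c)
    (hp : p ∈ S) (hq : q ∈ S) (hA : A ∉ U S) (hB : B ∉ U S) (hC : C ∉ U S) :
    g ∉ S ∧ l ∉ S ∧ k ∉ S ∧
    (S ∪ {g, l, k}).card = S.card + 3 ∧ U (S ∪ {g, l, k}) = U S ∪ {A, B, C} ∧
      (U (S ∪ {g, l, k})).card = (U S).card + 3 := by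
  obtain ⟨hg, hl, hk, nd, gH, lH, kH, pH, qH, ap, bp, bq, cq, ne⟩ := D
  simp only [List.nodup_cons, List.mem_cons, List.not_mem_nil, or_false, not_or,
    List.nodup_nil, and_true, not_false_eq_true] at nd
  have ha : a ∈ U S := subset_U hp ap
  have hb : b ∈ U S := subset_U hp bp
  have hc : c ∈ U S := subset_U hq cq
  have A_g : A ∈ l ∧ A ∈ k ∧ A ∉ g := by subst hg; subst hl; subst hk; simp; tauto
  have B_g : B ∈ g ∧ B ∈ k ∧ B ∉ l := by subst hg; subst hk; subst hl; simp; tauto
  have C_g : C ∈ g ∧ C ∈ l ∧ C ∉ k := by subst hg; subst hl; subst hk; simp; tauto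
  have g1 : g ∉ S := fun h => hB (subset_U h B_g.1)
  have l1 : l ∉ S := fun h => hA (subset_U h A_g.1)
  have k1 : k ∉ S := fun h => hA (subset_U h A_g.2.1)
  have gl : g ≠ l := fun h => B_g.2.2 (h ▸ B_g.1)
  have gk : g ≠ k := fun h => C_g.2.2 (h ▸ C_g.1)
  have lk : l ≠ k := fun h => C_g.2.2 (h ▸ C_g.2.1)
  have e1 : U (S ∪ {g, l, k}) = U S ∪ {A, B, C} := by
    have : U ({g, l, k} : Finset (Finset α)) = g ∪ (l ∪ k) := by simp [U]
    rw [U_union, this, hg, hl, hk]
    ext x
    simp only [mem_union, mem_insert, mem_singleton]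
    constructor
    · rintro (h | ((h | h | h) | (h | h | h) | (h | h | h)))
      · exact Or.inl h
      all_goals (subst h; tauto)
    · tauto
  refine ⟨g1, l1, k1, ?_, e1, ?_⟩
  · rw [card_union_of_disjoint]
    · rw [card_insert_of_notMem (by simp [gl, gk]), card_pair lk]
    · rw [disjoint_right]
      intro x hx
      simp only [mem_insert, mem_singleton] at hx
      rcases hx with rfl | rfl | rfl <;> assumption
  · rw [e1, card_union_of_disjoint]
    · rw [card_insert_of_notMem (by simp; tauto), card_pair (by tauto)]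
    · rw [disjoint_right]
      intro x hx
      simp only [mem_insert, mem_singleton] at hx
      rcases hx with rfl | rfl | rfl <;> assumption

end Pool.Agent.BR2
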