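import Pool.Agent.BR2.EAR
import Pool.Agent.BR2.SpD

/-! # Project BR2, module BADC -/

set_option autoImplicit false

namespace Pool.Agent.BR2

open Finset

variable {α : Type*} [DecidableEq α] {H S T M A : Finset (Finset α)} {e : ℕ}

variable {v w : Finset α × Finset α}

theorem bad_of_not_NB (hH : Lin H) (hF : Free H e) (he : 3 ≤ e) (hv : v ∈ Ch H)
    (h : ¬ NB H v) : Bad H e v := by
  obtain ⟨h1, h2, _, _⟩ := mem_Ch.1 hv
  have hsub : ({v.1, v.2} : Finset (Finset α)) ⊆ H := by
    intro x hx
    simp only [mem_insert, mem_singleton] at hx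
    rcases hx with rfl | rfl <;> assumption
  have hc := pair_card hv
  have hU := U_pair_card hH hv
  obtain ⟨g1, _⟩ := grow hH hF hsub (by omega) (d := 3) (by omega) le_rfl
  refine ⟨cl H {v.1, v.2}, cl_sub _ _, g1, ?_, subset_cl hsub (by simp), subset_cl hsub (by simp)⟩
  unfold NB at h
  omega

/-- A bad cherry lies in a closed bad set. -/
private theorem badc_closed (hH : Lin H) (hF : Free H e) (hb : Bad H e v) :
    ∃ A, Closed H A ∧ A.card < e ∧ (U A).card ≤ A.card + 2 ∧ v.1 ∈ A ∧ v.2 ∈ A := by
  obtain ⟨A, hA, hAe, hU, h1, h2⟩ := hb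
  obtain ⟨g1, g2⟩ := grow hH hF hA hAe hU (by norm_num)
  exact ⟨cl H A, cl_closed _ _, g1, g2, subset_cl hA h1, subset_cl hA h2⟩

theorem bad_TA (hH : Lin H) (hF : Free H e) (h : TA H v w) (hb : Bad H e v) : Bad H e w := by
  obtain ⟨A, hA, hAe, hU, h1, h2⟩ := badc_closed hH hF hb
  obtain ⟨hv, rfl | ⟨k, hk, rfl⟩⟩ := h
  · exact ⟨A, hA.1, hAe, hU, h2, h1⟩
  · refine ⟨A, hA.1, hAe, hU, h1, ?_⟩
    obtain ⟨hg, hl, hkH, _, ⟨x, hx⟩, ⟨y, hy⟩, h0⟩ := hk
    rw [mem_inter] at hx hy
    refine hA.mem_of_two hkH (x := x) (y := y) ?_ hx.2 hy.2 (subset_U h2 hx.1) (subset_U h1 hy.1)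
    rintro rfl
    have : x ∈ v.1 ∩ v.2 ∩ k := by simp [hx.1, hx.2, hy.1]
    rw [h0] at this
    simp at this

theorem bad_Sp {g l k p q : Finset α} (hH : Lin H) (hF : Free H e) (h : Sp H g l k p q) :
    Bad H e (g, l) ↔ Bad H e (p, q) := by
  obtain ⟨A', B', C', a, b, c, D⟩ := h.data hH
  have nd := D.nd
  simp only [List.nodup_cons, List.mem_cons, List.not_mem_nil, or_false, not_or,
    List.nodup_nil, and_true, not_false_eq_true] at nd
  have hag : a ∈ g := by rw [D.hg]; simp
  have hBg : B' ∈ g := by rw [D.hg]; simp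
  have hbl : b ∈ l := by rw [D.hl]; simp
  have hAl : A' ∈ l := by rw [D.hl]; simp
  have hAk : A' ∈ k := by rw [D.hk]; simp
  have hBk : B' ∈ k := by rw [D.hk]; simp
  have hck : c ∈ k := by rw [D.hk]; simp
  constructor
  · intro hb
    obtain ⟨A, hA, hAe, hU, h1, h2⟩ := badc_closed hH hF hb
    simp only at h1 h2
    have hkA : k ∈ A := hA.mem_of_two D.kH (x := A') (y := B') (by tauto) hAk hBk
      (subset_U h2 hAl) (subset_U h1 hBg)
    refine ⟨A, hA.1, hAe, hU, ?_, ?_⟩
    · exact hA.mem_of_two D.pH (x := a) (y := b) (by tauto) D.ap D.bp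
        (subset_U h1 hag) (subset_U h2 hbl)
    · exact hA.mem_of_two D.qH (x := b) (y := c) (by tauto) D.bq D.cq
        (subset_U h2 hbl) (subset_U hkA hck)
  · intro hb
    obtain ⟨A, hA, hAe, hU, h1, h2⟩ := badc_closed hH hF hb
    simp only at h1 h2
    rcases D.dich hA h1 h2 with ⟨i1, i2, i3⟩ | ⟨i1, i2, i3⟩
    · exact ⟨A, hA.1, hAe, hU, i1, i2⟩
    · obtain ⟨j1, j2, j3, j4, j5, j6⟩ := D.up h1 h2 i1 i2 i3
      have hsub : A ∪ {g, l, k} ⊆ H := by
        refine union_subset hA.1 ?_
        intro x hx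
        simp only [mem_insert, mem_singleton] at hx
        rcases hx with rfl | rfl | rfl
        · exact D.gH
        · exact D.lH
        · exact D.kH
      have haU : a ∈ U A := subset_U h1 D.ap
      have hbU : b ∈ U A := subset_U h1 D.bp
      have hgl : g ≠ l := by
        rintro rfl
        have : B' ∈ ({C', A', b} : Finset α) := by rw [← D.hl]; exact hBg
        simp only [mem_insert, mem_singleton] at this
        tauto
      -- size A.card + 1
      have s1 : A.card + 1 ≠ e := by
        intro he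
        have := hF (insert g A) (insert_subset D.gH hA.1)
          (by rw [card_insert_of_notMem j1]; exact he)
        rw [U_insert] at this
        have k1 := card_union_add_card_inter g (U A)
        have k2 : 1 ≤ (g ∩ U A).card := card_pos.2 ⟨a, mem_inter.2 ⟨hag, haU⟩⟩
        rw [hH.three g D.gH] at k1
        omega
      have s2 : A.card + 2 ≠ e := by
        intro he
        have hc : (insert l (insert g A)).card = A.card + 2 := by
          rw [card_insert_of_notMem, card_insert_of_notMem j1]
          simp only [mem_insert, not_or]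
          exact ⟨fun h => hgl h.symm, j2⟩
        have := hF (insert l (insert g A)) (insert_subset D.lH (insert_subset D.gH hA.1))
          (by omega)
        have k3 : U (insert l (insert g A)) ⊆ U (A ∪ {g, l, k}) := by
          apply U_mono
          intro x hx
          simp only [mem_insert, mem_union, mem_singleton] at hx ⊢
          tauto
        have k4 := card_le_card k3
        omega
      have s3 : A.card + 3 ≠ e := by
        intro he
        have := hF _ hsub (by omega)
        omega
      refine ⟨A ∪ {g, l, k}, hsub, by omega, by omega, ?_, ?_⟩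
      · simp
      · simp

theorem bad_KR (hH : Lin H) (hF : Free H e) (h : KR H v w) : Bad H e v ↔ Bad H e w := by
  rcases h with h | h | h
  · exact ⟨bad_TA hH hF h, bad_TA hH hF h.symm⟩
  · obtain ⟨_, _, _, k, hk⟩ := h
    exact bad_Sp hH hF hk
  · obtain ⟨_, _, _, k, hk⟩ := h
    exact (bad_Sp hH hF hk).symm

end Pool.Agent.BR2
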