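import Pool.Agent.BR2.Defs

/-! # Project BR2, module GRA: connected finite sets -/

set_option autoImplicit false

namespace Pool.Agent.BR2

open Finset

variable {β : Type*} [DecidableEq β] {R : β → β → Prop} {Q : Finset β}

omit [DecidableEq β] in
private theorem gra_symm {Q : Finset β} {x y : β}
    (hp : Relation.ReflTransGen (fun a b => a ∈ Q ∧ b ∈ Q ∧ (R a b ∨ R b a)) x y) :
    Relation.ReflTransGen (fun a b => a ∈ Q ∧ b ∈ Q ∧ (R a b ∨ R b a)) y x := by
  induction hp with
  | refl => exact Relation.ReflTransGen.refl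
  | tail _ hbc ih => exact (Relation.ReflTransGen.single ⟨hbc.2.1, hbc.1, hbc.2.2.symm⟩).trans ih

omit [DecidableEq β] in
private theorem gra_mono {Q Q' : Finset β} (h : Q ⊆ Q') {x y : β}
    (hp : Relation.ReflTransGen (fun a b => a ∈ Q ∧ b ∈ Q ∧ (R a b ∨ R b a)) x y) :
    Relation.ReflTransGen (fun a b => a ∈ Q' ∧ b ∈ Q' ∧ (R a b ∨ R b a)) x y := by
  induction hp with
  | refl => exact Relation.ReflTransGen.refl
  | tail _ hbc ih => exact ih.tail ⟨h hbc.1, h hbc.2.1, hbc.2.2⟩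

omit [DecidableEq β] in
private theorem gra_exit {T : Finset β} {s z : β}
    (hp : Relation.ReflTransGen (fun a b => a ∈ Q ∧ b ∈ Q ∧ (R a b ∨ R b a)) s z)
    (hs : s ∈ T) (hz : z ∉ T) : ∃ b c, b ∈ T ∧ c ∉ T ∧ c ∈ Q ∧ (R b c ∨ R c b) := by
  induction hp with
  | refl => exact absurd hs hz
  | @tail b c hb hbc ih =>
    by_cases h : b ∈ T
    · exact ⟨b, c, h, hz, hbc.2.1, hbc.2.2⟩
    · exact ih h

omit [DecidableEq β] in
theorem conn_singleton (R : β → β → Prop) (x : β) : Conn R {x} := by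
  intro a ha b hb
  rw [mem_singleton] at ha hb
  subst ha; subst hb
  exact Relation.ReflTransGen.refl

theorem conn_insert (hQ : Conn R Q) {x y : β} (hy : y ∈ Q) (h : R x y ∨ R y x) :
    Conn R (insert x Q) := by
  have key : ∀ a ∈ insert x Q, Relation.ReflTransGen
      (fun a b => a ∈ insert x Q ∧ b ∈ insert x Q ∧ (R a b ∨ R b a)) a y := by
    intro a ha
    rcases mem_insert.1 ha with rfl | ha
    · exact Relation.ReflTransGen.single ⟨mem_insert_self _ _, mem_insert_of_mem hy, h⟩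
    · exact gra_mono (subset_insert _ _) (hQ a ha y hy)
  intro a ha b hb
  exact (key a ha).trans (gra_symm (key b hb))

omit [DecidableEq β] in
theorem conn_adj (hQ : Conn R Q) {x : β} (hx : x ∈ Q) (h2 : 2 ≤ Q.card) :
    ∃ y ∈ Q, y ≠ x ∧ (R x y ∨ R y x) := by
  obtain ⟨z, hz, hzx⟩ := Finset.exists_mem_ne (by omega : 1 < Q.card) x
  obtain ⟨b, c, hb, hc, hcQ, h⟩ := gra_exit (T := {x}) (hQ x hx z hz) (mem_singleton_self x)
    (by rwa [mem_singleton])
  rw [mem_singleton] at hb hc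
  subst hb
  exact ⟨c, hcQ, hc, h⟩

/-- **GRA.** A connected set has a point different from `s` which can be removed. -/
theorem conn_erase (hQ : Conn R Q) {s : β} (hs : s ∈ Q) (h2 : 2 ≤ Q.card) :
    ∃ x ∈ Q, x ≠ s ∧ Conn R (Q.erase x) := by
  classical
  set P : Finset (Finset β) := Q.powerset.filter (fun T => s ∈ T ∧ Conn R T ∧ T ≠ Q) with hP
  have hne : P.Nonempty := by
    refine ⟨{s}, mem_filter.2 ⟨mem_powerset.2 (singleton_subset_iff.2 hs), mem_singleton_self s,
      conn_singleton R s, ?_⟩⟩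
    rintro rfl
    simp at h2
  obtain ⟨T, hT, hmax⟩ := exists_max_image P Finset.card hne
  obtain ⟨hTQ, hsT, hTc, hTne⟩ := mem_filter.1 hT
  have hTQ := mem_powerset.1 hTQ
  obtain ⟨z, hzQ, hzT⟩ := exists_of_ssubset (hTQ.ssubset_of_ne hTne)
  obtain ⟨b, c, hb, hc, hcQ, h⟩ := gra_exit (hQ s hs z hzQ) hsT hzT
  have hins : Conn R (insert c T) := conn_insert hTc hb h.symm
  have heq : insert c T = Q := by
    by_contra hcon
    have hmem : insert c T ∈ P := mem_filter.2 ⟨mem_powerset.2 (insert_subset hcQ hTQ),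
      mem_insert_of_mem hsT, hins, hcon⟩
    have := hmax _ hmem
    rw [card_insert_of_notMem hc] at this
    omega
  refine ⟨c, hcQ, ?_, ?_⟩
  · rintro rfl
    exact hc hsT
  · rw [← heq, erase_insert hc]
    exact hTc

end Pool.Agent.BR2
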