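import Pool.Agent.BR2.FLAG

/-! # Project BR2, module PEND -/

set_option autoImplicit false

namespace Pool.Agent.BR2

open Finset

variable {α : Type*} [DecidableEq α] {H S T M A : Finset (Finset α)} {e : ℕ}

theorem PEND_Ln {X : Finset (Finset α × Finset α)} (hX : TAc H X) {g : Finset α}
    (hg : g ∈ Ln X) : ∃ l, (g, l) ∈ X := by
  unfold Ln at hg
  rw [mem_union, mem_image, mem_image] at hg
  rcases hg with ⟨v, hv, rfl⟩ | ⟨v, hv, rfl⟩
  · exact ⟨v.2, hv⟩
  · exact ⟨v.1, hX.swap (g := v.1) (l := v.2) hv⟩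

theorem PEND_mem1 {X : Finset (Finset α × Finset α)} {g l : Finset α} (h : (g, l) ∈ X) :
    g ∈ Ln X := by
  unfold Ln
  rw [mem_union, mem_image]
  exact Or.inl ⟨_, h, rfl⟩

theorem PEND_mem2 {X : Finset (Finset α × Finset α)} {g l : Finset α} (h : (g, l) ∈ X) :
    l ∈ Ln X := by
  unfold Ln
  rw [mem_union, mem_image, mem_image]
  exact Or.inr ⟨_, h, rfl⟩

theorem PEND_sub {X : Finset (Finset α × Finset α)} (hX : TAc H X) : Ln X ⊆ H := by
  intro g hg
  obtain ⟨l, hl⟩ := PEND_Ln hX hg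
  exact (mem_Ch.1 (hX.1 hl)).1

theorem PEND_Fl {X : Finset (Finset α × Finset α)} {f : Finset α × α} :
    f ∈ Fl X ↔ ∃ l, (f.1, l) ∈ X ∧ f.2 ∈ l ∧ f.2 ∉ f.1 := by
  unfold Fl
  rw [mem_biUnion]
  constructor
  · rintro ⟨v, hv, hf⟩
    rw [mem_image] at hf
    obtain ⟨x, hx, rfl⟩ := hf
    rw [mem_sdiff] at hx
    exact ⟨v.2, hv, hx.1, hx.2⟩
  · rintro ⟨l, hl, h1, h2⟩
    refine ⟨_, hl, mem_image.2 ⟨f.2, mem_sdiff.2 ⟨h1, h2⟩, rfl⟩⟩

/-- the flags at a line -/
theorem PEND_one (hH : Lin H) {X : Finset (Finset α × Finset α)} (hX : TAc H X)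
    (hD : ∀ S ⊆ Ln X, 2 ≤ S.card → S.card + 3 ≤ (U S).card) {g : Finset α} (hg : g ∈ Ln X) :
    (X.filter (fun v => v.1 = g)).card + 1 ≤ ((Fl X).filter (fun f => f.1 = g)).card := by
  set M := (X.filter (fun v => v.1 = g)).image Prod.snd with hM
  have hMc : M.card = (X.filter (fun v => v.1 = g)).card := by
    rw [hM, card_image_of_injOn]
    intro v hv w hw h
    rw [mem_coe, mem_filter] at hv hw
    exact Prod.ext (hv.2.trans hw.2.symm) h
  have hMm : ∀ l, l ∈ M ↔ (g, l) ∈ X := by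
    intro l
    rw [hM, mem_image]
    constructor
    · rintro ⟨v, hv, rfl⟩
      rw [mem_filter] at hv
      rw [← hv.2]
      exact hv.1
    · intro h
      exact ⟨(g, l), mem_filter.2 ⟨h, rfl⟩, rfl⟩
  have hgM : g ∉ M := by
    rw [hMm]
    intro h
    exact (mem_Ch.1 (hX.1 h)).2.2.1 rfl
  set P := M.biUnion (fun l => l \ g) with hP
  have hPF : ((Fl X).filter (fun f => f.1 = g)).card = P.card := by
    symm
    rw [← card_image_of_injective P (f := fun x => (g, x)) (fun x y h => (Prod.ext_iff.1 h).2)]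
    congr 1
    ext f
    rw [mem_image, mem_filter, PEND_Fl]
    constructor
    · rintro ⟨x, hx, rfl⟩
      rw [hP, mem_biUnion] at hx
      obtain ⟨l, hl, hx⟩ := hx
      rw [mem_sdiff] at hx
      exact ⟨⟨l, (hMm l).1 hl, hx.1, hx.2⟩, rfl⟩
    · rintro ⟨⟨l, h1, h2, h3⟩, rfl⟩
      refine ⟨f.2, ?_, rfl⟩
      rw [hP, mem_biUnion]
      exact ⟨l, (hMm l).2 h1, mem_sdiff.2 ⟨h2, h3⟩⟩
  have hU : U (insert g M) = g ∪ P := by
    ext x
    rw [mem_U, mem_union, hP, mem_biUnion]
    constructor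
    · rintro ⟨l, hl, hx⟩
      rcases mem_insert.1 hl with rfl | hl
      · exact Or.inl hx
      · by_cases hxg : x ∈ g
        · exact Or.inl hxg
        · exact Or.inr ⟨l, hl, mem_sdiff.2 ⟨hx, hxg⟩⟩
    · rintro (hx | ⟨l, hl, hx⟩)
      · exact ⟨g, mem_insert_self _ _, hx⟩
      · exact ⟨l, mem_insert_of_mem hl, (mem_sdiff.1 hx).1⟩
  have hdisj : Disjoint g P := by
    rw [disjoint_left]
    intro x hx hxP
    rw [hP, mem_biUnion] at hxP
    obtain ⟨l, _, hl⟩ := hxP
    exact (mem_sdiff.1 hl).2 hx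
  have hg3 : g.card = 3 := hH.three g (PEND_sub hX hg)
  have hUc : (U (insert g M)).card = 3 + P.card := by
    rw [hU, card_union_of_disjoint hdisj, hg3]
  have hSc : (insert g M).card = M.card + 1 := card_insert_of_notMem hgM
  have hM1 : 1 ≤ M.card := by
    obtain ⟨l, hl⟩ := PEND_Ln hX hg
    exact card_pos.2 ⟨l, (hMm l).2 hl⟩
  have hsub : insert g M ⊆ Ln X := by
    intro l hl
    rcases mem_insert.1 hl with rfl | hl
    · exact hg
    · exact PEND_mem2 ((hMm l).1 hl)
  have := hD _ hsub (by omega)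
  omega

/-- the flags at a point -/
theorem PEND_two (hH : Lin H) {X : Finset (Finset α × Finset α)} (hX : TAc H X)
    (hD : ∀ S ⊆ Ln X, 2 ≤ S.card → S.card + 3 ≤ (U S).card) {x : α} (hx : x ∈ U (Ln X)) :
    ((Fl X).filter (fun f => kf X f = 3 ∧ f.2 = x)).card + 2 ≤
      deg (Ln X) x + (if deg (Ln X) x = 1 then 1 else 0) := by
  set D := deg (Ln X) x with hDd
  set A := (Ln X).filter (fun l => x ∈ l) with hA
  have hAD : A.card = D := rfl
  set G := ((Fl X).filter (fun f => kf X f = 3 ∧ f.2 = x)).image Prod.fst with hG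
  have hGc : G.card = ((Fl X).filter (fun f => kf X f = 3 ∧ f.2 = x)).card := by
    rw [hG, card_image_of_injOn]
    intro f hf f' hf' h
    rw [mem_coe, mem_filter] at hf hf'
    exact Prod.ext h (hf.2.2.trans hf'.2.2.symm)
  have hGm : ∀ g, g ∈ G → (g, x) ∈ Fl X ∧ kf X (g, x) = 3 := by
    intro g hg
    rw [hG, mem_image] at hg
    obtain ⟨f, hf, rfl⟩ := hg
    rw [mem_filter] at hf
    obtain ⟨h1, h2, h3⟩ := hf
    rw [← h3]
    exact ⟨h1, h2⟩
  have hD1 : 1 ≤ D := by
    obtain ⟨l, hl, hxl⟩ := mem_U.1 hx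
    exact card_pos.2 ⟨l, mem_filter.2 ⟨hl, hxl⟩⟩
  have hxG : ∀ g ∈ G, x ∉ g := by
    intro g hg
    obtain ⟨l, _, _, h⟩ := PEND_Fl.1 (hGm g hg).1
    exact h
  have hGL : G ⊆ Ln X := by
    intro g hg
    obtain ⟨l, h, _, _⟩ := PEND_Fl.1 (hGm g hg).1
    exact PEND_mem1 h
  -- the three cherries
  have hK3 : ∀ g ∈ G, (X.filter (fun v => v.1 = g ∧ x ∈ v.2)).card = 3 := fun g hg => (hGm g hg).2
  have hG3 : ∀ g ∈ G, 3 ≤ D := by
    intro g hg
    rw [← hK3 g hg, ← hAD]
    apply card_le_card_of_injOn Prod.snd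
    · intro v hv
      rw [mem_coe, mem_filter] at hv
      rw [mem_coe, hA, mem_filter]
      exact ⟨PEND_mem2 (g := v.1) (l := v.2) hv.1, hv.2.2⟩
    · intro v hv w hw h
      rw [mem_coe, mem_filter] at hv hw
      exact Prod.ext (hv.2.1.trans hw.2.1.symm) h
  by_cases hD2 : D = 1
  · have hG0 : G = ∅ := by
      rw [eq_empty_iff_forall_notMem]
      intro g hg
      have := hG3 g hg
      omega
    rw [if_pos hD2, ← hGc, hG0, card_empty]
    omega
  · rw [if_neg hD2, ← hGc]
    have hgU : ∀ g ∈ G, g ⊆ U A := by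
      intro g hg
      have hg3 : g.card = 3 := hH.three g (PEND_sub hX (hGL hg))
      have hc : 3 ≤ (g ∩ U A).card := by
        rw [← hK3 g hg]
        have hne : ∀ v ∈ X.filter (fun v => v.1 = g ∧ x ∈ v.2), ∃ y, y ∈ g ∧ y ∈ v.2 := by
          intro v hv
          rw [mem_filter] at hv
          obtain ⟨y, hy⟩ := (mem_Ch.1 (hX.1 hv.1)).2.2.2
          rw [mem_inter, hv.2.1] at hy
          exact ⟨y, hy⟩
        have hne0 : Nonempty α := ⟨x⟩
        choose! pt hpt1 hpt2 using hne
        apply card_le_card_of_injOn pt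
        · intro v hv
          rw [mem_coe] at hv
          have h1 := hpt1 v hv
          have h2 := hpt2 v hv
          rw [mem_filter] at hv
          rw [mem_coe, mem_inter, mem_U]
          exact ⟨h1, v.2, mem_filter.2 ⟨PEND_mem2 (g := v.1) (l := v.2) hv.1, hv.2.2⟩, h2⟩
        · intro v hv w hw h
          rw [mem_coe] at hv hw
          have h1 := hpt1 v hv
          have h2 := hpt2 v hv
          have h3 := hpt2 w hw
          rw [← h] at h3
          rw [mem_filter] at hv hw
          have hxy : x ≠ pt v := fun h => hxG g hg (h ▸ h1)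
          have := hH.eq_of_two (mem_Ch.1 (hX.1 hv.1)).2.1 (mem_Ch.1 (hX.1 hw.1)).2.1 hxy
            hv.2.2 h2 hw.2.2 h3
          exact Prod.ext (hv.2.1.trans hw.2.1.symm) this
      have : g ∩ U A = g := eq_of_subset_of_card_le inter_subset_left (by omega)
      exact inter_eq_left.1 this
    have hUA : (U A).card ≤ 1 + 2 * D := by
      have h1 : U A ⊆ insert x (A.biUnion (fun l => l.erase x)) := by
        intro y hy
        obtain ⟨l, hl, hyl⟩ := mem_U.1 hy
        rw [mem_insert, mem_biUnion]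
        by_cases h : y = x
        · exact Or.inl h
        · exact Or.inr ⟨l, hl, mem_erase.2 ⟨h, hyl⟩⟩
      have h2 : (A.biUnion (fun l => l.erase x)).card ≤ A.card * 2 := by
        apply card_biUnion_le_card_mul
        intro l hl
        rw [hA, mem_filter] at hl
        rw [card_erase_of_mem hl.2, hH.three l (PEND_sub hX hl.1)]
      have h3 := card_insert_le x (A.biUnion (fun l => l.erase x))
      have h4 := card_le_card h1
      omega
    have hUS : U (A ∪ G) = U A := by
      rw [U_union]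
      apply union_eq_left.2
      intro y hy
      obtain ⟨g, hg, hyg⟩ := mem_U.1 hy
      exact hgU g hg hyg
    have hdisj : Disjoint A G := by
      rw [disjoint_left]
      intro l hl hlG
      exact hxG l hlG (mem_filter.1 hl).2
    have hSc : (A ∪ G).card = D + G.card := by
      rw [card_union_of_disjoint hdisj, hAD]
    have := hD (A ∪ G) (union_subset (filter_subset _ _) hGL) (by omega)
    rw [hUS] at this
    omega

/-- **PEND.** -/
theorem pend_ineq (hH : Lin H) {X : Finset (Finset α × Finset α)} (hX : TAc H X)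
    (hX0 : X.Nonempty)
    (hD : ∀ S ⊆ Ln X, 2 ≤ S.card → S.card + 3 ≤ (U S).card) :
    12 ≤ own H X + 2 * ((pend X).card : ℤ) := by
  have h1 : X.card + (Ln X).card ≤ (Fl X).card := by
    have e1 : X.card = ∑ g ∈ Ln X, (X.filter (fun v => v.1 = g)).card :=
      card_eq_sum_card_fiberwise (f := Prod.fst) fun v hv =>
        PEND_mem1 (g := v.1) (l := v.2) hv
    have e2 : (Fl X).card = ∑ g ∈ Ln X, ((Fl X).filter (fun f => f.1 = g)).card :=
      card_eq_sum_card_fiberwise (f := Prod.fst) fun f hf => by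
        obtain ⟨l, hl, _⟩ := PEND_Fl.1 (mem_coe.1 hf)
        exact PEND_mem1 hl
    rw [e1, e2, card_eq_sum_ones, ← sum_add_distrib]
    exact sum_le_sum fun g hg => PEND_one hH hX hD hg
  have h2 : nf X 3 + 2 * (U (Ln X)).card ≤ 3 * (Ln X).card + (pend X).card := by
    have e1 : nf X 3 = ∑ x ∈ U (Ln X), ((Fl X).filter (fun f => kf X f = 3 ∧ f.2 = x)).card := by
      unfold nf
      rw [card_eq_sum_card_fiberwise (f := Prod.snd) (t := U (Ln X)) fun f hf => by
        rw [mem_coe, mem_filter] at hf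
        obtain ⟨l, hl, h, _⟩ := PEND_Fl.1 hf.1
        exact mem_U.2 ⟨l, PEND_mem2 hl, h⟩]
      apply sum_congr rfl
      intro x _
      rw [filter_filter]
    have e2 : ∑ x ∈ U (Ln X), deg (Ln X) x = 3 * (Ln X).card := by
      unfold deg
      simp only [card_filter]
      rw [sum_comm]
      have : ∀ l ∈ Ln X, ∑ x ∈ U (Ln X), (if x ∈ l then 1 else 0) = 3 := by
        intro l hl
        rw [← card_filter]
        have : (U (Ln X)).filter (fun x => x ∈ l) = l := by
          ext x
          rw [mem_filter]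
          exact ⟨fun h => h.2, fun h => ⟨subset_U hl h, h⟩⟩
        rw [this]
        exact hH.three l (PEND_sub hX hl)
      rw [sum_congr rfl this, sum_const, smul_eq_mul, mul_comm]
    have e3 : (pend X).card = ∑ x ∈ U (Ln X), (if deg (Ln X) x = 1 then 1 else 0) := by
      unfold pend
      rw [card_filter]
    have e4 : 2 * (U (Ln X)).card = ∑ x ∈ U (Ln X), 2 := by
      rw [sum_const, smul_eq_mul, mul_comm]
    rw [e1, ← e2, e3, e4, ← sum_add_distrib, ← sum_add_distrib]
    exact sum_le_sum fun x hx => PEND_two hH hX hD hx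
  have h3 : (Ln X).card + 3 ≤ (U (Ln X)).card := by
    obtain ⟨v, hv⟩ := hX0
    apply hD _ Subset.rfl
    rw [← card_pair (mem_Ch.1 (hX.1 hv)).2.2.1]
    apply card_le_card
    intro l hl
    rcases mem_insert.1 hl with rfl | hl
    · exact PEND_mem1 (g := v.1) (l := v.2) hv
    · rw [mem_singleton.1 hl]
      exact PEND_mem2 (g := v.1) (l := v.2) hv
  have h4 := flag_two hH hX
  have h5 := flag_card hH hX
  have h6 := own_nf hH hX
  omega

end Pool.Agent.BR2
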