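import Pool.Agent.BR2.SML
import Pool.Agent.BR2.GRA
import Pool.Agent.BR2.PEND

/-! # Project BR2, module BND -/

set_option autoImplicit false

namespace Pool.Agent.BR2

open Finset

variable {α : Type*} [DecidableEq α] {H S T M A : Finset (Finset α)} {e : ℕ}

/-- The conclusion of `bnd`. -/
def BNDgood (H : Finset (Finset α)) (e : ℕ) (Q : Finset (Finset α × Finset α)) : Prop :=
  (cl H (Ln Q)).card < e ∧ (U (cl H (Ln Q))).card ≤ (cl H (Ln Q)).card + 3

theorem bnd_fst {Q : Finset (Finset α × Finset α)} {v : Finset α × Finset α} (hv : v ∈ Q) :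
    v.1 ∈ Ln Q :=
  mem_union_left _ (mem_image_of_mem _ hv)

theorem bnd_snd {Q : Finset (Finset α × Finset α)} {v : Finset α × Finset α} (hv : v ∈ Q) :
    v.2 ∈ Ln Q :=
  mem_union_right _ (mem_image_of_mem _ hv)

theorem bnd_mem_Ln {Q : Finset (Finset α × Finset α)} {h : Finset α} (hh : h ∈ Ln Q) :
    ∃ v ∈ Q, h = v.1 ∨ h = v.2 := by
  rcases mem_union.1 hh with hh | hh
  · obtain ⟨v, hv, rfl⟩ := mem_image.1 hh
    exact ⟨v, hv, Or.inl rfl⟩
  · obtain ⟨v, hv, rfl⟩ := mem_image.1 hh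
    exact ⟨v, hv, Or.inr rfl⟩

theorem bnd_Ln_sub_of {Q : Finset (Finset α × Finset α)}
    (h : ∀ v ∈ Q, v.1 ∈ T ∧ v.2 ∈ T) : Ln Q ⊆ T := by
  intro x hx
  obtain ⟨v, hv, rfl | rfl⟩ := bnd_mem_Ln hx
  · exact (h v hv).1
  · exact (h v hv).2

theorem bnd_Ln_sub {Q : Finset (Finset α × Finset α)} (hQ : Q ⊆ Ch H) : Ln Q ⊆ H :=
  bnd_Ln_sub_of fun _ hv => ⟨(mem_Ch.1 (hQ hv)).1, (mem_Ch.1 (hQ hv)).2.1⟩

theorem bnd_Ln_mono {Q Q' : Finset (Finset α × Finset α)} (h : Q' ⊆ Q) : Ln Q' ⊆ Ln Q :=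
  bnd_Ln_sub_of fun _ hv => ⟨bnd_fst (h hv), bnd_snd (h hv)⟩

/-- The third line of a triangle is in every closed set containing the two others. -/
theorem bnd_tri_mem (hH : Lin H) (hS : Closed H S) {g l k : Finset α} (ht : Tri H g l k)
    (hg : g ∈ S) (hl : l ∈ S) : k ∈ S := by
  obtain ⟨A, B, C, a, b, c, e1, e2, e3, nd⟩ := ht.pts hH
  simp only [List.nodup_cons, List.mem_cons, List.not_mem_nil, or_false, not_or,
    List.nodup_nil, and_true, not_false_eq_true] at nd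
  have hA : A ∈ U S := subset_U hl (by rw [e2]; simp)
  have hB : B ∈ U S := subset_U hg (by rw [e1]; simp)
  exact hS.mem_of_two ht.2.2.1 (x := A) (y := B) (by tauto) (by rw [e3]; simp)
    (by rw [e3]; simp) hA hB

theorem bnd_good_of {Q Q' : Finset (Finset α × Finset α)} (hQ : Q ⊆ Ch H) (hQ' : Q' ⊆ Q)
    (hg : BNDgood H e Q')
    (h : ∀ v ∈ Q, v.1 ∈ cl H (Ln Q') ∧ v.2 ∈ cl H (Ln Q')) : BNDgood H e Q := by
  have h1 : cl H (Ln Q) = cl H (Ln Q') :=
    Subset.antisymm (cl_subset (cl_closed _ _) (bnd_Ln_sub_of h))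
      (cl_mono (bnd_Ln_mono hQ') (bnd_Ln_sub hQ))
  unfold BNDgood
  rw [h1]
  exact hg

theorem bnd_good_erase {Q : Finset (Finset α × Finset α)} (hQ : Q ⊆ Ch H)
    {x : Finset α × Finset α} (hg : BNDgood H e (Q.erase x))
    (h1 : x.1 ∈ cl H (Ln (Q.erase x))) (h2 : x.2 ∈ cl H (Ln (Q.erase x))) :
    BNDgood H e Q := by
  have hQ' : Q.erase x ⊆ Q := erase_subset _ _
  refine bnd_good_of hQ hQ' hg ?_
  intro v hv
  by_cases hvx : v = x
  · subst hvx
    exact ⟨h1, h2⟩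
  · have hv' : v ∈ Q.erase x := mem_erase.2 ⟨hvx, hv⟩
    have hs := subset_cl (bnd_Ln_sub (hQ'.trans hQ))
    exact ⟨hs (bnd_fst hv'), hs (bnd_snd hv')⟩

/-- Adjacent cherries: the lines of `x` are in the closure of the lines of `y`, or `x` is
the upper one. -/
theorem bnd_adj (hH : Lin H) (hF : Free H e) (he : 3 ≤ e) {x y : Finset α × Finset α}
    (hx : x ∈ Ch H) (hy : y ∈ Ch H) (h : KR H x y ∨ KR H y x) :
    (x.1 ∈ cl H {y.1, y.2} ∧ x.2 ∈ cl H {y.1, y.2}) ∨ KA H x y := by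
  have hTA : TA H y x → x.1 ∈ cl H {y.1, y.2} ∧ x.2 ∈ cl H {y.1, y.2} := by
    intro ht
    have hm : x ∈ disc H y := by
      classical
      exact mem_filter.2 ⟨hx, Relation.ReflTransGen.single ht⟩
    have h2 := mem_Ch.1 (disc_sub hH hy hm)
    exact ⟨h2.1, h2.2.1⟩
  have hKA : KA H y x → x.1 ∈ cl H {y.1, y.2} ∧ x.2 ∈ cl H {y.1, y.2} := by
    intro hk
    obtain ⟨-, -, h3, h4⟩ := KA.facts hH hF he hk
    exact ⟨h3, h4⟩
  rcases h with (h | h | h) | (h | h | h)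
  · exact Or.inl (hTA h.symm)
  · exact Or.inr h
  · exact Or.inl (hKA h)
  · exact Or.inl (hTA h)
  · exact Or.inl (hKA h)
  · exact Or.inr h

theorem bnd_pair_sub {Q : Finset (Finset α × Finset α)} (hQ : Q ⊆ Ch H)
    {y : Finset α × Finset α} (hy : y ∈ Q) : cl H {y.1, y.2} ⊆ cl H (Ln Q) := by
  apply cl_mono _ (bnd_Ln_sub hQ)
  intro z hz
  simp only [mem_insert, mem_singleton] at hz
  rcases hz with rfl | rfl
  · exact bnd_fst hy
  · exact bnd_snd hy

/-- If `x` can be erased and `Q` is not good, then a neighbour of `x` is below `x`. -/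
theorem bnd_up (hH : Lin H) (hF : Free H e) (he : 3 ≤ e)
    {Q : Finset (Finset α × Finset α)} (hQ : Q ⊆ Ch H) (hn : ¬ BNDgood H e Q)
    {x y : Finset α × Finset α} (hx : x ∈ Q) (hg : BNDgood H e (Q.erase x))
    (hy : y ∈ Q) (hyx : y ≠ x) (h : KR H x y ∨ KR H y x) : KA H x y := by
  rcases bnd_adj hH hF he (hQ hx) (hQ hy) h with ⟨h1, h2⟩ | h1
  · exfalso
    apply hn
    have hs := bnd_pair_sub ((erase_subset x Q).trans hQ) (mem_erase.2 ⟨hyx, hy⟩)
    exact bnd_good_erase hQ hg (hs h1) (hs h2)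
  · exact h1

/-- **BND.** A connected set of cherries spans fewer than `e` lines with at most three more
points. -/
theorem bnd (hH : Lin H) (hF : Free H e) (he : 3 ≤ e) {Q : Finset (Finset α × Finset α)}
    (hQ : Q ⊆ Ch H) (hQ0 : Q.Nonempty) (hc : Conn (KR H) Q) :
    (cl H (Ln Q)).card < e ∧ (U (cl H (Ln Q))).card ≤ (cl H (Ln Q)).card + 3 := by
  classical
  change BNDgood H e Q
  induction hn : Q.card using Nat.strong_induction_on generalizing Q with
  | _ n ih =>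
  have IH : ∀ Q' ⊆ Q, Q'.Nonempty → Q'.card < Q.card → Conn (KR H) Q' → BNDgood H e Q' := by
    intro Q' h1 h2 h3 h4
    exact ih Q'.card (by omega) (h1.trans hQ) h2 h4 rfl
  clear ih
  have hpos := hQ0.card_pos
  rcases Nat.lt_or_ge Q.card 2 with h1 | h2
  · -- one cherry
    obtain ⟨v, hv⟩ := card_eq_one.1 (show Q.card = 1 by omega)
    have hvC : v ∈ Ch H := hQ (by rw [hv]; simp)
    have hL : Ln Q = {v.1, v.2} := by
      rw [hv]
      simp [Ln]
    unfold BNDgood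
    rw [hL]
    apply grow hH hF
    · intro z hz
      simp only [mem_insert, mem_singleton] at hz
      rcases hz with rfl | rfl
      · exact (mem_Ch.1 hvC).1
      · exact (mem_Ch.1 hvC).2.1
    · rw [pair_card hvC]
      omega
    · rw [U_pair_card hH hvC, pair_card hvC]
    · exact le_rfl
  by_contra hbad
  -- first removable cherry
  obtain ⟨s0, hs0⟩ := hQ0
  obtain ⟨f, hfQ, -, hfc⟩ := conn_erase hc hs0 h2
  obtain ⟨sf, hsfQ, hsff, hadjf⟩ := conn_adj hc hfQ h2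
  have hcardf : (Q.erase f).card = Q.card - 1 := card_erase_of_mem hfQ
  have hsfe : sf ∈ Q.erase f := mem_erase.2 ⟨hsff, hsfQ⟩
  have hgf : BNDgood H e (Q.erase f) :=
    IH _ (erase_subset _ _) ⟨sf, hsfe⟩ (by omega) hfc
  have hKf : KA H f sf := bnd_up hH hF he hQ hbad hfQ hgf hsfQ hsff hadjf
  have hfacts := KA.facts hH hF he hKf
  -- at least three cherries
  have h3 : 3 ≤ Q.card := by
    by_contra h3
    have h2' : Q.card = 2 := by omega
    have hcs : (Q.erase sf).card = 1 := by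
      rw [card_erase_of_mem hsfQ]
      omega
    have hfe : f ∈ Q.erase sf := mem_erase.2 ⟨hsff.symm, hfQ⟩
    obtain ⟨z, hz⟩ := card_eq_one.1 hcs
    have hz' : z = f := by
      rw [hz, mem_singleton] at hfe
      exact hfe.symm
    subst hz'
    have hg1 : BNDgood H e (Q.erase sf) := by
      apply IH _ (erase_subset _ _) ⟨z, hfe⟩ (by omega)
      rw [hz]
      exact conn_singleton _ _
    apply hbad
    have hs := bnd_pair_sub ((erase_subset sf Q).trans hQ) hfe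
    exact bnd_good_erase hQ hg1 (hs hfacts.2.2.1) (hs hfacts.2.2.2)
  -- second removable cherry
  obtain ⟨g, hge, hgsf, hRc⟩ := conn_erase hfc hsfe (by omega)
  have hgQ : g ∈ Q := mem_of_mem_erase hge
  have hgf' : g ≠ f := (mem_erase.1 hge).1
  set R := (Q.erase f).erase g with hR
  have hRQ : R ⊆ Q := (erase_subset _ _).trans (erase_subset _ _)
  have hsfR : sf ∈ R := mem_erase.2 ⟨hgsf.symm, hsfe⟩
  have hRcard : R.card = Q.card - 2 := by
    rw [hR, card_erase_of_mem hge, hcardf]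
    omega
  obtain ⟨sg, hsge, hsgg, hadjg⟩ := conn_adj hfc hge (by omega)
  have hsgR : sg ∈ R := mem_erase.2 ⟨hsgg, hsge⟩
  have hsgQ : sg ∈ Q := hRQ hsgR
  have hQg : Q.erase g = insert f R := by
    ext z
    simp only [hR, mem_erase, mem_insert]
    constructor
    · rintro ⟨h4, h5⟩
      by_cases hzf : z = f
      · exact Or.inl hzf
      · exact Or.inr ⟨h4, hzf, h5⟩
    · rintro (rfl | ⟨h4, h5, h6⟩)
      · exact ⟨hgf'.symm, hfQ⟩
      · exact ⟨h4, h6⟩
  have hQgc : Conn (KR H) (Q.erase g) := by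
    rw [hQg]
    exact conn_insert hRc hsfR hadjf
  have hcardg : (Q.erase g).card = Q.card - 1 := card_erase_of_mem hgQ
  have hfQg : f ∈ Q.erase g := mem_erase.2 ⟨hgf'.symm, hfQ⟩
  have hgg : BNDgood H e (Q.erase g) :=
    IH _ (erase_subset _ _) ⟨f, hfQg⟩ (by omega) hQgc
  have hKg : KA H g sg := bnd_up hH hF he hQ hbad hgQ hgg hsgQ hsgg hadjg
  have hgR : BNDgood H e R := IH _ hRQ ⟨sf, hsfR⟩ (by omega) hRc
  -- the closed set `S`
  set S := cl H (Ln R) with hSdef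
  set Sf := cl H (Ln (Q.erase g)) with hSf
  have hSc : Closed H S := cl_closed _ _
  have hSfc : Closed H Sf := cl_closed _ _
  have hRsub : Ln R ⊆ S := subset_cl (bnd_Ln_sub (hRQ.trans hQ))
  have hRg : R ⊆ Q.erase g := by
    rw [hQg]
    exact subset_insert _ _
  have hSSf : S ⊆ Sf :=
    cl_mono (bnd_Ln_mono hRg) (bnd_Ln_sub ((erase_subset _ _).trans hQ))
  have hLSf : Ln (Q.erase g) ⊆ Sf := subset_cl (bnd_Ln_sub ((erase_subset _ _).trans hQ))
  have hf1 : f.1 ∈ Sf := hLSf (bnd_fst hfQg)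
  have hf2 : f.2 ∈ Sf := hLSf (bnd_snd hfQg)
  obtain ⟨hfC, hfNB, hfneedy, kf', hSpf⟩ := hKf
  obtain ⟨-, -, -, kg, hSpg⟩ := hKg
  obtain ⟨A1, B1, C1, a1, b1, c1, D1⟩ := hSpf.data hH
  obtain ⟨A2, B2, C2, a2, b2, c2, D2⟩ := hSpg.data hH
  have hsf1 : sf.1 ∈ S := hRsub (bnd_fst hsfR)
  have hsf2 : sf.2 ∈ S := hRsub (bnd_snd hsfR)
  have hsg1 : sg.1 ∈ S := hRsub (bnd_fst hsgR)
  have hsg2 : sg.2 ∈ S := hRsub (bnd_snd hsgR)
  have hRf : R ⊆ Q.erase f := erase_subset _ _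
  have hSef : S ⊆ cl H (Ln (Q.erase f)) :=
    cl_mono (bnd_Ln_mono hRf) (bnd_Ln_sub ((erase_subset _ _).trans hQ))
  -- the triangle of `f`
  rcases D1.dich hSc hsf1 hsf2 with ⟨h4, h5, -⟩ | ⟨hA1, hB1, hC1⟩
  · exact hbad (bnd_good_erase hQ hgf (hSef h4) (hSef h5))
  obtain ⟨hf1S, -, -, hW1c, -, hW1U⟩ := D1.up hsf1 hsf2 hA1 hB1 hC1
  set W1 := S ∪ {f.1, f.2, kf'} with hW1
  have hkfSf : kf' ∈ Sf := bnd_tri_mem hH hSfc hSpf.1 hf1 hf2
  have hW1Sf : W1 ⊆ Sf := by
    apply union_subset hSSf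
    intro z hz
    simp only [mem_insert, mem_singleton] at hz
    rcases hz with rfl | rfl | rfl
    · exact hf1
    · exact hf2
    · exact hkfSf
  -- the triangle of `g`
  rcases D2.dich hSfc (hSSf hsg1) (hSSf hsg2) with ⟨h4, h5, -⟩ | ⟨hA2, hB2, hC2⟩
  · exact hbad (bnd_good_erase hQ hgg h4 h5)
  have hUW1 : U W1 ⊆ U Sf := U_mono hW1Sf
  have hSW1 : S ⊆ W1 := subset_union_left
  obtain ⟨-, -, -, hW2c, -, hW2U⟩ := D2.up (hSW1 hsg1) (hSW1 hsg2)
    (fun h => hA2 (hUW1 h)) (fun h => hB2 (hUW1 h)) (fun h => hC2 (hUW1 h))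
  set W := W1 ∪ {g.1, g.2, kg} with hW
  have hLQ : Ln Q ⊆ cl H (Ln Q) := subset_cl (bnd_Ln_sub hQ)
  have hQcl : Closed H (cl H (Ln Q)) := cl_closed _ _
  have hSQ : S ⊆ cl H (Ln Q) := cl_mono (bnd_Ln_mono hRQ) (bnd_Ln_sub hQ)
  have hkfQ : kf' ∈ cl H (Ln Q) :=
    bnd_tri_mem hH hQcl hSpf.1 (hLQ (bnd_fst hfQ)) (hLQ (bnd_snd hfQ))
  have hkgQ : kg ∈ cl H (Ln Q) :=
    bnd_tri_mem hH hQcl hSpg.1 (hLQ (bnd_fst hgQ)) (hLQ (bnd_snd hgQ))
  have hWcl : W ⊆ cl H (Ln Q) := by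
    apply union_subset (union_subset hSQ _)
    · intro z hz
      simp only [mem_insert, mem_singleton] at hz
      rcases hz with rfl | rfl | rfl
      · exact hLQ (bnd_fst hgQ)
      · exact hLQ (bnd_snd hgQ)
      · exact hkgQ
    · intro z hz
      simp only [mem_insert, mem_singleton] at hz
      rcases hz with rfl | rfl | rfl
      · exact hLQ (bnd_fst hfQ)
      · exact hLQ (bnd_snd hfQ)
      · exact hkfQ
  have hWH : W ⊆ H := hWcl.trans (cl_sub _ _)
  have hLW : Ln Q ⊆ W := by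
    apply bnd_Ln_sub_of
    intro v hv
    by_cases hvf : v = f
    · subst hvf
      exact ⟨mem_union_left _ (mem_union_right _ (by simp)),
        mem_union_left _ (mem_union_right _ (by simp))⟩
    by_cases hvg : v = g
    · subst hvg
      exact ⟨mem_union_right _ (by simp), mem_union_right _ (by simp)⟩
    · have hvR : v ∈ R := mem_erase.2 ⟨hvg, mem_erase.2 ⟨hvf, hv⟩⟩
      exact ⟨mem_union_left _ (mem_union_left _ (hRsub (bnd_fst hvR))),
        mem_union_left _ (mem_union_left _ (hRsub (bnd_snd hvR)))⟩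
  have hWcard : W.card = S.card + 6 := by omega
  have hWU : (U W).card ≤ W.card + 3 := by
    have h12 : (U S).card ≤ S.card + 3 := hgR.2
    omega
  rcases lt_trichotomy W.card e with hlt | heq | hgt
  · -- `cl W = cl (Ln Q)`
    have hcl : cl H (Ln Q) = cl H W :=
      Subset.antisymm (cl_mono hLW hWH) (cl_subset hQcl hWcl)
    apply hbad
    unfold BNDgood
    rw [hcl]
    exact grow hH hF hWH hlt hWU le_rfl
  · have := hF W hWH heq
    omega
  · -- few lines outside `S`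
    have hSfe : Sf.card < e := hgg.1
    have hsub : cl H (S ∪ {f.1, f.2}) ⊆ Sf := by
      apply cl_subset hSfc
      apply union_subset hSSf
      intro z hz
      simp only [mem_insert, mem_singleton] at hz
      rcases hz with rfl | rfl
      · exact hf1
      · exact hf2
    have hcard4 : (cl H (S ∪ {f.1, f.2}) \ S).card ≤ 4 := by
      have h6 : (cl H (S ∪ {f.1, f.2}) \ S).card ≤ (Sf \ S).card :=
        card_le_card (sdiff_subset_sdiff hsub Subset.rfl)
      have h7 : (Sf \ S).card = Sf.card - S.card := card_sdiff_of_subset hSSf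
      omega
    have h8 := sml hH hSc hSpf hsf1 hsf2 hf1S hcard4
    have h9 := pend_ineq hH (disc_TAc H f) ⟨f, mem_disc_self hfC⟩
      (fun T hT hT2 => NB.dprop hH hF he hfC hfNB T (hT.trans (Ln_disc_sub hH hfC)) hT2)
    have h10 : own H (disc H f) < 4 := hfneedy
    have h11 : ((pend (disc H f)).card : ℤ) ≤ 4 := by exact_mod_cast h8
    omega

end Pool.Agent.BR2
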