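import Pool.Agent.BR2.Defs

/-! # Basic lemmas for the project BR2 -/

set_option autoImplicit false

namespace Pool.Agent.BR2

open Finset

variable {α : Type*} [DecidableEq α] {H S T M : Finset (Finset α)} {e : ℕ}

theorem mem_U {x : α} : x ∈ U S ↔ ∃ l ∈ S, x ∈ l := by
  simp [U]

theorem subset_U {l : Finset α} (h : l ∈ S) : l ⊆ U S := fun _ hx => mem_U.2 ⟨l, h, hx⟩

theorem U_mono (h : S ⊆ T) : U S ⊆ U T := fun _ hx => by
  obtain ⟨l, hl, hx⟩ := mem_U.1 hx
  exact mem_U.2 ⟨l, h hl, hx⟩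

theorem U_union : U (S ∪ T) = U S ∪ U T := by
  ext x; simp only [mem_U, mem_union]; constructor
  · rintro ⟨l, h | h, hx⟩
    · exact Or.inl ⟨l, h, hx⟩
    · exact Or.inr ⟨l, h, hx⟩
  · rintro (⟨l, h, hx⟩ | ⟨l, h, hx⟩)
    · exact ⟨l, Or.inl h, hx⟩
    · exact ⟨l, Or.inr h, hx⟩

@[simp] theorem U_empty : U (∅ : Finset (Finset α)) = ∅ := by simp [U]

@[simp] theorem U_singleton (l : Finset α) : U {l} = l := by simp [U]

theorem U_insert (l : Finset α) : U (insert l S) = l ∪ U S := by simp [U]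

theorem U_pair (g l : Finset α) : U {g, l} = g ∪ l := by simp [U]

theorem Lin.mono (h : Lin H) (hS : S ⊆ H) : Lin S :=
  ⟨fun l hl => h.three l (hS hl), fun l hl k hk => h.inter l (hS hl) k (hS hk)⟩

theorem Lin.eq_of_two (h : Lin H) {g l : Finset α} (hg : g ∈ H) (hl : l ∈ H) {x y : α}
    (hxy : x ≠ y) (hxg : x ∈ g) (hyg : y ∈ g) (hxl : x ∈ l) (hyl : y ∈ l) : g = l := by
  by_contra hne
  have := h.inter g hg l hl hne
  have h2 : ({x, y} : Finset α) ⊆ g ∩ l := by
    intro z hz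
    simp only [mem_insert, mem_singleton] at hz
    rcases hz with rfl | rfl <;> simp_all
  have h3 := card_le_card h2
  rw [card_pair hxy] at h3
  omega

theorem mem_Ch {v : Finset α × Finset α} :
    v ∈ Ch H ↔ v.1 ∈ H ∧ v.2 ∈ H ∧ v.1 ≠ v.2 ∧ (v.1 ∩ v.2).Nonempty := by
  simp [Ch, and_assoc]

theorem inter_card_one (h : Lin H) {v : Finset α × Finset α} (hv : v ∈ Ch H) :
    (v.1 ∩ v.2).card = 1 := by
  obtain ⟨h1, h2, h3, h4⟩ := mem_Ch.1 hv
  have := h.inter _ h1 _ h2 h3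
  have := h4.card_pos
  omega

theorem U_pair_card (h : Lin H) {v : Finset α × Finset α} (hv : v ∈ Ch H) :
    (U {v.1, v.2}).card = 5 := by
  have h1 := inter_card_one h hv
  obtain ⟨h2, h3, h4, h5⟩ := mem_Ch.1 hv
  have := card_union_add_card_inter v.1 v.2
  rw [h.three _ h2, h.three _ h3] at this
  rw [U_pair]
  omega

theorem pair_card {v : Finset α × Finset α} (hv : v ∈ Ch H) :
    ({v.1, v.2} : Finset (Finset α)).card = 2 := card_pair (mem_Ch.1 hv).2.2.1

/-! ### Closure -/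

theorem cl_sub (H S : Finset (Finset α)) : cl H S ⊆ H := by
  classical
  exact filter_subset _ _

theorem subset_cl (hS : S ⊆ H) : S ⊆ cl H S := by
  classical
  intro l hl
  exact mem_filter.2 ⟨hS hl, fun T _ hT => hT hl⟩

theorem cl_subset (hT : Closed H T) (hST : S ⊆ T) : cl H S ⊆ T := by
  classical
  intro l hl
  exact (mem_filter.1 hl).2 T hT hST

theorem cl_closed (H S : Finset (Finset α)) : Closed H (cl H S) := by
  classical
  refine ⟨cl_sub H S, ?_⟩
  intro g hg h2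
  refine mem_filter.2 ⟨hg, fun T hT hST => hT.2 g hg ?_⟩
  exact h2.trans (card_le_card (inter_subset_inter_left (U_mono (cl_subset hT hST))))

theorem cl_mono (hST : S ⊆ T) (hT : T ⊆ H) : cl H S ⊆ cl H T :=
  cl_subset (cl_closed H T) (hST.trans (subset_cl hT))

theorem Closed.mem_of_two {g : Finset α} (hS : Closed H S) (hg : g ∈ H) {x y : α} (hxy : x ≠ y)
    (hx : x ∈ g) (hy : y ∈ g) (hxS : x ∈ U S) (hyS : y ∈ U S) : g ∈ S := by
  refine hS.2 g hg ?_
  rw [← card_pair hxy]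
  apply card_le_card
  intro z hz
  simp only [mem_insert, mem_singleton] at hz
  rcases hz with rfl | rfl
  · exact mem_inter.2 ⟨hx, hxS⟩
  · exact mem_inter.2 ⟨hy, hyS⟩

theorem Closed.cl_eq (hS : Closed H S) : cl H S = S :=
  Subset.antisymm (cl_subset hS Subset.rfl) (subset_cl hS.1)

/-- **GROW.** Fewer than `e` lines with at most `d ≤ 3` more points than lines have such a
closure. -/
theorem grow (hH : Lin H) (hF : Free H e) (hS : S ⊆ H) (he : S.card < e) {d : ℕ}
    (hd : (U S).card ≤ S.card + d) (hd3 : d ≤ 3) :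
    (cl H S).card < e ∧ (U (cl H S)).card ≤ (cl H S).card + d := by
  classical
  -- maximal intermediate set
  let F := (cl H S).powerset.filter (fun T => S ⊆ T ∧ T.card < e ∧ (U T).card ≤ T.card + d)
  have hF0 : F.Nonempty := ⟨S, by simp [F, subset_cl hS, he, hd]⟩
  obtain ⟨T, hTF, hTmax⟩ := exists_max_image F Finset.card hF0
  simp only [F, mem_filter, mem_powerset] at hTF
  obtain ⟨hTcl, hST, hTe, hTd⟩ := hTF
  have hTH : T ⊆ H := hTcl.trans (cl_sub H S)
  have hTc : Closed H T := by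
    refine ⟨hTH, ?_⟩
    intro g hg h2
    by_contra hgT
    have hgc : g ∈ cl H S := (cl_closed H S).2 g hg
      (h2.trans (card_le_card (inter_subset_inter_left (U_mono hTcl))))
    have hU : (U (insert g T)).card ≤ (U T).card + 1 := by
      rw [U_insert]
      have h1 := card_union_add_card_inter g (U T)
      rw [hH.three g hg] at h1
      omega
    have hc : (insert g T).card = T.card + 1 := card_insert_of_notMem hgT
    by_cases hlt : T.card + 1 < e
    · have := hTmax (insert g T) (by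
        simp only [F, mem_filter, mem_powerset]
        refine ⟨insert_subset hgc hTcl, hST.trans (subset_insert _ _), by omega, by omega⟩)
      omega
    · have := hF (insert g T) (insert_subset hg hTH) (by omega)
      omega
  have : cl H S = T := Subset.antisymm (cl_subset hTc hST) hTcl
  rw [this]
  exact ⟨hTe, hTd⟩

/-! ### Triangles -/

theorem Tri.swap12 {g l k : Finset α} (h : Tri H g l k) : Tri H l g k := by
  obtain ⟨h1, h2, h3, h4, h5, h6, h7⟩ := h
  exact ⟨h2, h1, h3, by rwa [inter_comm], h6, h5, by rwa [inter_comm l g]⟩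

theorem Tri.swap23 {g l k : Finset α} (h : Tri H g l k) : Tri H g k l := by
  obtain ⟨h1, h2, h3, h4, h5, h6, h7⟩ := h
  exact ⟨h1, h3, h2, h6, by rwa [inter_comm], h4, by rwa [inter_right_comm]⟩

theorem Tri.rot {g l k : Finset α} (h : Tri H g l k) : Tri H l k g := h.swap12.swap23

theorem Tri.ne12 {g l k : Finset α} (h : Tri H g l k) : g ≠ l := by
  rintro rfl
  obtain ⟨h1, h2, h3, h4, h5, h6, h7⟩ := h
  rw [inter_self] at h7
  simp [h7] at h6

theorem Tri.ne23 {g l k : Finset α} (h : Tri H g l k) : l ≠ k := h.rot.ne12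

theorem Tri.ne13 {g l k : Finset α} (h : Tri H g l k) : g ≠ k := h.swap23.ne12

theorem Tri.mono {g l k : Finset α} (h : Tri S g l k) (hS : S ⊆ H) : Tri H g l k := by
  obtain ⟨h1, h2, h3, h4⟩ := h
  exact ⟨hS h1, hS h2, hS h3, h4⟩

theorem Tri.Ch12 {g l k : Finset α} (h : Tri H g l k) : (g, l) ∈ Ch H :=
  mem_Ch.2 ⟨h.1, h.2.1, h.ne12, h.2.2.2.1⟩

theorem Tri.Ch13 {g l k : Finset α} (h : Tri H g l k) : (g, k) ∈ Ch H := h.swap23.Ch12

theorem Tri.Ch23 {g l k : Finset α} (h : Tri H g l k) : (l, k) ∈ Ch H := h.rot.Ch12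

theorem third {g : Finset α} (hg : g.card = 3) {x y : α} (hx : x ∈ g) (hy : y ∈ g) (hxy : x ≠ y) :
    ∃ z, g = {x, y, z} ∧ z ≠ x ∧ z ≠ y := by
  have h1 : (g.erase x).card = 2 := by rw [card_erase_of_mem hx, hg]
  have h2 : ((g.erase x).erase y).card = 1 := by
    rw [card_erase_of_mem (mem_erase.2 ⟨hxy.symm, hy⟩), h1]
  obtain ⟨z, hz⟩ := card_eq_one.1 h2
  have hz' : z ∈ (g.erase x).erase y := by rw [hz]; simp
  simp only [mem_erase, ne_eq] at hz'
  refine ⟨z, ?_, hz'.2.1, hz'.1⟩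
  ext w
  simp only [mem_insert, mem_singleton]
  constructor
  · intro hw
    by_cases h3 : w = x
    · exact Or.inl h3
    by_cases h4 : w = y
    · exact Or.inr (Or.inl h4)
    have : w ∈ (g.erase x).erase y := by simp [h3, h4, hw]
    rw [hz] at this
    exact Or.inr (Or.inr (mem_singleton.1 this))
  · rintro (rfl | rfl | rfl)
    · exact hx
    · exact hy
    · exact hz'.2.2

/-- The six points of a triangle. -/
theorem Tri.pts (hH : Lin H) {g l k : Finset α} (h : Tri H g l k) :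
    ∃ A B C a b c : α, g = {B, C, a} ∧ l = {C, A, b} ∧ k = {A, B, c} ∧
      [A, B, C, a, b, c].Nodup := by
  have hgl := h.ne12
  have hlk := h.ne23
  have hgk := h.ne13
  obtain ⟨hg, hl, hk, ⟨C, hC⟩, ⟨A, hA⟩, ⟨B, hB⟩, h0⟩ := h
  rw [mem_inter] at hA hB hC
  have h0' : ∀ x, x ∈ g → x ∈ l → x ∈ k → False := by
    intro x h1 h2 h3
    have : x ∈ g ∩ l ∩ k := by simp [h1, h2, h3]
    rw [h0] at this
    simp at this
  have hBC : B ≠ C := fun h => h0' C hC.1 hC.2 (h ▸ hB.2)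
  have hCA : C ≠ A := fun h => h0' C hC.1 hC.2 (h ▸ hA.2)
  have hAB : A ≠ B := fun h => h0' B hB.1 (h ▸ hA.1) hB.2
  obtain ⟨a, hga, ha1, ha2⟩ := third (hH.three g hg) hB.1 hC.1 hBC
  obtain ⟨b, hlb, hb1, hb2⟩ := third (hH.three l hl) hC.2 hA.1 hCA
  obtain ⟨c, hkc, hc1, hc2⟩ := third (hH.three k hk) hA.2 hB.2 hAB
  refine ⟨A, B, C, a, b, c, hga, hlb, hkc, ?_⟩
  have hag : a ∈ g := by rw [hga]; simp
  have hbl : b ∈ l := by rw [hlb]; simp
  have hck : c ∈ k := by rw [hkc]; simp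
  have e1 : A ≠ a := fun h => by
    subst h; exact h0' A hag hA.1 hA.2
  have e2 : B ≠ b := fun h => by
    subst h; exact h0' B hB.1 hbl hB.2
  have e3 : C ≠ c := fun h => by
    subst h; exact h0' C hC.1 hC.2 hck
  have e4 : a ≠ b := fun h => by
    subst h; exact hgl (hH.eq_of_two hg hl ha2 hag hC.1 hbl hC.2)
  have e5 : b ≠ c := fun h => by
    subst h; exact hlk (hH.eq_of_two hl hk hb2 hbl hA.1 hck hA.2)
  have e6 : a ≠ c := fun h => by
    subst h; exact hgk (hH.eq_of_two hg hk ha1 hag hB.1 hck hB.2)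
  simp only [List.nodup_cons, List.mem_cons, List.not_mem_nil, or_false, not_or,
    List.nodup_nil, and_true, not_false_eq_true]
  exact ⟨⟨hAB, hCA.symm, e1, hb2.symm, hc1.symm⟩, ⟨hBC, ha1.symm, e2, hc2.symm⟩,
    ⟨ha2.symm, hb1.symm, e3⟩, ⟨e4, e6⟩, e5⟩

theorem TA.symm {v w : Finset α × Finset α} (h : TA H v w) : TA H w v := by
  obtain ⟨hv, h | ⟨k, hk, hw⟩⟩ := h
  · subst h
    obtain ⟨h1, h2, h3, h4⟩ := mem_Ch.1 hv
    exact ⟨mem_Ch.2 ⟨h2, h1, h3.symm, by rwa [Prod.fst_swap, Prod.snd_swap, inter_comm]⟩,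
      Or.inl (by simp)⟩
  · subst hw
    exact ⟨hk.Ch13, Or.inr ⟨v.2, hk.swap23, rfl⟩⟩

theorem TA.right {v w : Finset α × Finset α} (h : TA H v w) : w ∈ Ch H := h.symm.1

theorem TAc.swap {X : Finset (Finset α × Finset α)} (hX : TAc H X) {g l : Finset α}
    (h : (g, l) ∈ X) : (l, g) ∈ X :=
  hX.2 _ h _ ⟨hX.1 h, Or.inl rfl⟩

theorem TAc.tri {X : Finset (Finset α × Finset α)} (hX : TAc H X) {g l k : Finset α}
    (h : (g, l) ∈ X) (ht : Tri H g l k) : (g, k) ∈ X :=
  hX.2 _ h _ ⟨hX.1 h, Or.inr ⟨k, ht, rfl⟩⟩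

theorem TAc.tri' {X : Finset (Finset α × Finset α)} (hX : TAc H X) {g l k : Finset α}
    (h : (g, l) ∈ X) (ht : Tri H g l k) : (l, k) ∈ X :=
  hX.tri (hX.swap h) ht.swap12

end Pool.Agent.BR2
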