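import Pool.Agent.BR2.Base

/-! # Project BR2, module FLAG -/

set_option autoImplicit false

namespace Pool.Agent.BR2

open Finset

variable {α : Type*} [DecidableEq α] {H S T M A : Finset (Finset α)} {e : ℕ}

variable {X : Finset (Finset α × Finset α)}

theorem flag_mem {f : Finset α × α} :
    f ∈ Fl X ↔ ∃ l, (f.1, l) ∈ X ∧ f.2 ∈ l ∧ f.2 ∉ f.1 := by
  simp only [Fl, mem_biUnion, mem_image, mem_sdiff]
  constructor
  · rintro ⟨v, hv, x, ⟨h1, h2⟩, rfl⟩
    exact ⟨v.2, hv, h1, h2⟩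
  · rintro ⟨l, h1, h2, h3⟩
    exact ⟨(f.1, l), h1, f.2, ⟨h2, h3⟩, rfl⟩

/-- the cherries over a flag -/
private def flagC (X : Finset (Finset α × Finset α)) (f : Finset α × α) :
    Finset (Finset α × Finset α) :=
  X.filter (fun v => v.1 = f.1 ∧ f.2 ∈ v.2)

private theorem flag_kf (f : Finset α × α) : kf X f = (flagC X f).card := rfl

private theorem flag_memC {f : Finset α × α} {v : Finset α × Finset α} :
    v ∈ flagC X f ↔ v ∈ X ∧ v.1 = f.1 ∧ f.2 ∈ v.2 := mem_filter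

/-- two cherries over the same flag with a common point on the first line are equal -/
private theorem flag_inj (hH : Lin H) (hX : TAc H X) {f : Finset α × α} (hf : f ∈ Fl X)
    {v w : Finset α × Finset α} (hv : v ∈ flagC X f) (hw : w ∈ flagC X f) {p : α}
    (hp : p ∈ f.1) (hpv : p ∈ v.2) (hpw : p ∈ w.2) : v = w := by
  obtain ⟨l0, -, -, h0⟩ := flag_mem.1 hf
  obtain ⟨v1, v2, v3⟩ := flag_memC.1 hv
  obtain ⟨w1, w2, w3⟩ := flag_memC.1 hw
  have hne : p ≠ f.2 := fun h => h0 (h ▸ hp)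
  have h2 : v.2 = w.2 := hH.eq_of_two (mem_Ch.1 (hX.1 v1)).2.1 (mem_Ch.1 (hX.1 w1)).2.1 hne
    hpv v3 hpw w3
  exact Prod.ext (v2.trans w2.symm) h2

private theorem flag_kf_le (hH : Lin H) (hX : TAc H X) {f : Finset α × α} (hf : f ∈ Fl X) :
    kf X f ≤ 3 := by
  classical
  rw [flag_kf]
  obtain ⟨l0, hl0, -, h0⟩ := flag_mem.1 hf
  have hg : f.1 ∈ H := (mem_Ch.1 (hX.1 hl0)).1
  have hpt : ∀ v ∈ flagC X f, ∃ p, p ∈ f.1 ∧ p ∈ v.2 := by
    intro v hv
    obtain ⟨v1, v2, v3⟩ := flag_memC.1 hv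
    obtain ⟨p, hp⟩ := (mem_Ch.1 (hX.1 v1)).2.2.2
    rw [mem_inter] at hp
    exact ⟨p, v2 ▸ hp.1, hp.2⟩
  rw [← hH.three f.1 hg]
  have hex : ∀ v : Finset α × Finset α, ∃ p, v ∈ flagC X f → p ∈ f.1 ∧ p ∈ v.2 := by
    intro v
    by_cases hv : v ∈ flagC X f
    · obtain ⟨p, hp⟩ := hpt v hv
      exact ⟨p, fun _ => hp⟩
    · exact ⟨f.2, fun h => absurd h hv⟩
  choose pt hpt' using hex
  apply card_le_card_of_injOn pt
  · intro v hv
    exact (hpt' v hv).1
  · intro v hv w hw hvw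
    exact flag_inj hH hX hf hv hw (hpt' v hv).1 (hpt' v hv).2 (hvw ▸ (hpt' w hw).2)

private theorem flag_kf_pos {f : Finset α × α} (hf : f ∈ Fl X) : 1 ≤ kf X f := by
  rw [flag_kf]
  obtain ⟨l0, hl0, h1, -⟩ := flag_mem.1 hf
  exact card_pos.2 ⟨(f.1, l0), flag_memC.2 ⟨hl0, rfl, h1⟩⟩

/-- sums over flags by the value of `kf` -/
private theorem flag_sum (hH : Lin H) (hX : TAc H X) (F : ℕ → ℕ) :
    ∑ f ∈ Fl X, F (kf X f) = F 1 * nf X 1 + F 2 * nf X 2 + F 3 * nf X 3 := by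
  unfold nf
  simp only [card_filter]
  rw [mul_sum, mul_sum, mul_sum, ← sum_add_distrib, ← sum_add_distrib]
  apply sum_congr rfl
  intro f hf
  have h1 := flag_kf_le hH hX hf
  have h2 := flag_kf_pos hf
  generalize kf X f = k at h1 h2
  interval_cases k <;> simp

theorem flag_two (hH : Lin H) (hX : TAc H X) :
    2 * X.card = nf X 1 + 2 * nf X 2 + 3 * nf X 3 := by
  have h1 := flag_sum hH hX (fun k => k)
  simp only [one_mul] at h1
  rw [← h1]
  have h2 := sum_card_bipartiteAbove_eq_sum_card_bipartiteBelow (s := X) (t := Fl X)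
    (fun (v : Finset α × Finset α) (f : Finset α × α) => v.1 = f.1 ∧ f.2 ∈ v.2)
  have h3 : ∀ f ∈ Fl X, (bipartiteBelow (fun (v : Finset α × Finset α) (f : Finset α × α) =>
      v.1 = f.1 ∧ f.2 ∈ v.2) X f).card = kf X f := fun f _ => rfl
  rw [sum_congr rfl h3] at h2
  rw [← h2]
  have h4 : ∀ v ∈ X, (bipartiteAbove (fun (v : Finset α × Finset α) (f : Finset α × α) =>
      v.1 = f.1 ∧ f.2 ∈ v.2) (Fl X) v).card = 2 := by
    intro v hv
    have e1 : bipartiteAbove (fun (v : Finset α × Finset α) (f : Finset α × α) =>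
        v.1 = f.1 ∧ f.2 ∈ v.2) (Fl X) v = (v.2 \ v.1).image (fun x => (v.1, x)) := by
      ext f
      simp only [mem_bipartiteAbove, mem_image, mem_sdiff]
      constructor
      · rintro ⟨hf, h5, h6⟩
        obtain ⟨l, -, -, h7⟩ := flag_mem.1 hf
        exact ⟨f.2, ⟨h6, h5 ▸ h7⟩, by rw [h5]⟩
      · rintro ⟨x, ⟨h5, h6⟩, rfl⟩
        exact ⟨flag_mem.2 ⟨v.2, hv, h5, h6⟩, rfl, h5⟩
    rw [e1, card_image_of_injective _ (fun x y h => (Prod.mk.inj h).2)]
    have h8 := card_sdiff_add_card_inter v.2 v.1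
    have h9 := inter_card_one hH (hX.1 hv)
    rw [inter_comm] at h9
    rw [h9, hH.three _ (mem_Ch.1 (hX.1 hv)).2.1] at h8
    omega
  rw [sum_congr rfl h4]
  simp [mul_comm]

theorem flag_tr (hH : Lin H) (hX : TAc H X) :
    (Tr H X).card = 2 * nf X 2 + 6 * nf X 3 := by
  classical
  have h1 := flag_sum hH hX (fun k => k * k - k)
  simp only [mul_one, Nat.sub_self, zero_mul, zero_add] at h1
  norm_num at h1
  rw [← h1]
  have h2 := sum_card_bipartiteAbove_eq_sum_card_bipartiteBelow (s := Tr H X) (t := Fl X)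
    (fun (q : (Finset α × Finset α) × Finset α) (f : Finset α × α) =>
      q.1.1 = f.1 ∧ f.2 ∈ q.1.2 ∧ f.2 ∈ q.2)
  have h4 : ∀ q ∈ Tr H X, (bipartiteAbove (fun (q : (Finset α × Finset α) × Finset α)
      (f : Finset α × α) => q.1.1 = f.1 ∧ f.2 ∈ q.1.2 ∧ f.2 ∈ q.2) (Fl X) q).card = 1 := by
    rintro ⟨⟨g, l⟩, k⟩ hq
    simp only [Tr, mem_filter, mem_product] at hq
    obtain ⟨⟨hv, hk⟩, ht⟩ := hq
    rw [card_eq_one]
    obtain ⟨x, hx⟩ := ht.2.2.2.2.1
    rw [mem_inter] at hx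
    have hxg : x ∉ g := by
      intro h
      have : x ∈ g ∩ l ∩ k := by simp [h, hx.1, hx.2]
      rw [ht.2.2.2.2.2.2] at this
      simp at this
    refine ⟨(g, x), ?_⟩
    ext f
    simp only [mem_bipartiteAbove, mem_singleton]
    constructor
    · rintro ⟨-, h5, h6, h7⟩
      apply Prod.ext h5.symm
      by_contra hne
      exact ht.ne23 (hH.eq_of_two ht.2.1 ht.2.2.1 hne h6 hx.1 h7 hx.2)
    · rintro rfl
      exact ⟨flag_mem.2 ⟨l, hv, hx.1, hxg⟩, rfl, hx.1, hx.2⟩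
  have h3 : ∀ f ∈ Fl X, (bipartiteBelow (fun (q : (Finset α × Finset α) × Finset α)
      (f : Finset α × α) => q.1.1 = f.1 ∧ f.2 ∈ q.1.2 ∧ f.2 ∈ q.2) (Tr H X) f).card =
      kf X f * kf X f - kf X f := by
    intro f hf
    rw [flag_kf, ← offDiag_card]
    refine card_nbij' (fun q => (q.1, (q.1.1, q.2))) (fun p => (p.1, p.2.2)) ?_ ?_ ?_ ?_
    · rintro ⟨⟨g, l⟩, k⟩ hq
      simp only [mem_coe, mem_bipartiteBelow, Tr, mem_filter, mem_product] at hq
      obtain ⟨⟨⟨hv, hk⟩, ht⟩, h5, h6, h7⟩ := hq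
      simp only [mem_coe, mem_offDiag]
      refine ⟨flag_memC.2 ⟨hv, h5, h6⟩, flag_memC.2 ⟨hX.tri hv ht, h5, h7⟩, ?_⟩
      intro h
      exact ht.ne23 (Prod.mk.inj h).2
    · rintro ⟨v, w⟩ hp
      simp only [mem_coe, mem_offDiag] at hp
      obtain ⟨hv, hw, hne⟩ := hp
      obtain ⟨v1, v2, v3⟩ := flag_memC.1 hv
      obtain ⟨w1, w2, w3⟩ := flag_memC.1 hw
      simp only [mem_coe, mem_bipartiteBelow, Tr, mem_filter, mem_product]
      obtain ⟨c1, c2, c3, c4⟩ := mem_Ch.1 (hX.1 v1)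
      obtain ⟨d1, d2, d3, d4⟩ := mem_Ch.1 (hX.1 w1)
      refine ⟨⟨⟨v1, d2⟩, c1, c2, d2, c4, ⟨f.2, mem_inter.2 ⟨v3, w3⟩⟩, ?_, ?_⟩, v2, v3, w3⟩
      · rw [v2, ← w2]
        exact d4
      · apply eq_empty_of_forall_notMem
        intro p hp
        simp only [mem_inter] at hp
        exact hne (flag_inj hH hX hf hv hw (v2 ▸ hp.1.1) hp.1.2 hp.2)
    · rintro ⟨⟨g, l⟩, k⟩ _
      rfl
    · rintro ⟨v, w⟩ hp
      simp only [mem_coe, mem_offDiag] at hp
      obtain ⟨hv, hw, hne⟩ := hp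
      have v2 := (flag_memC.1 hv).2.1
      have w2 := (flag_memC.1 hw).2.1
      simp only [Prod.mk.injEq, true_and]
      exact Prod.ext (v2.trans w2.symm) rfl
  rw [sum_congr rfl h3, sum_congr rfl h4] at h2
  rw [← h2]
  simp

theorem flag_card (hH : Lin H) (hX : TAc H X) :
    (Fl X).card = nf X 1 + nf X 2 + nf X 3 := by
  have h1 := flag_sum hH hX (fun _ => 1)
  simpa using h1

theorem own_eq (H : Finset (Finset α)) (X : Finset (Finset α × Finset α)) :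
    own H X = 2 * (X.card : ℤ) - ((Tr H X).card : ℤ) := by
  classical
  have h1 : (Tr H X).card = ∑ w ∈ X, t H w := by
    unfold Tr t
    rw [card_filter, sum_product]
    apply sum_congr rfl
    intro w _
    rw [card_filter]
  unfold own
  rw [sum_sub_distrib, h1]
  push_cast
  simp [mul_comm]

theorem own_nf (hH : Lin H) (hX : TAc H X) : own H X = (nf X 1 : ℤ) - 3 * (nf X 3 : ℤ) := by
  have h1 := flag_two hH hX
  have h2 := flag_tr hH hX
  rw [own_eq, h2]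
  push_cast
  omega

end Pool.Agent.BR2
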