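import Pool.Agent.BR2.LOC
import Pool.Agent.BR2.FLAG

/-! # Project BR2, module LOCX -/

set_option autoImplicit false

namespace Pool.Agent.BR2

open Finset

variable {α : Type*} [DecidableEq α] {H S T M A : Finset (Finset α)} {e : ℕ}

/-- Joined points. -/
def Jn (H : Finset (Finset α)) (x y : α) : Prop := x ≠ y ∧ ∃ h ∈ H, x ∈ h ∧ y ∈ h

/-- The line through two points. -/
def lnx (H : Finset (Finset α)) (x y : α) : Finset α :=
  (H.filter (fun h => x ∈ h ∧ y ∈ h)).biUnion id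

open scoped Classical in
/-- The third point of the line through two points. -/
noncomputable def opx (H : Finset (Finset α)) (x y : α) : α :=
  if h : ∃ z, z ≠ x ∧ z ≠ y ∧ z ∈ lnx H x y then h.choose else x

theorem lnx_eq (hH : Lin H) {x y : α} (hxy : x ≠ y) {h : Finset α} (hh : h ∈ H) (hx : x ∈ h)
    (hy : y ∈ h) : lnx H x y = h := by
  have : H.filter (fun h => x ∈ h ∧ y ∈ h) = {h} := by
    ext k
    simp only [mem_filter, mem_singleton]
    constructor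
    · rintro ⟨h1, h2, h3⟩
      exact hH.eq_of_two h1 hh hxy h2 h3 hx hy
    · rintro rfl
      exact ⟨hh, hx, hy⟩
  simp [lnx, this]

theorem opx_eq (hH : Lin H) {x y z : α} {h : Finset α} (hh : h ∈ H) (hxy : x ≠ y)
    (hx : x ∈ h) (hy : y ∈ h) (hz : z ∈ h) (hzx : z ≠ x) (hzy : z ≠ y) : opx H x y = z := by
  have e1 := lnx_eq hH hxy hh hx hy
  have hex : ∃ z, z ≠ x ∧ z ≠ y ∧ z ∈ lnx H x y := ⟨z, hzx, hzy, by rw [e1]; exact hz⟩
  rw [opx, dif_pos hex]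
  obtain ⟨s1, s2, s3'⟩ := hex.choose_spec
  have s3 : hex.choose ∈ h := (Finset.ext_iff.1 e1 _).1 s3'
  by_contra hne
  obtain ⟨w, hw, w1, w2⟩ := third (hH.three h hh) hx hy hxy
  rw [hw] at s3 hz
  simp only [mem_insert, mem_singleton] at s3 hz
  rcases s3 with h1 | h1 | h1
  · exact s1 h1
  · exact s2 h1
  · rcases hz with h2 | h2 | h2
    · exact hzx h2
    · exact hzy h2
    · exact hne (h1.trans h2.symm)

/-- data of the third point -/
theorem opx_spec (hH : Lin H) {x y : α} (h : Jn H x y) :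
    ∃ l ∈ H, x ∈ l ∧ y ∈ l ∧ opx H x y ∈ l ∧ opx H x y ≠ x ∧ opx H x y ≠ y ∧ x ≠ y := by
  obtain ⟨hxy, l, hl, hx, hy⟩ := h
  obtain ⟨w, hw, w1, w2⟩ := third (hH.three l hl) hx hy hxy
  have hwl : w ∈ l := by rw [hw]; simp
  have := opx_eq hH hl hxy hx hy hwl w1 w2
  rw [this]
  exact ⟨l, hl, hx, hy, hwl, w1, w2, hxy⟩

/-- corners of a triangle -/
def Cor (H : Finset (Finset α)) (X : Finset (Finset α × Finset α)) (g l k : Finset α)
    (A B C : α) : Prop :=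
  Tri H g l k ∧ (g, l) ∈ X ∧ A ∈ l ∧ A ∈ k ∧ B ∈ g ∧ B ∈ k ∧ C ∈ g ∧ C ∈ l

theorem Tri.no {g l k : Finset α} (h : Tri H g l k) {x : α} (h1 : x ∈ g) (h2 : x ∈ l)
    (h3 : x ∈ k) : False := by
  have : x ∈ g ∩ l ∩ k := by simp [h1, h2, h3]
  rw [h.2.2.2.2.2.2] at this
  simp at this

theorem Cor.ne {X : Finset (Finset α × Finset α)} {g l k : Finset α} {A B C : α}
    (h : Cor H X g l k A B C) : A ≠ B ∧ B ≠ C ∧ A ≠ C ∧ A ∉ g ∧ B ∉ l ∧ C ∉ k := by
  obtain ⟨t, hX, h1, h2, h3, h4, h5, h6⟩ := h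
  refine ⟨?_, ?_, ?_, ?_, ?_, ?_⟩
  · rintro rfl; exact t.no h3 h1 h2
  · rintro rfl; exact t.no h3 h6 h4
  · rintro rfl; exact t.no h5 h1 h2
  · intro h; exact t.no h h1 h2
  · intro h; exact t.no h3 h h4
  · intro h; exact t.no h5 h6 h

theorem Cor.swap {X : Finset (Finset α × Finset α)} (hX : TAc H X) {g l k : Finset α} {A B C : α}
    (h : Cor H X g l k A B C) : Cor H X l g k B A C := by
  obtain ⟨t, hX', h1, h2, h3, h4, h5, h6⟩ := h
  exact ⟨t.swap12, hX.swap hX', h3, h4, h1, h2, h6, h5⟩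

theorem Cor.rot {X : Finset (Finset α × Finset α)} (hX : TAc H X) {g l k : Finset α} {A B C : α}
    (h : Cor H X g l k A B C) : Cor H X l k g B C A := by
  obtain ⟨t, hX', h1, h2, h3, h4, h5, h6⟩ := h
  exact ⟨t.rot, hX.tri' hX' t, h4, h3, h6, h5, h1, h2⟩

theorem Cor.jn {X : Finset (Finset α × Finset α)} {g l k : Finset α} {A B C : α}
    (h : Cor H X g l k A B C) : Jn H A B ∧ Jn H B C ∧ Jn H A C := by
  obtain ⟨n1, n2, n3, _⟩ := h.ne
  obtain ⟨t, hX', h1, h2, h3, h4, h5, h6⟩ := h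
  exact ⟨⟨n1, k, t.2.2.1, h2, h4⟩, ⟨n2, g, t.1, h3, h5⟩, ⟨n3, l, t.2.1, h1, h6⟩⟩

theorem Cor.ln {X : Finset (Finset α × Finset α)} (hH : Lin H) {g l k : Finset α} {A B C : α}
    (h : Cor H X g l k A B C) : lnx H B C = g ∧ lnx H A C = l ∧ lnx H A B = k := by
  obtain ⟨n1, n2, n3, _⟩ := h.ne
  obtain ⟨t, hX', h1, h2, h3, h4, h5, h6⟩ := h
  exact ⟨lnx_eq hH n2 t.1 h3 h5, lnx_eq hH n3 t.2.1 h1 h6, lnx_eq hH n1 t.2.2.1 h2 h4⟩

/-- The midpoint `op B C` is on `g` and on no other line of the triangle. -/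
theorem Cor.mid {X : Finset (Finset α × Finset α)} (hH : Lin H) {g l k : Finset α} {A B C : α}
    (h : Cor H X g l k A B C) :
    opx H B C ∈ g ∧ opx H B C ≠ B ∧ opx H B C ≠ C ∧ opx H B C ∉ l ∧ opx H B C ∉ k := by
  obtain ⟨m, hm, m1, m2, m3, m4, m5, m6⟩ := opx_spec hH h.jn.2.1
  obtain ⟨n1, n2, n3, n4, n5, n6⟩ := h.ne
  obtain ⟨t, hX', h1, h2, h3, h4, h5, h6⟩ := h
  have hmg : m = g := hH.eq_of_two hm t.1 n2 m1 m2 h3 h5
  rw [hmg] at m3
  refine ⟨m3, m4, m5, ?_, ?_⟩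
  · intro h
    have : g = l := hH.eq_of_two t.1 t.2.1 m5 m3 h5 h h6
    exact t.ne12 this
  · intro h
    have : g = k := hH.eq_of_two t.1 t.2.2.1 m4 m3 h3 h h4
    exact t.ne13 this

open scoped Classical in
/-- The ordered triples of corners. -/
noncomputable def TT (H : Finset (Finset α)) (X : Finset (Finset α × Finset α)) :
    Finset (α × α × α) :=
  ((U H) ×ˢ ((U H) ×ˢ (U H))).filter (fun τ => ∃ g l k, Cor H X g l k τ.1 τ.2.1 τ.2.2)

theorem mem_TT {X : Finset (Finset α × Finset α)} {τ : α × α × α} :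
    τ ∈ TT H X ↔ ∃ g l k, Cor H X g l k τ.1 τ.2.1 τ.2.2 := by
  classical
  rw [TT, mem_filter]
  constructor
  · exact fun h => h.2
  · intro h
    refine ⟨?_, h⟩
    obtain ⟨g, l, k, t, hX', h1, h2, h3, h4, h5, h6⟩ := h
    rw [mem_product, mem_product]
    exact ⟨subset_U t.2.1 h1, subset_U t.1 h3, subset_U t.1 h5⟩

/-- from triples of points to triples of lines -/
def phi (H : Finset (Finset α)) (τ : α × α × α) : (Finset α × Finset α) × Finset α :=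
  ((lnx H τ.2.1 τ.2.2, lnx H τ.1 τ.2.2), lnx H τ.1 τ.2.1)

theorem phi_inj (hH : Lin H) {X : Finset (Finset α × Finset α)} :
    Set.InjOn (phi H) (TT H X : Set (α × α × α)) := by
  rintro ⟨A, B, C⟩ h1 ⟨A', B', C'⟩ h2 h
  rw [mem_coe, mem_TT] at h1 h2
  obtain ⟨g, l, k, h1⟩ := h1
  obtain ⟨g', l', k', h2⟩ := h2
  simp only at h1 h2
  obtain ⟨a1, a2, a3⟩ := h1.ln hH
  obtain ⟨b1, b2, b3⟩ := h2.ln hH
  simp only [phi, Prod.mk.injEq] at h
  obtain ⟨⟨e1, e2⟩, e3⟩ := h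
  have f1 : g = g' := by rw [← a1, ← b1, e1]
  have f2 : l = l' := by rw [← a2, ← b2, e2]
  have f3 : k = k' := by rw [← a3, ← b3, e3]
  subst f1 f2 f3
  obtain ⟨t, -, c1, c2, c3, c4, c5, c6⟩ := h1
  obtain ⟨-, -, d1, d2, d3, d4, d5, d6⟩ := h2
  have g1 : A = A' := by
    by_contra hne
    exact t.ne23 (hH.eq_of_two t.2.1 t.2.2.1 hne c1 d1 c2 d2)
  have g2 : B = B' := by
    by_contra hne
    exact t.ne13 (hH.eq_of_two t.1 t.2.2.1 hne c3 d3 c4 d4)
  have g3 : C = C' := by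
    by_contra hne
    exact t.ne12 (hH.eq_of_two t.1 t.2.1 hne c5 d5 c6 d6)
  rw [g1, g2, g3]

theorem TT_card (hH : Lin H) {X : Finset (Finset α × Finset α)} :
    (TT H X).card ≤ (Tr H X).card := by
  classical
  refine card_le_card_of_injOn (phi H) ?_ (phi_inj hH)
  rintro ⟨A, B, C⟩ h1
  rw [mem_coe, mem_TT] at h1
  obtain ⟨g, l, k, h1⟩ := h1
  obtain ⟨a1, a2, a3⟩ := h1.ln hH
  simp only at a1 a2 a3
  simp only [phi, a1, a2, a3, Tr, coe_filter, Set.mem_ofPred_eq, mem_product]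
  exact ⟨⟨h1.2.1, h1.1.2.2.1⟩, h1.1⟩

/-- midlines -/
theorem Cor.ml {X : Finset (Finset α × Finset α)} (hH : Lin H) (hX : TAc H X)
    {g l k : Finset α} {A B C : α} (h : Cor H X g l k A B C)
    (hj : Jn H (opx H B C) (opx H A C)) : ∃ p, ML H g l k p := by
  obtain ⟨-, p, hp, h1, h2⟩ := hj
  obtain ⟨a1, -, -, a2, a3⟩ := h.mid hH
  obtain ⟨b1, -, -, b2, b3⟩ := (h.swap hX).mid hH
  refine ⟨p, hp, ⟨opx H B C, ?_⟩, ⟨opx H A C, ?_⟩⟩
  · simp [h1, a1, a2, a3]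
  · simp [h2, b1, b2, b3]

theorem opx_comm (hH : Lin H) {x y : α} (h : Jn H x y) : opx H x y = opx H y x := by
  obtain ⟨l, hl, h1, h2, h3, h4, h5, h6⟩ := opx_spec hH h
  exact (opx_eq hH hl h6.symm h2 h1 h3 h5 h4).symm

omit [DecidableEq α] in
theorem Jn.symm {x y : α} (h : Jn H x y) : Jn H y x := by
  obtain ⟨h1, l, hl, h2, h3⟩ := h
  exact ⟨h1.symm, l, hl, h3, h2⟩

open scoped Classical in
theorem TT_spn (hH : Lin H) {X : Finset (Finset α × Finset α)} (hX : TAc H X) :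
    ((TT H X).filter (fun τ => (2 : ℤ) ≤ bt (Jn H (opx H τ.1 τ.2.2) (opx H τ.1 τ.2.1))
      + bt (Jn H (opx H τ.1 τ.2.1) (opx H τ.2.1 τ.2.2))
      + bt (Jn H (opx H τ.2.1 τ.2.2) (opx H τ.1 τ.2.2)))).card ≤ spn H X := by
  rw [spn]
  refine card_le_card_of_injOn (phi H) ?_ ((phi_inj hH (X := X)).mono ?_)
  · rintro ⟨A, B, C⟩ h1
    rw [mem_coe, mem_filter, mem_TT] at h1
    obtain ⟨⟨g, l, k, h1⟩, h2⟩ := h1
    obtain ⟨a1, a2, a3⟩ := h1.ln hH
    simp only at a1 a2 a3 h1 h2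
    simp only [phi, a1, a2, a3, Tr, coe_filter, Set.mem_ofPred_eq, mem_filter, mem_product]
    refine ⟨⟨⟨h1.2.1, h1.1.2.2.1⟩, h1.1⟩, ?_⟩
    have j := h1.jn
    have m1 : Jn H (opx H B C) (opx H A C) → ∃ p, ML H g l k p := h1.ml hH hX
    have m2 : Jn H (opx H A C) (opx H A B) → ∃ p, ML H l k g p := by
      intro hj
      have := (h1.rot hX).ml hH hX
      rw [opx_comm hH j.2.2.symm, opx_comm hH j.1.symm] at this
      exact this hj
    have m3 : Jn H (opx H A B) (opx H B C) → ∃ p, ML H k g l p := by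
      intro hj
      have := ((h1.rot hX).rot hX).ml hH hX
      rw [opx_comm hH j.2.1.symm] at this
      exact this hj
    unfold isSp
    unfold bt at h2
    split_ifs at h2 with q1 q2 q3 q4 q5 q6
    · exact Or.inl ⟨m1 q3, m2 q1⟩
    · exact Or.inr (Or.inl ⟨m2 q1, m3 q2⟩)
    · exact Or.inl ⟨m1 (by assumption), m2 q1⟩
    · omega
    · exact Or.inr (Or.inr ⟨m1 (by assumption), m3 (by assumption)⟩)
    all_goals omega
  · intro τ hτ
    exact (mem_filter.1 hτ).1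

/-- A flag with three cherries: every point of the line is joined to `x` inside `X`. -/
theorem kf3 (hH : Lin H) {X : Finset (Finset α × Finset α)} (hX : TAc H X) {g : Finset α} {x : α}
    (hf : (g, x) ∈ Fl X) (hk : kf X (g, x) = 3) :
    g ∈ H ∧ x ∉ g ∧ ∀ y ∈ g, ∃ l, (g, l) ∈ X ∧ x ∈ l ∧ y ∈ l := by
  classical
  have hf' : g ∈ H ∧ x ∉ g := by
    simp only [Fl, mem_biUnion, mem_image, mem_sdiff, Prod.mk.injEq] at hf
    obtain ⟨v, hv, y, ⟨hy1, hy2⟩, rfl, rfl⟩ := hf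
    exact ⟨(mem_Ch.1 (hX.1 hv)).1, hy2⟩
  obtain ⟨hg, hx⟩ := hf'
  refine ⟨hg, hx, ?_⟩
  set Y := g.filter (fun y => ∃ l, (g, l) ∈ X ∧ x ∈ l ∧ y ∈ l) with hY
  have h1 : X.filter (fun v => v.1 = g ∧ x ∈ v.2) ⊆ Y.image (fun y => (g, lnx H x y)) := by
    rintro ⟨g', l⟩ hv
    simp only [mem_filter] at hv
    obtain ⟨hv, rfl, hxl⟩ := hv
    obtain ⟨c1, c2, c3, y, hy⟩ := mem_Ch.1 (hX.1 hv)
    rw [mem_inter] at hy
    simp only at hy c1 c2 c3
    rw [mem_image]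
    refine ⟨y, ?_, ?_⟩
    · rw [hY, mem_filter]
      exact ⟨hy.1, l, hv, hxl, hy.2⟩
    · have hxy : x ≠ y := by rintro rfl; exact hx hy.1
      rw [lnx_eq hH hxy c2 hxl hy.2]
  have h2 := (card_le_card h1).trans card_image_le
  have h3 : Y = g := by
    refine eq_of_subset_of_card_le (by rw [hY]; exact filter_subset _ _) ?_
    rw [hH.three g hg]
    have : kf X (g, x) = (X.filter (fun v => v.1 = g ∧ x ∈ v.2)).card := rfl
    omega
  intro y hy
  rw [← h3, hY, mem_filter] at hy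
  exact hy.2

theorem kf3_cor (hH : Lin H) {X : Finset (Finset α × Finset α)} (hX : TAc H X) {g : Finset α}
    {x : α} (hf : (g, x) ∈ Fl X) (hk : kf X (g, x) = 3) {B C : α} (hB : B ∈ g) (hC : C ∈ g)
    (hBC : B ≠ C) : (∃ l k, Cor H X g l k x B C) ∧ Jn H x (opx H B C) := by
  obtain ⟨hg, hx, h⟩ := kf3 hH hX hf hk
  constructor
  · obtain ⟨l, l1, l2, l3⟩ := h C hC
    obtain ⟨k, k1, k2, k3⟩ := h B hB
    have lH := (mem_Ch.1 (hX.1 l1)).2.1
    have kH := (mem_Ch.1 (hX.1 k1)).2.1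
    have lne := (mem_Ch.1 (hX.1 l1)).2.2.1
    have kne := (mem_Ch.1 (hX.1 k1)).2.2.1
    simp only at lH kH lne kne
    refine ⟨l, k, ⟨hg, lH, kH, ⟨C, by simp [*]⟩, ⟨x, by simp [*]⟩, ⟨B, by simp [*]⟩, ?_⟩,
      l1, l2, k2, hB, k3, hC, l3⟩
    rw [← not_nonempty_iff_eq_empty]
    rintro ⟨z, hz⟩
    simp only [mem_inter] at hz
    obtain ⟨⟨z1, z2⟩, z3⟩ := hz
    have e1 : z = C := by
      by_contra hne
      exact lne (hH.eq_of_two hg lH hne z1 hC z2 l3)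
    have e2 : z = B := by
      by_contra hne
      exact kne (hH.eq_of_two hg kH hne z1 hB z3 k3)
    exact hBC (e2.symm.trans e1)
  · obtain ⟨m, hm, m1, m2, m3, m4, m5, m6⟩ := opx_spec hH (x := B) (y := C) ⟨hBC, g, hg, hB, hC⟩
    have hmg : m = g := hH.eq_of_two hm hg hBC m1 m2 hB hC
    rw [hmg] at m3
    obtain ⟨l, l1, l2, l3⟩ := h _ m3
    refine ⟨?_, l, (mem_Ch.1 (hX.1 l1)).2.1, l2, l3⟩
    intro h
    rw [← h] at m3
    exact hx m3

theorem low_aux (hH : Lin H) {X : Finset (Finset α × Finset α)} (hX : TAc H X)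
    (T' : Finset (α × α × α)) (r : α × α × α → α × α × α) (hr : Function.Injective r)
    (hT' : ∀ x B C g, (∃ l k, Cor H X g l k x B C) → Jn H x (opx H B C) → r (x, B, C) ∈ T') :
    6 * nf X 3 ≤ T'.card := by
  classical
  set F := (Fl X).filter (fun f => kf X f = 3) with hF
  have e0 : nf X 3 = F.card := rfl
  set D := F.sigma (fun f => f.1.offDiag) with hD
  have e1 : D.card = 6 * nf X 3 := by
    rw [hD, card_sigma, e0, mul_comm, ← smul_eq_mul, ← sum_const]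
    apply sum_congr rfl
    rintro ⟨g, x⟩ hf
    rw [hF, mem_filter] at hf
    have := (kf3 hH hX hf.1 hf.2).1
    simp only [offDiag_card, hH.three g this]
  rw [← e1]
  refine card_le_card_of_injOn (fun p => r (p.1.2, p.2.1, p.2.2)) ?_ ?_
  · rintro ⟨⟨g, x⟩, ⟨B, C⟩⟩ hp
    rw [mem_coe, hD, mem_sigma, hF, mem_filter, mem_offDiag] at hp
    obtain ⟨⟨p1, p2⟩, p3, p4, p5⟩ := hp
    obtain ⟨q1, q2⟩ := kf3_cor hH hX p1 p2 p3 p4 p5
    exact hT' x B C g q1 q2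
  · rintro ⟨⟨g, x⟩, ⟨B, C⟩⟩ hp ⟨⟨g', x'⟩, ⟨B', C'⟩⟩ hp' h
    rw [mem_coe, hD, mem_sigma, hF, mem_filter, mem_offDiag] at hp hp'
    obtain ⟨⟨p1, p2⟩, p3, p4, p5⟩ := hp
    obtain ⟨⟨p1', p2'⟩, p3', p4', p5'⟩ := hp'
    have := hr h
    simp only [Prod.mk.injEq] at this
    obtain ⟨rfl, rfl, rfl⟩ := this
    have : g = g' := hH.eq_of_two (kf3 hH hX p1 p2).1 (kf3 hH hX p1' p2').1 p5 p3 p4 p3' p4'
    subst this
    rfl

open scoped Classical in
theorem low1 (hH : Lin H) {X : Finset (Finset α × Finset α)} (hX : TAc H X) :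
    6 * nf X 3 ≤ ((TT H X).filter (fun τ => Jn H τ.1 (opx H τ.2.1 τ.2.2))).card := by
  refine low_aux hH hX _ id Function.injective_id ?_
  intro x B C g ⟨l, k, h1⟩ h2
  rw [mem_filter, mem_TT]
  exact ⟨⟨g, l, k, h1⟩, h2⟩

open scoped Classical in
theorem low2 (hH : Lin H) {X : Finset (Finset α × Finset α)} (hX : TAc H X) :
    6 * nf X 3 ≤ ((TT H X).filter (fun τ => Jn H τ.2.1 (opx H τ.1 τ.2.2))).card := by
  refine low_aux hH hX _ (fun t => (t.2.1, t.1, t.2.2)) ?_ ?_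
  · rintro ⟨a, b, c⟩ ⟨a', b', c'⟩ h
    simp only [Prod.mk.injEq] at h ⊢
    tauto
  intro x B C g ⟨l, k, h1⟩ h2
  rw [mem_filter, mem_TT]
  exact ⟨⟨l, g, k, h1.swap hX⟩, h2⟩

open scoped Classical in
theorem low3 (hH : Lin H) {X : Finset (Finset α × Finset α)} (hX : TAc H X) :
    6 * nf X 3 ≤ ((TT H X).filter (fun τ => Jn H τ.2.2 (opx H τ.1 τ.2.1))).card := by
  refine low_aux hH hX _ (fun t => (t.2.1, t.2.2, t.1)) ?_ ?_
  · rintro ⟨a, b, c⟩ ⟨a', b', c'⟩ h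
    simp only [Prod.mk.injEq] at h ⊢
    tauto
  intro x B C g ⟨l, k, h1⟩ h2
  rw [mem_filter, mem_TT]
  exact ⟨⟨l, k, g, h1.rot hX⟩, h2⟩

theorem sum_bt {β : Type*} (T : Finset β) (p : β → Prop) [DecidablePred p] :
    ∑ τ ∈ T, bt (p τ) = ((T.filter p).card : ℤ) := by
  unfold bt
  rw [sum_boole]

/-- **LOCX.** -/
theorem locx (hH : Lin H) {X : Finset (Finset α × Finset α)} (hX : TAc H X) :
    3 * nf X 3 ≤ nf X 2 + spn H X := by
  classical
  have L := loc (Jn H) (opx H) (fun x y => Jn.symm) (fun x y h => h.1)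
    (fun x y => opx_comm hH)
    (fun x y h => by
      obtain ⟨l, hl, h1, h2, h3, h4, h5, h6⟩ := opx_spec hH h
      exact ⟨h4.symm, l, hl, h1, h3⟩)
    (fun x y h => by
      obtain ⟨l, hl, h1, h2, h3, h4, h5, h6⟩ := opx_spec hH h
      exact opx_eq hH hl h4.symm h1 h3 h2 h6.symm h5.symm)
    (TT H X)
    (by
      intro A B C h
      rw [mem_TT] at h
      obtain ⟨g, l, k, h⟩ := h
      simp only at h
      refine ⟨h.jn.1, h.jn.2.1, h.jn.2.2, ?_⟩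
      intro hC
      obtain ⟨m1, -⟩ := ((h.rot hX).rot hX).mid hH
      rw [← hC] at m1
      exact h.ne.2.2.2.2.2 m1)
    (by
      intro A B C h
      rw [mem_TT] at h ⊢
      obtain ⟨g, l, k, h⟩ := h
      exact ⟨l, g, k, h.swap hX⟩)
    (by
      intro A B C h
      rw [mem_TT] at h ⊢
      obtain ⟨g, l, k, h⟩ := h
      exact ⟨l, k, g, h.rot hX⟩)
    (by
      intro A B C h hj
      rw [mem_TT] at h ⊢
      obtain ⟨g, l, k, h⟩ := h
      simp only at h ⊢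
      obtain ⟨b1, b2, b3, b4, b5⟩ := (h.swap hX).mid hH
      obtain ⟨jne, m, mH, m1, m2⟩ := hj
      obtain ⟨n1, n2, n3, n4, n5, n6⟩ := h.ne
      have hlk := h.1.ne23
      obtain ⟨t, hgl, c1, c2, c3, c4, c5, c6⟩ := h
      set b := opx H A C
      have hml : m ≠ l := by rintro rfl; exact n5 m1
      have hmk : m ≠ k := by rintro rfl; exact b5 m2
      have T1 : Tri H l k m := by
        refine ⟨t.2.1, t.2.2.1, mH, ⟨A, by simp [c1, c2]⟩, ⟨B, by simp [c4, m1]⟩,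
          ⟨b, by simp [b1, m2]⟩, ?_⟩
        rw [← not_nonempty_iff_eq_empty]
        rintro ⟨z, hz⟩
        simp only [mem_inter] at hz
        obtain ⟨⟨z1, z2⟩, z3⟩ := hz
        have e1 : z = A := by
          by_contra hne
          exact hlk (hH.eq_of_two t.2.1 t.2.2.1 hne z1 c1 z2 c2)
        subst e1
        exact hml (hH.eq_of_two mH t.2.1 b2 m2 z3 b1 c1)
      have hlk' : (l, k) ∈ X := hX.tri' hgl t
      refine ⟨m, l, k, T1.rot.rot, hX.swap (hX.tri hlk' T1), c1, c2, m1, c4, m2, b1⟩)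
  rw [sum_add_distrib, sum_sub_distrib, ← mul_sum, ← mul_sum, sum_add_distrib, sum_add_distrib,
    sum_bt, sum_bt, sum_bt, sum_const, sum_bt] at L
  have l1 := low1 hH hX
  have l2 := low2 hH hX
  have l3 := low3 hH hX
  have l4 := TT_spn hH hX
  have l5 := TT_card hH (X := X)
  have l6 := flag_tr hH hX
  simp only [nsmul_eq_mul] at L
  zify at l1 l2 l3 l4 l5 l6 ⊢
  linarith

end Pool.Agent.BR2
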