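import Pool.Agent.BR2.EAR
import Pool.Agent.BR2.SpD

/-! # Project BR2, module NBX -/

set_option autoImplicit false

namespace Pool.Agent.BR2

open Finset

variable {α : Type*} [DecidableEq α] {H S T M A : Finset (Finset α)} {e : ℕ}

variable {v w : Finset α × Finset α}

theorem mem_disc : w ∈ disc H v ↔ w ∈ Ch H ∧ Relation.ReflTransGen (TA H) v w := by
  classical
  simp [disc]

theorem disc_TAc (H : Finset (Finset α)) (v : Finset α × Finset α) : TAc H (disc H v) := by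
  refine ⟨fun w hw => (mem_disc.1 hw).1, fun u hu w hw => ?_⟩
  exact mem_disc.2 ⟨hw.right, (mem_disc.1 hu).2.tail hw⟩

theorem mem_disc_self (hv : v ∈ Ch H) : v ∈ disc H v :=
  mem_disc.2 ⟨hv, Relation.ReflTransGen.refl⟩

theorem rtg_symm {β : Type*} {r : β → β → Prop} (hs : ∀ a b, r a b → r b a) {a b : β}
    (h : Relation.ReflTransGen r a b) : Relation.ReflTransGen r b a := by
  induction h with
  | refl => exact Relation.ReflTransGen.refl
  | tail _ h2 ih => exact (Relation.ReflTransGen.single (hs _ _ h2)).trans ih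

theorem disc_eq (hw : w ∈ disc H v) : disc H w = disc H v := by
  have h1 := (mem_disc.1 hw).2
  have h2 : Relation.ReflTransGen (TA H) w v := rtg_symm (fun _ _ h => h.symm) h1
  ext u
  rw [mem_disc, mem_disc]
  exact ⟨fun h => ⟨h.1, h1.trans h.2⟩, fun h => ⟨h.1, h2.trans h.2⟩⟩

/-- A `TA`-closed set which contains `v` contains its disc. -/
theorem disc_sub_of_TAc {X : Finset (Finset α × Finset α)} (hX : TAc H X) (hv : v ∈ X) :
    disc H v ⊆ X := by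
  intro w hw
  have h := (mem_disc.1 hw).2
  clear hw
  induction h with
  | refl => exact hv
  | tail _ h2 ih => exact hX.2 _ ih _ h2

/-- The third line of a triangle with two lines in a closed set. -/
theorem Closed.tri_mem (hS : Closed H S) {g l k : Finset α} (ht : Tri H g l k)
    (h1 : g ∈ S) (h2 : l ∈ S) : k ∈ S := by
  obtain ⟨hg, hl, hk, -, ⟨x, hx⟩, ⟨y, hy⟩, h0⟩ := ht
  rw [mem_inter] at hx hy
  have hxy : x ≠ y := by
    rintro rfl
    have : x ∈ g ∩ l ∩ k := by simp [hx.1, hx.2, hy.1]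
    rw [h0] at this
    simp at this
  exact hS.mem_of_two hk hxy hx.2 hy.2 (subset_U h2 hx.1) (subset_U h1 hy.1)

theorem Ch_TAc (hS : Closed H S) : TAc H (Ch S) := by
  refine ⟨?_, ?_⟩
  · intro u hu
    obtain ⟨h1, h2, h3, h4⟩ := mem_Ch.1 hu
    exact mem_Ch.2 ⟨hS.1 h1, hS.1 h2, h3, h4⟩
  · intro u hu w hw
    obtain ⟨h1, h2, h3, h4⟩ := mem_Ch.1 hu
    obtain ⟨-, rfl | ⟨k, hk, rfl⟩⟩ := hw
    · exact mem_Ch.2 ⟨h2, h1, h3.symm, by rwa [Prod.fst_swap, Prod.snd_swap, inter_comm]⟩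
    · exact mem_Ch.2 ⟨h1, hS.tri_mem hk h1 h2, hk.ne13, hk.2.2.2.2.2.1⟩

theorem disc_sub_closed (_hH : Lin H) (hS : Closed H S) (h1 : v.1 ∈ S) (h2 : v.2 ∈ S)
    (hv : v ∈ Ch H) : disc H v ⊆ Ch S := by
  obtain ⟨_, _, h3, h4⟩ := mem_Ch.1 hv
  exact disc_sub_of_TAc (Ch_TAc hS) (mem_Ch.2 ⟨h1, h2, h3, h4⟩)

theorem pair_sub (hv : v ∈ Ch H) : ({v.1, v.2} : Finset (Finset α)) ⊆ H := by
  obtain ⟨h1, h2, -, -⟩ := mem_Ch.1 hv
  intro x hx
  simp only [mem_insert, mem_singleton] at hx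
  rcases hx with rfl | rfl <;> assumption

theorem fst_mem_cl (hv : v ∈ Ch H) : v.1 ∈ cl H {v.1, v.2} :=
  subset_cl (pair_sub hv) (by simp)

theorem snd_mem_cl (hv : v ∈ Ch H) : v.2 ∈ cl H {v.1, v.2} :=
  subset_cl (pair_sub hv) (by simp)

theorem disc_sub (hH : Lin H) (hv : v ∈ Ch H) : disc H v ⊆ Ch (cl H {v.1, v.2}) :=
  disc_sub_closed hH (cl_closed _ _) (fst_mem_cl hv) (snd_mem_cl hv) hv

theorem cl_pair_sub (hS : Closed H S) (h1 : v.1 ∈ S) (h2 : v.2 ∈ S) : cl H {v.1, v.2} ⊆ S := by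
  refine cl_subset hS ?_
  intro x hx
  simp only [mem_insert, mem_singleton] at hx
  rcases hx with rfl | rfl <;> assumption

theorem disc_cl (hH : Lin H) (hv : v ∈ Ch H) (hw : w ∈ disc H v) :
    cl H {w.1, w.2} = cl H {v.1, v.2} := by
  have hw' := (mem_disc.1 hw).1
  have h1 := mem_Ch.1 (disc_sub hH hv hw)
  have h2 : v ∈ disc H w := by rw [disc_eq hw]; exact mem_disc_self hv
  have h3 := mem_Ch.1 (disc_sub hH hw' h2)
  exact Subset.antisymm (cl_pair_sub (cl_closed _ _) h1.1 h1.2.1)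
    (cl_pair_sub (cl_closed _ _) h3.1 h3.2.1)

theorem disc_NB (hH : Lin H) (hv : v ∈ Ch H) (hw : w ∈ disc H v) : NB H w ↔ NB H v := by
  unfold NB
  rw [disc_cl hH hv hw]

theorem mem_Ln {X : Finset (Finset α × Finset α)} {g : Finset α} :
    g ∈ Ln X ↔ ∃ u ∈ X, g = u.1 ∨ g = u.2 := by
  unfold Ln
  rw [mem_union, mem_image, mem_image]
  constructor
  · rintro (⟨u, hu, rfl⟩ | ⟨u, hu, rfl⟩)
    · exact ⟨u, hu, Or.inl rfl⟩
    · exact ⟨u, hu, Or.inr rfl⟩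
  · rintro ⟨u, hu, rfl | rfl⟩
    · exact Or.inl ⟨u, hu, rfl⟩
    · exact Or.inr ⟨u, hu, rfl⟩

theorem Ln_sub_of_sub_Ch {X : Finset (Finset α × Finset α)} (h : X ⊆ Ch M) : Ln X ⊆ M := by
  intro g hg
  obtain ⟨u, hu, rfl | rfl⟩ := mem_Ln.1 hg
  · exact (mem_Ch.1 (h hu)).1
  · exact (mem_Ch.1 (h hu)).2.1

theorem Ln_disc_sub (hH : Lin H) (hv : v ∈ Ch H) : Ln (disc H v) ⊆ cl H {v.1, v.2} :=
  Ln_sub_of_sub_Ch (disc_sub hH hv)

/-- Subsets of the closure of a cherry with `NB`. -/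
theorem NB.dprop (hH : Lin H) (hF : Free H e) (he : 3 ≤ e) (hv : v ∈ Ch H) (hN : NB H v) :
    ∀ S ⊆ cl H {v.1, v.2}, 2 ≤ S.card → S.card + 3 ≤ (U S).card :=
  Pool.Agent.BR2.dprop (hH.mono (cl_sub _ _)) (ear hH hF he hv hN)

theorem Sp.mem_closed (hH : Lin H) (hS : Closed H S) {g l k p q : Finset α}
    (h : Sp H g l k p q) (hg : g ∈ S) (hl : l ∈ S) : k ∈ S ∧ p ∈ S ∧ q ∈ S := by
  have hk : k ∈ S := hS.tri_mem h.1 hg hl
  obtain ⟨A, B, C, a, b, c, D⟩ := h.data hH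
  obtain ⟨eg, el, ek, nd, gH, lH, kH, pH, qH, ap, bp, bq, cq, ne⟩ := D
  simp only [List.nodup_cons, List.mem_cons, List.not_mem_nil, or_false, not_or,
    List.nodup_nil, and_true, not_false_eq_true] at nd
  have ha : a ∈ U S := subset_U hg (by rw [eg]; simp)
  have hb : b ∈ U S := subset_U hl (by rw [el]; simp)
  have hc : c ∈ U S := subset_U hk (by rw [ek]; simp)
  refine ⟨hk, ?_, ?_⟩
  · exact hS.mem_of_two pH (x := a) (y := b) (by tauto) ap bp ha hb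
  · exact hS.mem_of_two qH (x := b) (y := c) (by tauto) bq cq hb hc

theorem KA.facts (hH : Lin H) (hF : Free H e) (he : 3 ≤ e) (h : KA H v w) :
    w ∈ Ch H ∧ NB H w ∧ w.1 ∈ cl H {v.1, v.2} ∧ w.2 ∈ cl H {v.1, v.2} := by
  obtain ⟨hv, hN, -, k, hsp⟩ := h
  obtain ⟨hk, hp, hq⟩ := hsp.mem_closed hH (cl_closed H {v.1, v.2}) (fst_mem_cl hv)
    (snd_mem_cl hv)
  have hw : w ∈ Ch H := by
    obtain ⟨A, B, C, a, b, c, D⟩ := hsp.data hH
    exact mem_Ch.2 ⟨D.pH, D.qH, D.ne, ⟨b, mem_inter.2 ⟨D.bp, D.bq⟩⟩⟩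
  refine ⟨hw, ?_, hp, hq⟩
  refine NB.dprop hH hF he hv hN _ (cl_pair_sub (cl_closed _ _) hp hq) ?_
  rw [← pair_card hw]
  exact card_le_card (subset_cl (pair_sub hw))

end Pool.Agent.BR2
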