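import Pool.Agent.BR2.EULER
import Pool.Agent.BR2.LOCX
import Pool.Agent.BR2.NBX

/-! # Project BR2, module OWND -/

set_option autoImplicit false

namespace Pool.Agent.BR2

open Finset

variable {α : Type*} [DecidableEq α] {H S T M A : Finset (Finset α)} {e : ℕ}

/-- **OWND.** -/
theorem ownd (hH : Lin H) (hF : Free H e) (he : 3 ≤ e) {v : Finset α × Finset α} (hv : v ∈ Ch H)
    (hN : NB H v) : 12 ≤ 3 * own H (disc H v) + 2 * (spn H (disc H v) : ℤ) := by
  have hX := disc_TAc H v
  have h1 := euler hH (cl_sub H {v.1, v.2}) (ear hH hF he hv hN) hX (disc_sub hH hv)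
    ⟨v, mem_disc_self hv⟩
  have h2 := flag_two hH hX
  have h3 := flag_tr hH hX
  have h4 := flag_card hH hX
  have h5 := own_nf hH hX
  have h6 := locx hH hX
  rw [h5]
  omega

end Pool.Agent.BR2
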