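import Pool.Agent.BR2.FOR2
import Pool.Agent.BR2.BND
import Pool.Agent.BR2.BADC
import Pool.Agent.BR2.OWND

/-! # Project BR2, module CLS -/

set_option autoImplicit false

namespace Pool.Agent.BR2

open Finset

variable {α : Type*} [DecidableEq α] {H S T M A : Finset (Finset α)} {e : ℕ}

/-- The discs partition a `TA`-closed set. -/
theorem sum_discs {β : Type*} [AddCommMonoid β] {P : Finset (Finset α × Finset α)}
    (hP : TAc H P) (f : Finset α × Finset α → β) :
    ∑ w ∈ P, f w = ∑ X ∈ P.image (disc H), ∑ w ∈ X, f w := by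
  rw [← sum_fiberwise_of_maps_to (s := P) (t := P.image (disc H)) (g := disc H)
    (fun w hw => mem_image_of_mem _ hw)]
  apply sum_congr rfl
  intro X hX
  obtain ⟨u, hu, rfl⟩ := mem_image.1 hX
  apply sum_congr ?_ (fun _ _ => rfl)
  ext w
  rw [mem_filter]
  constructor
  · rintro ⟨h1, h2⟩
    rw [← h2]
    exact mem_disc_self (hP.1 h1)
  · intro hw
    exact ⟨disc_sub_of_TAc hP hu hw, disc_eq hw⟩

theorem own_discs {P : Finset (Finset α × Finset α)} (hP : TAc H P) :
    own H P = ∑ X ∈ P.image (disc H), own H X := sum_discs hP _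

theorem card_discs {P : Finset (Finset α × Finset α)} (hP : TAc H P) :
    P.card = ∑ X ∈ P.image (disc H), X.card := by
  have := sum_discs hP (fun _ => (1 : ℕ))
  simpa using this

theorem KR.symm' {v w : Finset α × Finset α} (h : KR H v w) : KR H w v := by
  rcases h with h | h | h
  · exact Or.inl h.symm
  · exact Or.inr (Or.inr h)
  · exact Or.inr (Or.inl h)

theorem KR.right (hH : Lin H) (hF : Free H e) (he : 3 ≤ e) {v w : Finset α × Finset α}
    (h : KR H v w) : w ∈ Ch H := by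
  rcases h with h | h | h
  · exact h.right
  · exact (KA.facts hH hF he h).1
  · exact h.1

theorem mem_cls {v w : Finset α × Finset α} :
    w ∈ cls H v ↔ w ∈ Ch H ∧ Relation.ReflTransGen (KR H) v w := by
  classical
  simp [cls]

theorem cls_sub (H : Finset (Finset α)) (v : Finset α × Finset α) : cls H v ⊆ Ch H :=
  fun _ hw => (mem_cls.1 hw).1

theorem mem_cls_self {v : Finset α × Finset α} (hv : v ∈ Ch H) : v ∈ cls H v :=
  mem_cls.2 ⟨hv, Relation.ReflTransGen.refl⟩

theorem cls_KR (hH : Lin H) (hF : Free H e) (he : 3 ≤ e) {v : Finset α × Finset α} :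
    ∀ u ∈ cls H v, ∀ w, KR H u w → w ∈ cls H v := by
  intro u hu w hw
  exact mem_cls.2 ⟨hw.right hH hF he, (mem_cls.1 hu).2.tail hw⟩

theorem cls_conn (hH : Lin H) (hF : Free H e) (he : 3 ≤ e) {v : Finset α × Finset α}
    (hv : v ∈ Ch H) : Conn (KR H) (cls H v) := by
  have key : ∀ x, x ∈ cls H v → Relation.ReflTransGen
      (fun a b => a ∈ cls H v ∧ b ∈ cls H v ∧ (KR H a b ∨ KR H b a)) v x := by
    intro x hx
    have h := (mem_cls.1 hx).2
    clear hx
    have hmem : ∀ y, Relation.ReflTransGen (KR H) v y → y ∈ cls H v := by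
      intro y hy
      induction hy with
      | refl => exact mem_cls_self hv
      | tail _ h2 ih => exact cls_KR hH hF he _ ih _ h2
    induction h with
    | refl => exact Relation.ReflTransGen.refl
    | tail h1 h2 ih =>
      exact ih.tail ⟨hmem _ h1, hmem _ (h1.tail h2), Or.inl h2⟩
  intro x hx y hy
  refine Relation.ReflTransGen.trans (rtg_symm ?_ (key x hx)) (key y hy)
  rintro a b ⟨h1, h2, h3⟩
  exact ⟨h2, h1, h3.symm⟩

/-- **CLS.** -/
theorem cls_own (hH : Lin H) (hF : Free H e) (he : 3 ≤ e) {v : Finset α × Finset α}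
    (hv : v ∈ Ch H) (hb : ¬ Bad H e v) : 4 ≤ own H (cls H v) ∧ (cls H v).card ≤ e ^ 2 := by
  have hbad : ∀ u ∈ cls H v, ¬ Bad H e u := by
    intro u hu
    have h := (mem_cls.1 hu).2
    clear hu
    induction h with
    | refl => exact hb
    | tail _ h2 ih => rwa [← bad_KR hH hF h2]
  have hNB : ∀ u ∈ cls H v, NB H u := by
    intro u hu
    by_contra hcon
    exact hbad u hu (bad_of_not_NB hH hF he (cls_sub _ _ hu) hcon)
  have hLn : Ln (cls H v) ⊆ H := Ln_sub_of_sub_Ch (cls_sub _ _)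
  obtain ⟨hCe, hCd⟩ := bnd hH hF he (cls_sub H v) ⟨v, mem_cls_self hv⟩ (cls_conn hH hF he hv)
  set C := cl H (Ln (cls H v)) with hC
  have hCc : Closed H C := cl_closed _ _
  have hPC : ∀ u ∈ cls H v, u.1 ∈ C ∧ u.2 ∈ C := by
    intro u hu
    exact ⟨subset_cl hLn (mem_Ln.2 ⟨u, hu, Or.inl rfl⟩), subset_cl hLn (mem_Ln.2 ⟨u, hu, Or.inr rfl⟩)⟩
  have hd : ∀ S ⊆ C, ∀ u ∈ cls H v, u.1 ∈ S → u.2 ∈ S → S.card + 3 ≤ (U S).card := by
    intro S hS u hu h1 h2
    by_contra hcon
    refine hbad u hu ⟨S, hS.trans hCc.1, ?_, by omega, h1, h2⟩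
    exact lt_of_le_of_lt (card_le_card hS) hCe
  have hfor := forest hH (cls_sub H v) ⟨v, mem_cls_self hv⟩ (cls_KR hH hF he) hNB hCc hPC hd
  have hTA : TAc H (cls H v) := ⟨cls_sub H v, fun u hu w hw => cls_KR hH hF he u hu w (Or.inl hw)⟩
  constructor
  · have h1 := own_discs hTA
    set D := (cls H v).image (disc H) with hD
    have h2 : ∀ X ∈ D, (12 : ℤ) ≤ 3 * own H X +
        2 * (if own H X < 4 then (spn H X : ℤ) else 0) := by
      intro X hX
      obtain ⟨u, hu, rfl⟩ := mem_image.1 hX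
      split_ifs with h3
      · exact ownd hH hF he (cls_sub _ _ hu) (hNB u hu)
      · omega
    have h3 := sum_le_sum h2
    rw [sum_const, sum_add_distrib, ← mul_sum, ← mul_sum, ← h1, ← sum_filter] at h3
    have h4 : (∑ X ∈ D.filter (fun X => own H X < 4), (spn H X : ℤ)) + 6 ≤ 6 * (D.card : ℤ) := by
      exact_mod_cast hfor
    rw [nsmul_eq_mul] at h3
    linarith
  · have h1 : cls H v ⊆ C ×ˢ C := by
      intro u hu
      exact mem_product.2 (hPC u hu)
    have h2 := card_le_card h1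
    rw [card_product] at h2
    nlinarith

end Pool.Agent.BR2
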