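import Pool.Agent.BR2.EAR

/-! # Project BR2, module ONE -/

set_option autoImplicit false

namespace Pool.Agent.BR2

open Finset

variable {α : Type*} [DecidableEq α] {H S T M A : Finset (Finset α)} {e : ℕ}

private theorem one_mem (hH : Lin H) (hF : Free H e) (he : 3 ≤ e) {g l : Finset α}
    (hS : S ⊆ H) (hg : g ∈ S) (hSe : S.card < e) (hSd : (U S).card ≤ S.card + 2)
    (hmax : ∀ T ⊆ H, g ∈ T → T.card < e → (U T).card ≤ T.card + 2 → T.card ≤ S.card)
    (hv : (g, l) ∈ Ch H) (hN : ¬ NB H (g, l)) : l ∈ S := by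
  by_contra hl
  obtain ⟨A, hA, hgA, hlA, hAe, hAd, hsub⟩ := badear hH hF he hv hN
  obtain ⟨hgH, hlH, hgl, hinter⟩ := mem_Ch.1 hv
  have hlH' : l ∈ H := hlH
  have hinter' : (g ∩ l).Nonempty := hinter
  have hins : insert l S ⊆ H := insert_subset hlH' hS
  have hc : (insert l S).card = S.card + 1 := card_insert_of_notMem hl
  have hUi : (U (insert l S)).card ≤ (U S).card + 2 := by
    rw [U_insert]
    have h1 := card_union_add_card_inter l (U S)
    rw [hH.three l hlH'] at h1
    have h2 : 0 < (l ∩ U S).card := by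
      obtain ⟨x, hx⟩ := hinter'
      rw [mem_inter] at hx
      exact card_pos.2 ⟨x, mem_inter.2 ⟨hx.2, mem_U.2 ⟨g, hg, hx.1⟩⟩⟩
    omega
  have hlt : (insert l S).card < e := by
    rcases Nat.lt_or_ge (insert l S).card e with h | h
    · exact h
    · have := hF (insert l S) hins (by omega)
      omega
  have hgrow := (grow hH hF hins hlt (d := 3) (by omega) le_rfl).1
  have hAcl : A ⊆ cl H (insert l S) := by
    refine hA.trans (cl_mono ?_ hins)
    intro x hx
    simp only [mem_insert, mem_singleton] at hx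
    rcases hx with rfl | rfl
    · exact mem_insert_of_mem hg
    · exact mem_insert_self _ _
  have hScl : S ⊆ cl H (insert l S) := (subset_insert _ _).trans (subset_cl hins)
  have hSA : (S ∪ A).card < e := lt_of_le_of_lt (card_le_card (union_subset hScl hAcl)) hgrow
  have h1 := card_union_add_card_inter S A
  have h2 := card_union_add_card_inter (U S) (U A)
  have h3 : (U (S ∩ A)).card ≤ (U S ∩ U A).card := by
    apply card_le_card
    exact subset_inter (U_mono inter_subset_left) (U_mono inter_subset_right)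
  have h4 := hsub (S ∩ A) inter_subset_right ⟨g, mem_inter.2 ⟨hg, hgA⟩⟩
  have h5 : (U (S ∪ A)).card ≤ (S ∪ A).card + 2 := by
    rw [U_union]
    omega
  have h6 := hmax (S ∪ A) (union_subset hS (hA.trans (cl_sub _ _))) (mem_union_left _ hg) hSA h5
  have h7 : S = S ∪ A := eq_of_subset_of_card_le subset_union_left h6
  apply hl
  rw [h7]
  exact mem_union_right _ hlA

open scoped Classical in
/-- **ONE.** -/
theorem nonNB_card (hH : Lin H) (hF : Free H e) (he : 3 ≤ e) :
    ((Ch H).filter (fun v => ¬ NB H v)).card ≤ e * H.card := by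
  apply card_le_mul_card_image_of_maps_to (f := Prod.fst)
  · intro v hv
    exact (mem_Ch.1 (mem_filter.1 hv).1).1
  · intro g hg
    let F := H.powerset.filter (fun T => g ∈ T ∧ T.card < e ∧ (U T).card ≤ T.card + 2)
    have hF0 : F.Nonempty := by
      refine ⟨{g}, ?_⟩
      simp only [F, mem_filter, mem_powerset, mem_singleton, singleton_subset_iff,
        card_singleton, U_singleton, true_and]
      refine ⟨hg, by omega, ?_⟩
      rw [hH.three g hg]
    obtain ⟨S, hSF, hSmax⟩ := exists_max_image F Finset.card hF0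
    simp only [F, mem_filter, mem_powerset] at hSF
    obtain ⟨hSH, hgS, hSe, hSd⟩ := hSF
    have hmax : ∀ T ⊆ H, g ∈ T → T.card < e → (U T).card ≤ T.card + 2 → T.card ≤ S.card := by
      intro T h1 h2 h3 h4
      apply hSmax
      simp only [F, mem_filter, mem_powerset]
      exact ⟨h1, h2, h3, h4⟩
    refine le_trans ?_ hSe.le
    apply card_le_card_of_injOn Prod.snd
    · intro v hv
      simp only [coe_filter, mem_filter, Set.mem_setOf_eq] at hv
      obtain ⟨⟨hv1, hv2⟩, rfl⟩ := hv
      exact one_mem hH hF he hSH hgS hSe hSd hmax hv1 hv2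
    · intro v hv w hw hvw
      simp only [coe_filter, mem_filter, Set.mem_setOf_eq] at hv hw
      exact Prod.ext (hv.2.trans hw.2.symm) hvw

end Pool.Agent.BR2
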