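import Pool.Agent.BR2.PAY1

/-! # Project BR2, module PAY2 -/

set_option autoImplicit false

namespace Pool.Agent.BR2

open Finset

variable {α : Type*} [DecidableEq α] {H S T M A : Finset (Finset α)} {e : ℕ}

theorem PAY2_pt (hH : Lin H) {v : Finset α × Finset α} (hv : v ∈ Ch H)
    (h2 : 2 < (disc H v).card) {h : Finset α} (hh : h ∈ Ln (disc H v)) {x : α} (hx : x ∈ h)
    (hx1 : deg (Ln (disc H v)) x = 1) :
    (∀ y ∈ h, y ≠ x → ∃ h', (h, h') ∈ disc H v ∧ y ∈ h') ∧
      (∀ y ∈ h, deg (Ln (disc H v)) y = 1 → y = x) := by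
  obtain ⟨a, b, hab, ha, hb, da, db, ⟨h1, k1, k2⟩, ⟨h3, k3, k4⟩⟩ := disc_deg_two hH hv h2 hh
  have hc : h.card = 3 := hH.three h (PEND_sub (disc_TAc H v) hh)
  have hax : a ≠ x := by
    rintro rfl
    omega
  have hbx : b ≠ x := by
    rintro rfl
    omega
  obtain ⟨z, hz, hza, hzb⟩ := third hc ha hb hab
  have hxz : x = z := by
    rw [hz] at hx
    simp only [mem_insert, mem_singleton] at hx
    rcases hx with h | h | h
    · exact absurd h.symm hax
    · exact absurd h.symm hbx
    · exact h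
  subst hxz
  constructor
  · intro y hy hyx
    rw [hz] at hy
    simp only [mem_insert, mem_singleton] at hy
    rcases hy with rfl | rfl | rfl
    · exact ⟨h1, k1, k2⟩
    · exact ⟨h3, k3, k4⟩
    · exact absurd rfl hyx
  · intro y hy hyd
    rw [hz] at hy
    simp only [mem_insert, mem_singleton] at hy
    rcases hy with rfl | rfl | rfl
    · omega
    · omega
    · rfl

theorem PAY2_deg {n : ℕ} {H : Finset (Finset (Fin n))} (hH : Lin H) (y : Fin n) :
    2 * deg H y ≤ n - 1 := by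
  have h1 : ((H.filter (fun l => y ∈ l)).biUnion (fun l => l.erase y)).card = deg H y * 2 := by
    rw [card_biUnion]
    · unfold deg
      rw [card_eq_sum_ones, sum_mul]
      apply sum_congr rfl
      intro l hl
      rw [mem_filter] at hl
      rw [card_erase_of_mem hl.2, hH.three l hl.1]
      norm_num
    · intro l hl k hk hlk
      rw [mem_coe, mem_filter] at hl hk
      change Disjoint (l.erase y) (k.erase y)
      rw [disjoint_left]
      intro z hz1 hz2
      rw [mem_erase] at hz1 hz2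
      exact hlk (hH.eq_of_two hl.1 hk.1 hz1.1 hz1.2 hl.2 hz2.2 hk.2)
  have h2 : (H.filter (fun l => y ∈ l)).biUnion (fun l => l.erase y) ⊆ univ.erase y := by
    intro z hz
    rw [mem_biUnion] at hz
    obtain ⟨l, _, hz⟩ := hz
    rw [mem_erase] at hz ⊢
    exact ⟨hz.1, mem_univ _⟩
  have h3 := card_le_card h2
  rw [card_erase_of_mem (mem_univ y), card_univ, Fintype.card_fin, h1] at h3
  omega

open scoped Classical in
/-- **PAY2.** -/
theorem pay2 {n : ℕ} {H : Finset (Finset (Fin n))} (hH : Lin H)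
    (F : Finset (Finset (Finset (Fin n) × Finset (Fin n))))
    (hDisc : ∀ X ∈ F, ∃ v ∈ Ch H, X = disc H v ∧ 2 < X.card) :
    4 * ∑ X ∈ F, (((pend X).filter (fun x => ¬ costly H X x)).card : ℤ) ≤
      ∑ x ∈ univ.filter (fun x : Fin n => 6 * deg H x ≤ n - 1),
        ((n : ℤ) - 1 - 4 * (deg H x : ℤ)) ^ 2 := by
  set P : Finset ((_ : Finset (Finset (Fin n) × Finset (Fin n))) × Fin n) :=
    F.sigma (fun X => (pend X).filter (fun x => ¬ costly H X x)) with hP
  have hPc : ∑ X ∈ F, (((pend X).filter (fun x => ¬ costly H X x)).card : ℤ) = (P.card : ℤ) := by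
    rw [hP, card_sigma]
    push_cast
    rfl
  -- facts about the elements of P
  have hPf : ∀ q ∈ P, ∃ v ∈ Ch H, q.1 = disc H v ∧ 2 < (disc H v).card ∧
      deg (Ln (disc H v)) q.2 = 1 ∧ ∃ h ∈ Ln (disc H v), q.2 ∈ h := by
    intro q hq
    rw [hP, mem_sigma, mem_filter] at hq
    obtain ⟨v, hv, hX, h2⟩ := hDisc _ hq.1
    have hp := hq.2.1
    unfold pend at hp
    rw [mem_filter, mem_U] at hp
    rw [hX] at h2 hp
    exact ⟨v, hv, hX, h2, hp.2, hp.1⟩
  -- the two kinds
  set PA := P.filter (fun q => ∃ h ∈ Ln q.1, q.2 ∈ h ∧ ∃ y ∈ h, y ≠ q.2 ∧ 6 * deg H y ≤ n - 1)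
    with hPA
  set PB := P.filter (fun q => 10 * deg H q.2 ≤ n - 1) with hPB
  have hsub : P ⊆ PA ∪ PB := by
    intro q hq
    have hq' := hq
    rw [hP, mem_sigma, mem_filter] at hq'
    have hc := hq'.2.2
    unfold costly at hc
    rw [mem_union, hPA, hPB, mem_filter, mem_filter]
    by_contra hcon
    push Not at hcon
    apply hc
    refine ⟨hcon.2 hq, fun h hh hxh y hy hyx => hcon.1 hq h hh hxh y hy hyx⟩
  -- kind A
  set TA1 : Finset ((_ : Fin n) × (Finset (Fin n) × Finset (Fin n))) :=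
    (univ.filter (fun y : Fin n => 6 * deg H y ≤ n - 1)).sigma
      (fun y => (H.filter (fun l => y ∈ l)).offDiag) with hTA
  have hA : PA.card ≤ TA1.card := by
    apply card_le_card_of_forall_subsingleton (fun q t => t.2 ∈ q.1 ∧ q.2 ∈ t.2.1)
    · intro q hq
      rw [hPA, mem_filter] at hq
      obtain ⟨hqP, h, hh, hxh, y, hy, hyx, hyd⟩ := hq
      obtain ⟨v, hv, hX, h2, hd, _⟩ := hPf q hqP
      rw [hX] at hh
      obtain ⟨h', k1, k2⟩ := (PAY2_pt hH hv h2 hh hxh hd).1 y hy hyx
      refine ⟨⟨y, (h, h')⟩, ?_, ?_, hxh⟩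
      · rw [hTA, mem_sigma, mem_filter, mem_offDiag, mem_filter, mem_filter]
        have := mem_Ch.1 ((disc_TAc H v).1 k1)
        exact ⟨⟨mem_univ _, hyd⟩, ⟨this.1, hy⟩, ⟨this.2.1, k2⟩, this.2.2.1⟩
      · rw [hX]
        exact k1
    · intro t ht q hq q' hq'
      simp only [Set.mem_ofPred_eq] at hq hq'
      obtain ⟨hq0, hq1, hq2⟩ := hq
      obtain ⟨hq0', hq1', hq2'⟩ := hq'
      rw [hPA, mem_filter] at hq0 hq0'
      obtain ⟨v, hv, hX, h2, hd, _⟩ := hPf q hq0.1
      obtain ⟨v', hv', hX', h2', hd', _⟩ := hPf q' hq0'.1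
      have e : q.1 = q'.1 := by
        rw [hX] at hq1
        rw [hX'] at hq1'
        rw [hX, hX', ← disc_eq hq1, ← disc_eq hq1']
      have hL : t.2.1 ∈ Ln (disc H v) := by
        rw [hX] at hq1
        exact PEND_mem1 (l := t.2.2) hq1
      have e2 : q'.2 = q.2 := by
        apply (PAY2_pt hH hv h2 hL hq2 hd).2 _ hq2'
        rw [← hX, e, hX']
        exact hd'
      cases q
      cases q'
      simp only at e e2
      subst e
      subst e2
      rfl
  -- kind B
  have hyy : ∀ (x : Fin n) (h : Finset (Fin n)), ∃ y : Fin n, h ∈ H → x ∈ h → y ∈ h ∧ y ≠ x := by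
    intro x h
    by_cases hh : h ∈ H ∧ x ∈ h
    · have hc := hH.three h hh.1
      obtain ⟨y, hy, hyx⟩ := exists_mem_ne (s := h) (by omega) x
      exact ⟨y, fun _ _ => ⟨hy, hyx⟩⟩
    · exact ⟨x, fun h1 h2 => absurd ⟨h1, h2⟩ hh⟩
  choose yy hyy using hyy
  set TB1 : Finset ((_ : Fin n) × ((_ : Finset (Fin n)) × Finset (Fin n))) :=
    (univ.filter (fun x : Fin n => 10 * deg H x ≤ n - 1)).sigma
      (fun x => (H.filter (fun l => x ∈ l)).sigma (fun h => H.filter (fun l => yy x h ∈ l)))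
    with hTB
  have hB : PB.card ≤ TB1.card := by
    apply card_le_card_of_forall_subsingleton (fun q t => (t.2.1, t.2.2) ∈ q.1 ∧ q.2 = t.1)
    · intro q hq
      rw [hPB, mem_filter] at hq
      obtain ⟨hqP, hxd⟩ := hq
      obtain ⟨v, hv, hX, h2, hd, h, hh, hxh⟩ := hPf q hqP
      have hhH : h ∈ H := PEND_sub (disc_TAc H v) hh
      obtain ⟨k3, k4⟩ := hyy q.2 h hhH hxh
      obtain ⟨h', k1, k2⟩ := (PAY2_pt hH hv h2 hh hxh hd).1 (yy q.2 h) k3 k4
      refine ⟨⟨q.2, ⟨h, h'⟩⟩, ?_, ?_, rfl⟩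
      · rw [hTB, mem_sigma, mem_filter, mem_sigma, mem_filter, mem_filter]
        have := mem_Ch.1 ((disc_TAc H v).1 k1)
        exact ⟨⟨mem_univ _, hxd⟩, ⟨hhH, hxh⟩, this.2.1, k2⟩
      · rw [hX]
        exact k1
    · intro t ht q hq q' hq'
      simp only [Set.mem_ofPred_eq] at hq hq'
      obtain ⟨hq0, hq1, hq2⟩ := hq
      obtain ⟨hq0', hq1', hq2'⟩ := hq'
      rw [hPB, mem_filter] at hq0 hq0'
      obtain ⟨v, hv, hX, h2, hd, _⟩ := hPf q hq0.1
      obtain ⟨v', hv', hX', h2', hd', _⟩ := hPf q' hq0'.1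
      have e : q.1 = q'.1 := by
        rw [hX] at hq1
        rw [hX'] at hq1'
        rw [hX, hX', ← disc_eq hq1, ← disc_eq hq1']
      have e2 : q'.2 = q.2 := hq2'.trans hq2.symm
      cases q
      cases q'
      simp only at e e2
      subst e
      subst e2
      rfl
  -- the numbers
  have hAc : (4 * TA1.card : ℤ) = ∑ y ∈ univ.filter (fun y : Fin n => 6 * deg H y ≤ n - 1),
      4 * ((deg H y : ℤ) * deg H y - deg H y) := by
    rw [hTA, card_sigma]
    push_cast
    rw [mul_sum]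
    apply sum_congr rfl
    intro y _
    rw [offDiag_card]
    have h1 : deg H y = (H.filter (fun l => y ∈ l)).card := rfl
    rw [← h1, Nat.cast_sub (Nat.le_mul_self _)]
    push_cast
    ring
  have hBc : (4 * TB1.card : ℤ) ≤ ∑ x ∈ univ.filter (fun x : Fin n => 10 * deg H x ≤ n - 1),
      2 * ((deg H x : ℤ) * (n - 1)) := by
    rw [hTB, card_sigma]
    push_cast
    rw [mul_sum]
    apply sum_le_sum
    intro x hx
    rw [card_sigma]
    have h1 : ∑ h ∈ H.filter (fun l => x ∈ l), (H.filter (fun l => yy x h ∈ l)).card * 2 ≤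
        ∑ h ∈ H.filter (fun l => x ∈ l), (n - 1) := by
      apply sum_le_sum
      intro h _
      have := PAY2_deg hH (yy x h)
      unfold deg at this
      omega
    rw [← sum_mul, sum_const, smul_eq_mul] at h1
    have h2 : deg H x = (H.filter (fun l => x ∈ l)).card := rfl
    rw [← h2] at h1
    have hn : 1 ≤ n := by
      have := x.2
      omega
    have h3 : ((n - 1 : ℕ) : ℤ) = (n : ℤ) - 1 := by
      push_cast [hn]
      ring
    rw [← h3]
    have h4 : (((∑ h ∈ H.filter (fun l => x ∈ l), (H.filter (fun l => yy x h ∈ l)).card) * 2 : ℕ) :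
        ℤ) ≤ ((deg H x * (n - 1) : ℕ) : ℤ) := by
      exact_mod_cast h1
    push_cast at h4 ⊢
    linarith
  have hBs : ∑ x ∈ univ.filter (fun x : Fin n => 10 * deg H x ≤ n - 1),
      2 * ((deg H x : ℤ) * (n - 1)) =
      ∑ x ∈ univ.filter (fun x : Fin n => 6 * deg H x ≤ n - 1),
        (if 10 * deg H x ≤ n - 1 then 2 * ((deg H x : ℤ) * (n - 1)) else 0) := by
    rw [← sum_filter, filter_filter]
    apply sum_congr _ (fun _ _ => rfl)
    ext x
    simp only [mem_filter, mem_univ, true_and]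
    constructor
    · intro h
      exact ⟨by omega, h⟩
    · intro h
      exact h.2
  have hcard : P.card ≤ TA1.card + TB1.card :=
    (card_le_card hsub).trans ((card_union_le _ _).trans (add_le_add hA hB))
  have hcard' : (P.card : ℤ) ≤ TA1.card + TB1.card := by exact_mod_cast hcard
  rw [hPc]
  calc (4 * P.card : ℤ) ≤ 4 * TA1.card + 4 * TB1.card := by linarith
    _ ≤ ∑ y ∈ univ.filter (fun y : Fin n => 6 * deg H y ≤ n - 1),
          4 * ((deg H y : ℤ) * deg H y - deg H y) +
        ∑ x ∈ univ.filter (fun x : Fin n => 6 * deg H x ≤ n - 1),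
          (if 10 * deg H x ≤ n - 1 then 2 * ((deg H x : ℤ) * (n - 1)) else 0) := by
        rw [hAc, ← hBs]
        linarith
    _ ≤ _ := by
        rw [← sum_add_distrib]
        apply sum_le_sum
        intro x hx
        rw [mem_filter] at hx
        have hn : 1 ≤ n := by
          have := x.2
          omega
        have h3 : ((n - 1 : ℕ) : ℤ) = (n : ℤ) - 1 := by
          push_cast [hn]
          ring
        have h6 : 6 * (deg H x : ℤ) ≤ n - 1 := by
          rw [← h3]
          exact_mod_cast hx.2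
        have hd0 : (0 : ℤ) ≤ deg H x := Int.natCast_nonneg _
        split_ifs with h10
        · have h10' : 10 * (deg H x : ℤ) ≤ n - 1 := by
            rw [← h3]
            exact_mod_cast h10
          nlinarith
        · nlinarith

end Pool.Agent.BR2
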