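import Pool.Agent.BR2.CLS
import Pool.Agent.BR2.PAY2
import Pool.Agent.BR2.ONE

/-! # Project BR2, module COL -/

set_option autoImplicit false

namespace Pool.Agent.BR2

open Finset

variable {α : Type*} [DecidableEq α] {H S T M A : Finset (Finset α)} {e : ℕ}

/-- At most four triangles contain a cherry. -/
theorem t_le_four (hH : Lin H) {w : Finset α × Finset α} (hw : w ∈ Ch H) : t H w ≤ 4 := by
  classical
  obtain ⟨h1, h2, h3, h4⟩ := mem_Ch.1 hw
  have hc := inter_card_one hH hw
  have hc1 : (w.1 \ w.2).card = 2 := by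
    have := card_sdiff_add_card_inter w.1 w.2
    rw [hH.three _ h1] at this
    omega
  have hc2 : (w.2 \ w.1).card = 2 := by
    have := card_sdiff_add_card_inter w.2 w.1
    rw [hH.three _ h2, inter_comm] at this
    omega
  have hex : ∀ k, Tri H w.1 w.2 k → ∃ q : α × α, q.1 ∈ w.1 \ w.2 ∧ q.2 ∈ w.2 \ w.1 ∧
      q.1 ∈ k ∧ q.2 ∈ k := by
    rintro k ⟨-, -, -, -, ⟨y, hy⟩, ⟨x, hx⟩, h0⟩
    rw [mem_inter] at hx hy
    have hno : ∀ z, z ∈ w.1 → z ∈ w.2 → z ∈ k → False := by
      intro z z1 z2 z3
      have : z ∈ w.1 ∩ w.2 ∩ k := by simp [z1, z2, z3]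
      rw [h0] at this
      simp at this
    exact ⟨(x, y), mem_sdiff.2 ⟨hx.1, fun h => hno x hx.1 h hx.2⟩,
      mem_sdiff.2 ⟨hy.1, fun h => hno y h hy.1 hy.2⟩, hx.2, hy.2⟩
  unfold t
  rcases (H.filter (fun k => Tri H w.1 w.2 k)).eq_empty_or_nonempty with h0 | ⟨k0, hk0⟩
  · rw [h0]; simp
  obtain ⟨q0, -⟩ := hex k0 (mem_filter.1 hk0).2
  let f : Finset α → α × α := fun k => if h : Tri H w.1 w.2 k then (hex k h).choose else q0
  have hf : ∀ k (h : Tri H w.1 w.2 k), f k = (hex k h).choose := fun k h => by simp [f, h]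
  have := card_le_card_of_injOn (s := H.filter (fun k => Tri H w.1 w.2 k))
    (t := (w.1 \ w.2) ×ˢ (w.2 \ w.1)) f (by
      intro k hk
      have hk' := (mem_filter.1 (mem_coe.1 hk)).2
      rw [hf k hk']
      have := (hex k hk').choose_spec
      exact mem_product.2 ⟨this.1, this.2.1⟩) (by
      intro k hk k' hk' heq
      have h5 := mem_filter.1 (mem_coe.1 hk)
      have h6 := mem_filter.1 (mem_coe.1 hk')
      rw [hf k h5.2, hf k' h6.2] at heq
      have h7 := (hex k h5.2).choose_spec
      have h8 := (hex k' h6.2).choose_spec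
      rw [← heq] at h8
      set q := (hex k h5.2).choose
      have hne : q.1 ≠ q.2 := by
        intro h9
        have h10 := (mem_sdiff.1 h7.1).1
        have h11 := (mem_sdiff.1 h7.2.1).2
        rw [← h9] at h11
        exact h11 h10
      exact hH.eq_of_two h5.1 h6.1 hne h7.2.2.1 h7.2.2.2 h8.2.2.1 h8.2.2.2)
  rw [card_product, hc1, hc2] at this
  exact this

/-- A disc with at most two (ordered) squares. -/
theorem own_small {v : Finset α × Finset α} (h2 : (disc H v).card ≤ 2) :
    own H (disc H v) = 2 * ((disc H v).card : ℤ) := by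
  classical
  have : ∀ w ∈ disc H v, (2 - (t H w : ℤ)) = 2 := by
    intro w hw
    have ht : t H w = 0 := by
      unfold t
      rw [card_eq_zero, filter_eq_empty_iff]
      intro k _ hk
      have h3 := (disc_TAc H v).tri hw hk
      have h4 := (disc_TAc H v).swap hw
      have hsub : ({w, (w.2, w.1), (w.1, k)} : Finset (Finset α × Finset α)) ⊆ disc H v := by
        intro u hu
        simp only [mem_insert, mem_singleton] at hu
        rcases hu with rfl | rfl | rfl <;> assumption
      have h5 := card_le_card hsub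
      rw [card_insert_of_notMem, card_pair] at h5
      · omega
      · intro h6
        exact hk.ne12 (Prod.mk.inj h6).1.symm
      · simp only [mem_insert, mem_singleton, not_or]
        refine ⟨fun h6 => hk.ne12 (Prod.ext_iff.1 h6).1, fun h6 => hk.ne23 (Prod.ext_iff.1 h6).2⟩
    rw [ht]; simp
  unfold own
  rw [sum_congr rfl this, sum_const, nsmul_eq_mul]
  ring

theorem card_Ch_le (S : Finset (Finset α)) : (Ch S).card ≤ S.card ^ 2 := by
  unfold Ch
  refine (card_filter_le _ _).trans ?_
  rw [card_product, sq]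

/-- **COL.** -/
theorem col {n : ℕ} {H : Finset (Finset (Fin n))} (hH : Lin H) (hF : Free H e) (he : 3 ≤ e)
    (hn : 20 * (e + 2) ^ 2 ≤ n) :
    4 * ((Ch H).card : ℤ) ≤ (e : ℤ) ^ 2 * (2 * own H (Ch H) +
      ∑ x ∈ univ.filter (fun x : Fin n => 6 * deg H x ≤ n - 1),
        ((n : ℤ) - 1 - 4 * (deg H x : ℤ)) ^ 2) + 6 * (e : ℤ) ^ 3 * (H.card : ℤ) := by
  classical
  set Z := ∑ x ∈ univ.filter (fun x : Fin n => 6 * deg H x ≤ n - 1),
        ((n : ℤ) - 1 - 4 * (deg H x : ℤ)) ^ 2 with hZ
  set G := (Ch H).filter (fun v => ¬ Bad H e v) with hG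
  set W := (Ch H).filter (fun v => ¬ NB H v) with hW
  set B := (Ch H).filter (fun v => Bad H e v ∧ NB H v) with hB
  have hpart : Ch H = (G ∪ B) ∪ W := by
    ext v
    simp only [hG, hB, hW, mem_union, mem_filter]
    constructor
    · intro hv
      by_cases h1 : Bad H e v
      · by_cases h2 : NB H v
        · exact Or.inl (Or.inr ⟨hv, h1, h2⟩)
        · exact Or.inr ⟨hv, h2⟩
      · exact Or.inl (Or.inl ⟨hv, h1⟩)
    · rintro ((h | h) | h) <;> exact h.1
  have hdis1 : Disjoint G B := by
    rw [disjoint_left]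
    intro v h1 h2
    exact (mem_filter.1 h1).2 (mem_filter.1 h2).2.1
  have hdis2 : Disjoint (G ∪ B) W := by
    rw [disjoint_left]
    intro v h1 h2
    have h3 := mem_filter.1 h2
    rcases mem_union.1 h1 with h1 | h1
    · exact (mem_filter.1 h1).2 (bad_of_not_NB hH hF he h3.1 h3.2)
    · exact h3.2 (mem_filter.1 h1).2.2
  have hcard : (Ch H).card = G.card + B.card + W.card := by
    conv_lhs => rw [hpart]
    rw [card_union_of_disjoint hdis2, card_union_of_disjoint hdis1]
  have hown : own H (Ch H) = own H G + own H B + own H W := by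
    unfold own
    conv_lhs => rw [hpart]
    rw [sum_union hdis2, sum_union hdis1]
  -- the nonbad classes
  have hGpos : 4 * (G.card : ℤ) ≤ (e : ℤ) ^ 2 * own H G := by
    have hmaps : ∀ w ∈ G, cls H w ∈ G.image (cls H) := fun w hw => mem_image_of_mem _ hw
    have hsub : ∀ u ∈ G, cls H u ⊆ G := by
      intro u hu w hw
      have hu' := mem_filter.1 hu
      refine mem_filter.2 ⟨cls_sub _ _ hw, ?_⟩
      have h := (mem_cls.1 hw).2
      clear hw
      induction h with
      | refl => exact hu'.2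
      | tail _ h2 ih => rwa [← bad_KR hH hF h2]
    have hfib : ∀ u ∈ G, G.filter (fun w => cls H w = cls H u) = cls H u := by
      intro u hu
      have hu' := mem_filter.1 hu
      ext w
      rw [mem_filter]
      constructor
      · rintro ⟨h1, h2⟩
        rw [← h2]
        exact mem_cls_self (mem_filter.1 h1).1
      · intro hw
        refine ⟨hsub u hu hw, ?_⟩
        have h1 := (mem_cls.1 hw).2
        have h2 := rtg_symm (fun _ _ h => KR.symm' h) h1
        ext y
        rw [mem_cls, mem_cls]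
        exact ⟨fun h => ⟨h.1, h1.trans h.2⟩, fun h => ⟨h.1, h2.trans h.2⟩⟩
    have h1 : own H G = ∑ P ∈ G.image (cls H), own H P := by
      unfold own
      rw [← sum_fiberwise_of_maps_to hmaps]
      apply sum_congr rfl
      intro P hP
      obtain ⟨u, hu, rfl⟩ := mem_image.1 hP
      rw [hfib u hu]
    have h2 : (G.card : ℤ) = ∑ P ∈ G.image (cls H), (P.card : ℤ) := by
      rw [card_eq_sum_card_fiberwise hmaps]
      push_cast
      apply sum_congr rfl
      intro P hP
      obtain ⟨u, hu, rfl⟩ := mem_image.1 hP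
      rw [hfib u hu]
    rw [h1, h2, mul_sum, mul_sum]
    apply sum_le_sum
    intro P hP
    obtain ⟨u, hu, rfl⟩ := mem_image.1 hP
    have hu' := mem_filter.1 hu
    obtain ⟨h3, h4⟩ := cls_own hH hF he hu'.1 hu'.2
    have h5 : ((cls H u).card : ℤ) ≤ (e : ℤ) ^ 2 := by exact_mod_cast h4
    nlinarith [sq_nonneg (e : ℤ)]
  -- cherries with dense closure
  have hWcard : W.card ≤ e * H.card := by
    have := nonNB_card hH hF he
    convert this
  have hWown : -2 * (W.card : ℤ) ≤ own H W := by
    unfold own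
    have : ∀ w ∈ W, (-2 : ℤ) ≤ 2 - (t H w : ℤ) := by
      intro w hw
      have := t_le_four hH (mem_filter.1 hw).1
      omega
    have h2 := sum_le_sum this
    rw [sum_const, nsmul_eq_mul] at h2
    linarith
  -- the bad discs
  have hBTA : TAc H B := by
    refine ⟨filter_subset _ _, ?_⟩
    intro u hu w hw
    have hu' := mem_filter.1 hu
    refine mem_filter.2 ⟨hw.right, bad_TA hH hF hw hu'.2.1, ?_⟩
    have : w ∈ disc H u := (disc_TAc H u).2 u (mem_disc_self hu'.1) w hw
    rw [disc_NB hH hu'.1 this]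
    exact hu'.2.2
  have hBpos : 4 * (B.card : ℤ) ≤ 2 * (e : ℤ) ^ 2 * own H B + (e : ℤ) ^ 2 * Z := by
    set D := B.image (disc H) with hD
    set F := D.filter (fun X => 2 < X.card) with hFdef
    have hpay := pay2 hH F (by
      intro X hX
      obtain ⟨h1, h2⟩ := mem_filter.1 hX
      obtain ⟨u, hu, rfl⟩ := mem_image.1 h1
      exact ⟨u, (mem_filter.1 hu).1, rfl, h2⟩)
    have h1 : ∀ X ∈ D, 2 * (X.card : ℤ) ≤ (e : ℤ) ^ 2 * own H X +
        2 * (e : ℤ) ^ 2 * (if 2 < X.card then
          (((pend X).filter (fun x => ¬ costly H X x)).card : ℤ) else 0) := by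
      intro X hX
      obtain ⟨u, hu, rfl⟩ := mem_image.1 hX
      have hu' := mem_filter.1 hu
      split_ifs with h2
      · have h3 := pay1 hH hF he hu'.1 hu'.2.2 hu'.2.1 h2 hn
        have hclc : (cl H {u.1, u.2}).card < e := by
          refine (grow (d := 3) hH hF (pair_sub hu'.1) ?_ ?_ le_rfl).1
          · rw [pair_card hu'.1]; omega
          · rw [pair_card hu'.1, U_pair_card hH hu'.1]
        have h4 := pend_ineq hH (disc_TAc H u) ⟨u, mem_disc_self hu'.1⟩ (by
          intro S hS h5
          exact NB.dprop hH hF he hu'.1 hu'.2.2 S (hS.trans (Ln_disc_sub hH hu'.1)) h5)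
        have h5 : (pend (disc H u)).card =
            ((pend (disc H u)).filter (fun x => costly H (disc H u) x)).card +
            ((pend (disc H u)).filter (fun x => ¬ costly H (disc H u) x)).card :=
          (card_filter_add_card_filter_not _).symm
        have h6 : (disc H u).card ≤ e ^ 2 := by
          refine (card_le_card (disc_sub hH hu'.1)).trans ((card_Ch_le _).trans ?_)
          exact Nat.pow_le_pow_left hclc.le 2
        have h7 : ((disc H u).card : ℤ) ≤ (e : ℤ) ^ 2 := by exact_mod_cast h6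
        set c1 := ((pend (disc H u)).filter (fun x => costly H (disc H u) x)).card
        set c2 := ((pend (disc H u)).filter (fun x => ¬ costly H (disc H u) x)).card
        have h8 : (2 : ℤ) ≤ own H (disc H u) + 2 * (c2 : ℤ) := by
          rw [h5] at h4
          push_cast at h4
          have : (c1 : ℤ) ≤ 5 := by exact_mod_cast h3
          linarith
        nlinarith [sq_nonneg (e : ℤ)]
      · rw [own_small (not_lt.1 h2)]
        have h9 : (1 : ℤ) ≤ (e : ℤ) ^ 2 := by
          have : (3 : ℤ) ≤ e := by exact_mod_cast he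
          nlinarith
        have h10 : (0 : ℤ) ≤ ((disc H u).card : ℤ) := Int.natCast_nonneg _
        nlinarith
    have h2 := sum_le_sum h1
    rw [sum_add_distrib, ← mul_sum, ← mul_sum, ← mul_sum, ← own_discs hBTA, ← sum_filter] at h2
    have h3 : (B.card : ℤ) = ∑ X ∈ D, (X.card : ℤ) := by
      rw [card_discs hBTA]
      push_cast
      rfl
    rw [← h3] at h2
    have h4 : (0 : ℤ) ≤ (e : ℤ) ^ 2 := sq_nonneg _
    have h5 := mul_le_mul_of_nonneg_left hpay h4
    rw [hFdef] at h5
    nlinarith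
  -- conclusion
  have h1 : (W.card : ℤ) ≤ (e : ℤ) * (H.card : ℤ) := by exact_mod_cast hWcard
  have he3 : (3 : ℤ) ≤ e := by exact_mod_cast he
  have h2 : (0 : ℤ) ≤ (H.card : ℤ) := Int.natCast_nonneg _
  have h3 : 4 * (W.card : ℤ) ≤ 2 * (e : ℤ) ^ 2 * own H W + 6 * (e : ℤ) ^ 3 * (H.card : ℤ) := by
    have h4 : 2 * (e : ℤ) ^ 2 * (-2 * (W.card : ℤ)) ≤ 2 * (e : ℤ) ^ 2 * own H W :=
      mul_le_mul_of_nonneg_left hWown (by positivity)
    have h5 : (4 + 4 * (e : ℤ) ^ 2) * (W.card : ℤ) ≤
        (4 + 4 * (e : ℤ) ^ 2) * ((e : ℤ) * (H.card : ℤ)) :=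
      mul_le_mul_of_nonneg_left h1 (by positivity)
    have h6 : (4 + 4 * (e : ℤ) ^ 2) * (e : ℤ) ≤ 6 * (e : ℤ) ^ 3 := by nlinarith
    have h7 := mul_le_mul_of_nonneg_right h6 h2
    nlinarith
  rw [hcard, hown]
  push_cast
  have h4 : (0 : ℤ) ≤ (G.card : ℤ) := Int.natCast_nonneg _
  nlinarith
end Pool.Agent.BR2
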