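import Pool.Agent.BR2.Base

/-! # Project BR2, module DEG -/

set_option autoImplicit false

namespace Pool.Agent.BR2

open Finset

variable {α : Type*} [DecidableEq α] {H S T M A : Finset (Finset α)} {e : ℕ}

/-- the new points of a set of lines -/
private def nV (S F : Finset (Finset α)) : Finset α := U F \ U S

private theorem nV_insert {S F : Finset (Finset α)} {h : Finset α} :
    nV S (insert h F) = (h \ U S) ∪ nV S F := by
  unfold nV
  rw [U_insert, union_sdiff_distrib]

private theorem nV_union {S F G : Finset (Finset α)} :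
    nV S (F ∪ G) = nV S F ∪ nV S G := by
  unfold nV
  rw [U_union, union_sdiff_distrib]

private theorem deg_grow (hH : Lin H) {S F : Finset (Finset α)} (hFH : F ⊆ H)
    (hF1 : ∀ h ∈ F, (h ∩ U S).card = 1) (hFV : (nV S F).card ≤ F.card)
    (hmin : ∀ G ⊆ F, G.Nonempty → G ≠ F → G.card < (nV S G).card) :
    ∀ j : ℕ, 1 ≤ j → j ≤ F.card → ∃ G ⊆ F, G.card = j ∧ (nV S G).card ≤ j + 1 := by
  have h2 : ∀ h ∈ F, (h \ U S).card = 2 := by
    intro h hh
    have := card_sdiff_add_card_inter h (U S)
    rw [hF1 h hh, hH.three h (hFH hh)] at this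
    omega
  intro j hj
  induction j, hj using Nat.le_induction with
  | base =>
    intro hc
    obtain ⟨h, hh⟩ := card_pos.1 hc
    refine ⟨{h}, by simpa using hh, by simp, ?_⟩
    have : nV S {h} = h \ U S := by simp [nV]
    rw [this, h2 h hh]
  | succ j hj ih =>
    intro hc
    obtain ⟨G, hGF, hGc, hGV⟩ := ih (by omega)
    have hGne : G.Nonempty := card_pos.1 (by omega)
    have hGF' : G ≠ F := by rintro rfl; omega
    have h1 := hmin G hGF hGne hGF'
    have hR : (F \ G).card = F.card - G.card := card_sdiff_of_subset hGF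
    have hRne : (F \ G).Nonempty := card_pos.1 (by omega)
    have hRF : F \ G ≠ F := by
      intro h
      rw [h] at hR
      omega
    have h3 := hmin (F \ G) sdiff_subset hRne hRF
    have h4 : nV S F = nV S G ∪ nV S (F \ G) := by
      rw [← nV_union, union_sdiff_of_subset hGF]
    have h5 := card_union_add_card_inter (nV S G) (nV S (F \ G))
    rw [← h4] at h5
    have h6 : 0 < (nV S G ∩ nV S (F \ G)).card := by omega
    obtain ⟨x, hx⟩ := card_pos.1 h6
    rw [mem_inter] at hx
    obtain ⟨hx1, hx2⟩ := hx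
    unfold nV at hx2
    rw [mem_sdiff, mem_U] at hx2
    obtain ⟨⟨h, hh, hxh⟩, hxS⟩ := hx2
    rw [mem_sdiff] at hh
    refine ⟨insert h G, insert_subset hh.1 hGF, by rw [card_insert_of_notMem hh.2, hGc], ?_⟩
    rw [nV_insert]
    have h7 := card_union_add_card_inter (h \ U S) (nV S G)
    have h8 : 0 < ((h \ U S) ∩ nV S G).card :=
      card_pos.2 ⟨x, mem_inter.2 ⟨mem_sdiff.2 ⟨hxh, hxS⟩, hx1⟩⟩
    rw [h2 h hh.1] at h7
    omega

/-- **DEG.** -/
theorem deg_sum {n : ℕ} {H A : Finset (Finset (Fin n))} (hH : Lin H) (hF : Free H e)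
    (hA : A ⊆ H) (hA0 : A.Nonempty) (hAe : A.card < e) (hAd : (U A).card ≤ A.card + 2) :
    ∑ y ∈ U A, deg H y ≤ n + 3 * (e + 2) ^ 2 := by
  classical
  let Fm := H.powerset.filter (fun T => A ⊆ T ∧ T.card < e ∧ (U T).card ≤ T.card + 2)
  have hF0 : Fm.Nonempty := ⟨A, by simp [Fm, hA, hAe, hAd]⟩
  obtain ⟨S, hSF, hSmax⟩ := exists_max_image Fm Finset.card hF0
  simp only [Fm, mem_filter, mem_powerset] at hSF
  obtain ⟨hSH, hAS, hSe, hSd⟩ := hSF
  let E1 := H.filter (fun h => (h ∩ U S).card = 1)
  have hSdisj : ∀ h ∈ E1, h ∉ S := by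
    intro h hh hS
    have h1 := (mem_filter.1 hh).2
    rw [inter_eq_left.2 (subset_U hS), hH.three h (hSH hS)] at h1
    omega
  -- the claim
  have claim : ∀ m : ℕ, ∀ F ⊆ E1, F.Nonempty → F.card = m → F.card < (nV S F).card := by
    intro m
    induction m using Nat.strong_induction_on with
    | _ m ih =>
      intro F hFE hFne hFm
      by_contra hcon
      push Not at hcon
      have hFH : F ⊆ H := hFE.trans (filter_subset _ _)
      have key := deg_grow hH hFH (fun h hh => (mem_filter.1 (hFE hh)).2) hcon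
        (fun G hG hGne hGF => ih G.card (by
          rw [← hFm]
          exact card_lt_card (hG.ssubset_of_ne hGF)) G (hG.trans hFE) hGne rfl)
      have hd : ∀ G ⊆ F, (S ∪ G).card = S.card + G.card := by
        intro G hG
        refine card_union_of_disjoint (disjoint_right.2 fun h hh => hSdisj h (hFE (hG hh)))
      have hUc : ∀ G : Finset (Finset (Fin n)), (U (S ∪ G)).card = (U S).card + (nV S G).card := by
        intro G
        rw [U_union]
        unfold nV
        rw [← card_union_of_disjoint disjoint_sdiff, union_sdiff_self_eq_union]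
      by_cases hlt : S.card + F.card < e
      · have hmem : S ∪ F ∈ Fm := by
          simp only [Fm, mem_filter, mem_powerset]
          refine ⟨union_subset hSH hFH, hAS.trans subset_union_left, ?_, ?_⟩
          · rw [hd F Subset.rfl]; exact hlt
          · rw [hUc, hd F Subset.rfl]; omega
        have h1 := hSmax _ hmem
        rw [hd F Subset.rfl] at h1
        have := hFne.card_pos
        omega
      · obtain ⟨G, hGF, hGc, hGV⟩ := key (e - S.card) (by omega) (by omega)
        have h1 := hF (S ∪ G) (union_subset hSH (hGF.trans hFH)) (by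
          rw [hd G hGF, hGc]; omega)
        rw [hUc] at h1
        omega
  have hE1 : E1.card ≤ n := by
    rcases E1.eq_empty_or_nonempty with h0 | h0
    · rw [h0]; simp
    · have h1 := claim _ E1 Subset.rfl h0 rfl
      have h2 : (nV S E1).card ≤ n := by
        have := card_le_univ (nV S E1)
        simpa using this
      omega
  -- double counting
  have hsum1 : ∑ y ∈ U A, deg H y ≤ ∑ y ∈ U S, deg H y :=
    sum_le_sum_of_subset (U_mono hAS)
  have hsum2 : ∑ y ∈ U S, deg H y = ∑ h ∈ H, (h ∩ U S).card := by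
    unfold deg
    simp only [card_filter]
    rw [sum_comm]
    refine sum_congr rfl fun h _ => ?_
    rw [← card_filter]
    congr 1
    ext y
    simp only [mem_filter, mem_inter]
    tauto
  let E2 := H.filter (fun h => 2 ≤ (h ∩ U S).card)
  have hE2 : E2.card ≤ (U S).card * (U S).card := by
    have hch : ∀ h ∈ E2, ∃ q : Fin n × Fin n, q.1 ≠ q.2 ∧ q.1 ∈ h ∩ U S ∧ q.2 ∈ h ∩ U S := by
      intro h hh
      obtain ⟨x, hx, y, hy, hxy⟩ := one_lt_card.1 (mem_filter.1 hh).2
      exact ⟨(x, y), hxy, hx, hy⟩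
    haveI : Nonempty (Fin n × Fin n) := by
      obtain ⟨l, hl⟩ := hA0
      have : 0 < l.card := by rw [hH.three l (hA hl)]; omega
      obtain ⟨x, hx⟩ := card_pos.1 this
      exact ⟨(x, x)⟩
    choose! q hq using hch
    rw [← card_product]
    refine card_le_card_of_injOn q ?_ ?_
    · intro h hh
      obtain ⟨h1, h2, h3⟩ := hq h hh
      exact mem_product.2 ⟨(mem_inter.1 h2).2, (mem_inter.1 h3).2⟩
    · intro h hh h' hh' heq
      obtain ⟨h1, h2, h3⟩ := hq h hh
      obtain ⟨h1', h2', h3'⟩ := hq h' hh'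
      rw [← heq] at h2' h3'
      exact hH.eq_of_two (mem_filter.1 hh).1 (mem_filter.1 hh').1 h1 (mem_inter.1 h2).1
        (mem_inter.1 h3).1 (mem_inter.1 h2').1 (mem_inter.1 h3').1
  have hsum3 : ∑ h ∈ H, (h ∩ U S).card ≤ E1.card + 3 * E2.card := by
    have : ∀ h ∈ H, (h ∩ U S).card ≤ (if (h ∩ U S).card = 1 then 1 else 0) +
        3 * (if 2 ≤ (h ∩ U S).card then 1 else 0) := by
      intro h hh
      have h3 : (h ∩ U S).card ≤ 3 := by
        rw [← hH.three h hh]; exact card_le_card inter_subset_left
      split_ifs <;> omega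
    refine (sum_le_sum this).trans ?_
    rw [sum_add_distrib, ← mul_sum]
    simp only [E1, E2, card_filter]
    exact le_refl _
  have hUS : (U S).card ≤ e + 2 := by omega
  have : (U S).card * (U S).card ≤ (e + 2) ^ 2 := by
    rw [pow_two]; exact Nat.mul_le_mul hUS hUS
  omega

end Pool.Agent.BR2
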