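import Pool.Agent.BR2.Base

/-! # Project BR2, module DPROP -/

set_option autoImplicit false

namespace Pool.Agent.BR2

open Finset

variable {α : Type*} [DecidableEq α] {H S T M A : Finset (Finset α)} {e : ℕ}

/-- **DPROP.** In an ear ordered system every set of at least two lines has at least three more
points than lines. -/
theorem dprop (hM : Lin M) {g l : Finset α} (hE : Ear M g l) :
    ∀ S ⊆ M, 2 ≤ S.card → S.card + 3 ≤ (U S).card := by
  obtain ⟨hg, hl, hne, hgl, idx, hinj, hig, hil, hear⟩ := hE
  intro S
  induction hn : S.card using Nat.strong_induction_on generalizing S with
  | _ n ih =>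
    intro hS h2
    subst hn
    -- the last line of S
    obtain ⟨h, hhS, hmax⟩ := exists_max_image S idx (card_pos.1 (by omega))
    have hhM := hS hhS
    have hsub : S.erase h ⊆ M := (erase_subset _ _).trans hS
    have hcard : (S.erase h).card = S.card - 1 := card_erase_of_mem hhS
    have hU : U S = h ∪ U (S.erase h) := by
      rw [← U_insert, insert_erase hhS]
    have hlt : ∀ k ∈ S.erase h, idx k < idx h := by
      intro k hk
      obtain ⟨hk1, hk2⟩ := mem_erase.1 hk
      have := hmax k hk2
      rcases Nat.lt_or_ge (idx k) (idx h) with h1 | h1
      · exact h1
      · exact absurd (hinj (hS hk2) hhM (le_antisymm this h1)) hk1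
    have hun := card_union_add_card_inter h (U (S.erase h))
    rw [← hU, hM.three h hhM] at hun
    by_cases h3 : S.card = 2
    · -- two lines
      obtain ⟨x, y, hxy, rfl⟩ := card_eq_two.1 h3
      have hx := hS (mem_insert_self x {y})
      have hy := hS (mem_insert_of_mem (mem_singleton_self y) : y ∈ ({x, y} : Finset (Finset α)))
      have h4 := hM.inter x hx y hy hxy
      have h5 := card_union_add_card_inter x y
      rw [hM.three x hx, hM.three y hy] at h5
      rw [U_pair, h3]
      omega
    · have hh2 : 2 ≤ idx h := by
        by_contra hcon
        push Not at hcon
        -- all lines of S have index ≤ 1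
        have : S ⊆ {g, l} := by
          intro k hk
          have h6 := hmax k hk
          have h7 : idx k = 0 ∨ idx k = 1 := by omega
          rcases h7 with h7 | h7
          · have : k = g := hinj (hS hk) hg (by rw [h7, hig])
            simp [this]
          · have : k = l := hinj (hS hk) hl (by rw [h7, hil])
            simp [this]
        have := card_le_card this
        rw [card_pair hne] at this
        omega
      have h6 := hear h hhM hh2
      have h7 : (h ∩ U (S.erase h)).card ≤ 2 := by
        rw [← h6]
        apply card_le_card
        apply inter_subset_inter_left
        apply U_mono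
        intro k hk
        exact mem_filter.2 ⟨hsub hk, hlt k hk⟩
      have h8 := ih (S.erase h).card (by omega) (S.erase h) rfl hsub (by omega)
      omega

end Pool.Agent.BR2
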