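import Mathlib

/-!
# Definitions for the two colour Brown–Erdős–Sós theorem (project BR2)

`H` is a finite set of lines (three-element sets).  `Ch H` is the set of cherries (ordered pairs
of different meeting lines), `Tri H g l k` says that `g, l, k` are three pairwise meeting lines
without a common point.
-/

set_option autoImplicit false

namespace Pool.Agent.BR2

open Finset

variable {α : Type*} [DecidableEq α]

/-- The points covered by a set of lines. -/
def U (S : Finset (Finset α)) : Finset α := S.biUnion id

/-- A linear system of triples. -/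
structure Lin (H : Finset (Finset α)) : Prop where
  three : ∀ l ∈ H, l.card = 3
  inter : ∀ l ∈ H, ∀ k ∈ H, l ≠ k → (l ∩ k).card ≤ 1

/-- No `e` lines lie on `e + 3` points. -/
def Free (H : Finset (Finset α)) (e : ℕ) : Prop :=
  ∀ S ⊆ H, S.card = e → e + 3 < (U S).card

/-- `S` is a closed subset of `H`: a line with two points covered by `S` is in `S`. -/
def Closed (H S : Finset (Finset α)) : Prop :=
  S ⊆ H ∧ ∀ g ∈ H, 2 ≤ (g ∩ U S).card → g ∈ S

open scoped Classical in
/-- The closure of `S` in `H`. -/
noncomputable def cl (H S : Finset (Finset α)) : Finset (Finset α) :=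
  H.filter (fun g => ∀ T, Closed H T → S ⊆ T → g ∈ T)

/-- Three lines of `H` which meet pairwise and have no common point. -/
def Tri (H : Finset (Finset α)) (g l k : Finset α) : Prop :=
  g ∈ H ∧ l ∈ H ∧ k ∈ H ∧ (g ∩ l).Nonempty ∧ (l ∩ k).Nonempty ∧ (g ∩ k).Nonempty ∧
    g ∩ l ∩ k = ∅

/-- Cherries: ordered pairs of different lines which meet. -/
def Ch (H : Finset (Finset α)) : Finset (Finset α × Finset α) :=
  (H ×ˢ H).filter (fun v => v.1 ≠ v.2 ∧ (v.1 ∩ v.2).Nonempty)

open scoped Classical in
/-- The number of triangles through a cherry. -/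
noncomputable def t (H : Finset (Finset α)) (v : Finset α × Finset α) : ℕ :=
  (H.filter (fun k => Tri H v.1 v.2 k)).card

/-- Two cherries of the same triangle (or a cherry and its swap). -/
def TA (H : Finset (Finset α)) (v w : Finset α × Finset α) : Prop :=
  v ∈ Ch H ∧ (w = v.swap ∨ ∃ k, Tri H v.1 v.2 k ∧ w = (v.1, k))

/-- A set of cherries closed under `TA`. -/
def TAc (H : Finset (Finset α)) (X : Finset (Finset α × Finset α)) : Prop :=
  X ⊆ Ch H ∧ ∀ v ∈ X, ∀ w, TA H v w → w ∈ X

open scoped Classical in
/-- The disc of a cherry: its class under the relation generated by `TA`. -/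
noncomputable def disc (H : Finset (Finset α)) (v : Finset α × Finset α) :
    Finset (Finset α × Finset α) :=
  (Ch H).filter (fun w => Relation.ReflTransGen (TA H) v w)

/-- Twice the number (squares) minus three times (triangles), with ordered counting. -/
noncomputable def own (H : Finset (Finset α)) (X : Finset (Finset α × Finset α)) : ℤ :=
  ∑ w ∈ X, (2 - (t H w : ℤ))

/-- The lines of a set of cherries. -/
def Ln (X : Finset (Finset α × Finset α)) : Finset (Finset α) :=
  X.image Prod.fst ∪ X.image Prod.snd

/-- The degree of a point in a set of lines. -/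
def deg (S : Finset (Finset α)) (x : α) : ℕ := (S.filter (fun l => x ∈ l)).card

/-- The pendant points of a set of cherries. -/
def pend (X : Finset (Finset α × Finset α)) : Finset α :=
  (U (Ln X)).filter (fun x => deg (Ln X) x = 1)

/-- The flags `(g, x)` of a set of cherries: `x ∈ l \ g` for some `(g, l) ∈ X`. -/
def Fl (X : Finset (Finset α × Finset α)) : Finset (Finset α × α) :=
  X.biUnion (fun v => (v.2 \ v.1).image (fun x => (v.1, x)))

/-- The number of cherries of `X` over a flag. -/
def kf (X : Finset (Finset α × Finset α)) (f : Finset α × α) : ℕ :=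
  (X.filter (fun v => v.1 = f.1 ∧ f.2 ∈ v.2)).card

/-- The number of flags with `kf = i`. -/
def nf (X : Finset (Finset α × Finset α)) (i : ℕ) : ℕ :=
  ((Fl X).filter (fun f => kf X f = i)).card

open scoped Classical in
/-- The ordered triangles `((g, l), k)` with `(g, l) ∈ X`. -/
noncomputable def Tr (H : Finset (Finset α)) (X : Finset (Finset α × Finset α)) :
    Finset ((Finset α × Finset α) × Finset α) :=
  (X ×ˢ H).filter (fun q => Tri H q.1.1 q.1.2 q.2)

/-- `p` joins the midpoint of `g` to the midpoint of `l` in the triangle `g, l, k`. -/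
def ML (H : Finset (Finset α)) (g l k p : Finset α) : Prop :=
  p ∈ H ∧ (p ∩ (g \ (l ∪ k))).Nonempty ∧ (p ∩ (l \ (g ∪ k))).Nonempty

/-- The triangle `g, l, k` is special, with midlines `p` (of `g` and `l`) and `q` (of `l`
and `k`). -/
def Sp (H : Finset (Finset α)) (g l k p q : Finset α) : Prop :=
  Tri H g l k ∧ ML H g l k p ∧ ML H l k g q ∧ p ≠ q

/-- At least two of the three pairs of midpoints of the triangle `g, l, k` are joined. -/
def isSp (H : Finset (Finset α)) (g l k : Finset α) : Prop :=
  ((∃ p, ML H g l k p) ∧ (∃ p, ML H l k g p)) ∨ ((∃ p, ML H l k g p) ∧ (∃ p, ML H k g l p)) ∨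
    ((∃ p, ML H g l k p) ∧ (∃ p, ML H k g l p))

open scoped Classical in
/-- The number of ordered special triangles of a set of cherries. -/
noncomputable def spn (H : Finset (Finset α)) (X : Finset (Finset α × Finset α)) : ℕ :=
  ((Tr H X).filter (fun q => isSp H q.1.1 q.1.2 q.2)).card

/-- The closure of the cherry has (at least) three more points than lines. -/
def NB (H : Finset (Finset α)) (v : Finset α × Finset α) : Prop :=
  (cl H {v.1, v.2}).card + 3 ≤ (U (cl H {v.1, v.2})).card

/-- The disc of the cherry is in need. -/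
def needy (H : Finset (Finset α)) (v : Finset α × Finset α) : Prop := own H (disc H v) < 4

/-- From a cherry of a special triangle of a needy disc to the cherry of its midlines. -/
def KA (H : Finset (Finset α)) (v w : Finset α × Finset α) : Prop :=
  v ∈ Ch H ∧ NB H v ∧ needy H v ∧ ∃ k, Sp H v.1 v.2 k w.1 w.2

/-- The symmetric relation generated by `TA` and `KA`. -/
def KR (H : Finset (Finset α)) (v w : Finset α × Finset α) : Prop :=
  TA H v w ∨ KA H v w ∨ KA H w v

open scoped Classical in
/-- The class of a cherry. -/
noncomputable def cls (H : Finset (Finset α)) (v : Finset α × Finset α) :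
    Finset (Finset α × Finset α) :=
  (Ch H).filter (fun w => Relation.ReflTransGen (KR H) v w)

/-- The cherry lies in a set of fewer than `e` lines with at most two more points than
lines. -/
def Bad (H : Finset (Finset α)) (e : ℕ) (v : Finset α × Finset α) : Prop :=
  ∃ A ⊆ H, A.card < e ∧ (U A).card ≤ A.card + 2 ∧ v.1 ∈ A ∧ v.2 ∈ A

/-- An ear order of `M` which begins with `g, l`: every later line has exactly two points
on the earlier lines. -/
def Ear (M : Finset (Finset α)) (g l : Finset α) : Prop :=
  g ∈ M ∧ l ∈ M ∧ g ≠ l ∧ (g ∩ l).Nonempty ∧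
  ∃ idx : Finset α → ℕ, Set.InjOn idx M ∧ idx g = 0 ∧ idx l = 1 ∧
    ∀ h ∈ M, 2 ≤ idx h → (h ∩ U (M.filter (fun k => idx k < idx h))).card = 2

/-- `Q` is connected under the symmetrisation of `R`. -/
def Conn {β : Type*} (R : β → β → Prop) (Q : Finset β) : Prop :=
  ∀ x ∈ Q, ∀ y ∈ Q, Relation.ReflTransGen (fun a b => a ∈ Q ∧ b ∈ Q ∧ (R a b ∨ R b a)) x y

end Pool.Agent.BR2
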