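import Pool.Agent.BR2.DPROP

/-! # Project BR2, module EAR -/

set_option autoImplicit false

namespace Pool.Agent.BR2

open Finset

variable {α : Type*} [DecidableEq α] {H S T M A : Finset (Finset α)} {e : ℕ}

private theorem ear_pair {g l : Finset α} (hgl : g ≠ l) (hne : (g ∩ l).Nonempty) :
    Ear {g, l} g l := by
  refine ⟨by simp, by simp, hgl, hne, fun k => if k = g then 0 else 1, ?_, by simp, ?_, ?_⟩
  · intro a ha b hb hab
    simp only [coe_insert, coe_singleton, Set.mem_insert_iff, Set.mem_singleton_iff] at ha hb
    rcases ha with rfl | rfl <;> rcases hb with rfl | rfl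
    · rfl
    · simp [hgl.symm] at hab
    · simp [hgl.symm] at hab
    · rfl
  · simp [hgl.symm]
  · intro h hh h2
    simp only at h2
    split_ifs at h2 <;> omega

private theorem ear_insert {g l h : Finset α} (hE : Ear T g l) (hT : h ∉ T)
    (h2 : (h ∩ U T).card = 2) : Ear (insert h T) g l := by
  obtain ⟨hg, hl, hgl, hne, idx, hinj, hidg, hidl, hord⟩ := hE
  have hlt : ∀ k ∈ T, idx k < T.sup idx + 1 := fun k hk => by
    have := le_sup (f := idx) hk
    omega
  have hneT : ∀ k ∈ T, k ≠ h := fun k hk hkh => hT (hkh ▸ hk)
  refine ⟨mem_insert_of_mem hg, mem_insert_of_mem hl, hgl, hne,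
    fun k => if k = h then T.sup idx + 1 else idx k, ?_, ?_, ?_, ?_⟩
  · intro a ha b hb hab
    simp only [coe_insert, Set.mem_insert_iff, mem_coe] at ha hb
    simp only at hab
    rcases ha with rfl | ha
    · rcases hb with rfl | hb
      · rfl
      · rw [if_pos rfl, if_neg (hneT b hb)] at hab
        have := hlt b hb
        omega
    · rcases hb with rfl | hb
      · rw [if_pos rfl, if_neg (hneT a ha)] at hab
        have := hlt a ha
        omega
      · rw [if_neg (hneT a ha), if_neg (hneT b hb)] at hab
        exact hinj ha hb hab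
  · simp only
    rw [if_neg (hneT g hg), hidg]
  · simp only
    rw [if_neg (hneT l hl), hidl]
  · intro k hk hk2
    simp only at hk2 ⊢
    rcases mem_insert.1 hk with rfl | hkT
    · have : (insert k T).filter (fun j => (if j = k then T.sup idx + 1 else idx j) <
          (if k = k then T.sup idx + 1 else idx k)) = T := by
        ext j
        simp only [mem_filter, mem_insert, if_true]
        constructor
        · rintro ⟨rfl | hj, hlt'⟩
          · simp at hlt'
          · exact hj
        · intro hj
          refine ⟨Or.inr hj, ?_⟩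
          rw [if_neg (hneT j hj)]
          exact hlt j hj
      rw [this]
      exact h2
    · rw [if_neg (hneT k hkT)] at hk2 ⊢
      have : (insert h T).filter (fun j => (if j = h then T.sup idx + 1 else idx j) < idx k) =
          T.filter (fun j => idx j < idx k) := by
        ext j
        simp only [mem_filter, mem_insert]
        constructor
        · rintro ⟨rfl | hj, hlt'⟩
          · rw [if_pos rfl] at hlt'
            have := hlt k hkT
            omega
          · rw [if_neg (hneT j hj)] at hlt'
            exact ⟨hj, hlt'⟩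
        · rintro ⟨hj, hlt'⟩
          refine ⟨Or.inr hj, ?_⟩
          rw [if_neg (hneT j hj)]
          exact hlt'
      rw [this]
      exact hord k hkT hk2

private theorem ear_card_lt (hH : Lin H) (hF : Free H e) (he : 3 ≤ e)
    {v : Finset α × Finset α} (hv : v ∈ Ch H) : (cl H {v.1, v.2}).card < e := by
  obtain ⟨h1, h2, h3, h4⟩ := mem_Ch.1 hv
  have hsub : ({v.1, v.2} : Finset (Finset α)) ⊆ H := by
    intro x hx
    simp only [mem_insert, mem_singleton] at hx
    rcases hx with rfl | rfl
    · exact h1
    · exact h2
  have hc := pair_card hv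
  have hU := U_pair_card hH hv
  exact (grow hH hF hsub (by omega) (d := 3) (by omega) le_rfl).1

private theorem ear_max (hH : Lin H) {v : Finset α × Finset α} (hv : v ∈ Ch H) :
    ∃ T ⊆ cl H {v.1, v.2}, Ear T v.1 v.2 ∧ (U T).card = T.card + 3 ∧
      (T = cl H {v.1, v.2} ∨ ∃ h ∈ cl H {v.1, v.2}, h ∉ T ∧ h ⊆ U T) := by
  classical
  obtain ⟨h1, h2, h3, h4⟩ := mem_Ch.1 hv
  have hsub : ({v.1, v.2} : Finset (Finset α)) ⊆ H := by
    intro x hx
    simp only [mem_insert, mem_singleton] at hx
    rcases hx with rfl | rfl
    · exact h1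
    · exact h2
  set M := cl H {v.1, v.2} with hM
  have hMcl : Closed H M := cl_closed H _
  let F := M.powerset.filter (fun T => Ear T v.1 v.2 ∧ (U T).card = T.card + 3)
  have hF0 : F.Nonempty := by
    refine ⟨{v.1, v.2}, ?_⟩
    simp only [F, mem_filter, mem_powerset]
    refine ⟨subset_cl hsub, ear_pair h3 h4, ?_⟩
    rw [U_pair_card hH hv, pair_card hv]
  obtain ⟨T, hTF, hTmax⟩ := exists_max_image F Finset.card hF0
  simp only [F, mem_filter, mem_powerset] at hTF
  obtain ⟨hTM, hTE, hTU⟩ := hTF
  refine ⟨T, hTM, hTE, hTU, ?_⟩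
  by_cases hTc : Closed H T
  · left
    refine Subset.antisymm hTM (cl_subset hTc ?_)
    intro x hx
    simp only [mem_insert, mem_singleton] at hx
    rcases hx with rfl | rfl
    · exact hTE.1
    · exact hTE.2.1
  · right
    have hTH : T ⊆ H := hTM.trans hMcl.1
    have : ∃ g ∈ H, 2 ≤ (g ∩ U T).card ∧ g ∉ T := by
      by_contra hcon
      push Not at hcon
      exact hTc ⟨hTH, hcon⟩
    obtain ⟨h, hhH, hh2, hhT⟩ := this
    have hhM : h ∈ M := hMcl.2 h hhH
      (hh2.trans (card_le_card (inter_subset_inter_left (U_mono hTM))))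
    have hle : (h ∩ U T).card ≤ 3 := by
      rw [← hH.three h hhH]
      exact card_le_card inter_subset_left
    refine ⟨h, hhM, hhT, ?_⟩
    by_cases h5 : (h ∩ U T).card = 2
    · exfalso
      have hc : (insert h T).card = T.card + 1 := card_insert_of_notMem hhT
      have hU : (U (insert h T)).card = T.card + 1 + 3 := by
        rw [U_insert]
        have h6 := card_union_add_card_inter h (U T)
        rw [hH.three h hhH] at h6
        omega
      have := hTmax (insert h T) (by
        simp only [F, mem_filter, mem_powerset]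
        refine ⟨insert_subset hhM hTM, ear_insert hTE hhT h5, ?_⟩
        rw [hU, hc])
      omega
    · have h6 : (h ∩ U T).card = 3 := by omega
      have h7 : h ∩ U T = h := eq_of_subset_of_card_le inter_subset_left (by
        rw [hH.three h hhH, h6])
      exact inter_eq_left.1 h7

/-- **EAR.** -/
theorem ear (hH : Lin H) (hF : Free H e) (he : 3 ≤ e) {v : Finset α × Finset α} (hv : v ∈ Ch H)
    (hN : NB H v) : Ear (cl H {v.1, v.2}) v.1 v.2 := by
  obtain ⟨T, hTM, hTE, hTU, hT | ⟨h, hhM, hhT, hhU⟩⟩ := ear_max hH hv
  · rw [← hT]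
    exact hTE
  · exfalso
    have hlt := ear_card_lt hH hF he hv
    have hMH := cl_sub H {v.1, v.2}
    have hAM : insert h T ⊆ cl H {v.1, v.2} := insert_subset hhM hTM
    have hc : (insert h T).card = T.card + 1 := card_insert_of_notMem hhT
    have hU : (U (insert h T)).card = T.card + 3 := by
      rw [U_insert, union_eq_right.2 hhU, hTU]
    have hAe : (insert h T).card < e := (card_le_card hAM).trans_lt hlt
    have hg := grow hH hF (hAM.trans hMH) hAe (d := 2) (by omega) (by norm_num)
    have hpair : ({v.1, v.2} : Finset (Finset α)) ⊆ insert h T := by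
      intro x hx
      simp only [mem_insert, mem_singleton] at hx
      rcases hx with rfl | rfl
      · exact mem_insert_of_mem hTE.1
      · exact mem_insert_of_mem hTE.2.1
    have heq : cl H (insert h T) = cl H {v.1, v.2} :=
      Subset.antisymm (cl_subset (cl_closed H _) hAM) (cl_mono hpair (hAM.trans hMH))
    rw [heq] at hg
    have hN' : (cl H {v.1, v.2}).card + 3 ≤ (U (cl H {v.1, v.2})).card := hN
    omega

/-- **BADEAR.** -/
theorem badear (hH : Lin H) (hF : Free H e) (he : 3 ≤ e) {v : Finset α × Finset α}
    (hv : v ∈ Ch H) (hN : ¬ NB H v) :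
    ∃ A ⊆ cl H {v.1, v.2}, v.1 ∈ A ∧ v.2 ∈ A ∧ A.card < e ∧ (U A).card ≤ A.card + 2 ∧
      ∀ S ⊆ A, S.Nonempty → S.card + 2 ≤ (U S).card := by
  obtain ⟨T, hTM, hTE, hTU, hT | ⟨h, hhM, hhT, hhU⟩⟩ := ear_max hH hv
  · exfalso
    apply hN
    unfold NB
    rw [← hT, hTU]
  · have hlt := ear_card_lt hH hF he hv
    have hMH := cl_sub H {v.1, v.2}
    have hAM : insert h T ⊆ cl H {v.1, v.2} := insert_subset hhM hTM
    have hc : (insert h T).card = T.card + 1 := card_insert_of_notMem hhT
    have hU : (U (insert h T)).card = T.card + 3 := by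
      rw [U_insert, union_eq_right.2 hhU, hTU]
    have hTH : T ⊆ H := hTM.trans hMH
    have hhH : h ∈ H := hMH hhM
    refine ⟨insert h T, hAM, mem_insert_of_mem hTE.1, mem_insert_of_mem hTE.2.1,
      (card_le_card hAM).trans_lt hlt, by omega, ?_⟩
    have hd := dprop (hH.mono hTH) hTE
    intro S hS hSne
    have hSH : S ⊆ H := hS.trans (hAM.trans hMH)
    have hone : ∀ l ∈ H, (U ({l} : Finset (Finset α))).card = 3 := by
      intro l hl
      rw [U_singleton]
      exact hH.three l hl
    by_cases hhS : h ∈ S
    · have hS' : S.erase h ⊆ T := by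
        intro x hx
        rcases mem_insert.1 (hS (mem_of_mem_erase hx)) with rfl | h'
        · exact absurd rfl (ne_of_mem_erase hx)
        · exact h'
      have hc' : (S.erase h).card + 1 = S.card := card_erase_add_one hhS
      have hmono : (U (S.erase h)).card ≤ (U S).card := card_le_card (U_mono (erase_subset _ _))
      rcases lt_trichotomy (S.erase h).card 1 with h0 | h1 | h2
      · have hS1 : S.card = 1 := by omega
        obtain ⟨l, rfl⟩ := card_eq_one.1 hS1
        rw [hone l (hSH (mem_singleton_self l)), hS1]
      · obtain ⟨l, hl⟩ := card_eq_one.1 h1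
        have hlS' : l ∈ S.erase h := by rw [hl]; exact mem_singleton_self l
        have hlS : l ∈ S := mem_of_mem_erase hlS'
        have hne : l ≠ h := ne_of_mem_erase hlS'
        have h5 : (h ∪ l).card ≤ (U S).card :=
          card_le_card (union_subset (subset_U hhS) (subset_U hlS))
        have h6 := card_union_add_card_inter h l
        rw [hH.three h hhH, hH.three l (hSH hlS)] at h6
        have h7 := hH.inter h hhH l (hSH hlS) hne.symm
        omega
      · have := hd (S.erase h) hS' h2
        omega
    · have hS' : S ⊆ T := by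
        intro x hx
        rcases mem_insert.1 (hS hx) with rfl | h'
        · exact absurd hx hhS
        · exact h'
      have hpos := hSne.card_pos
      rcases Nat.lt_or_ge S.card 2 with h0 | h2
      · have hS1 : S.card = 1 := by omega
        obtain ⟨l, rfl⟩ := card_eq_one.1 hS1
        rw [hone l (hSH (mem_singleton_self l)), hS1]
      · have := hd S hS' h2
        omega

end Pool.Agent.BR2
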