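import Pool.Agent.BR2.Base

/-! # Project BR2, module EULER -/

set_option autoImplicit false

namespace Pool.Agent.BR2

open Finset

variable {α : Type*} [DecidableEq α] {H S T M A : Finset (Finset α)} {e : ℕ}

theorem fibre_bound {β γ : Type*} [DecidableEq β] [DecidableEq γ] (P : Finset β) (φ : β → γ) :
    2 * P.card ≤ 2 * (P.image φ).card + (P.offDiag.filter (fun z => φ z.1 = φ z.2)).card := by
  induction P using Finset.induction_on with
  | empty => simp
  | insert a P ha ih =>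
    rw [card_insert_of_notMem ha, image_insert]
    have hsub : P.offDiag.filter (fun z => φ z.1 = φ z.2) ⊆
        (insert a P).offDiag.filter (fun z => φ z.1 = φ z.2) := by
      apply filter_subset_filter
      exact offDiag_mono (subset_insert _ _)
    by_cases h : φ a ∈ P.image φ
    · rw [insert_eq_of_mem h]
      obtain ⟨b, hb, hab⟩ := mem_image.1 h
      have hba : b ≠ a := fun h => ha (h ▸ hb)
      have h1 : (a, b) ∉ P.offDiag.filter (fun z => φ z.1 = φ z.2) := by
        simp [ha]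
      have h2 : (b, a) ∉ insert (a, b) (P.offDiag.filter (fun z => φ z.1 = φ z.2)) := by
        simp [ha, hba]
      have h3 : insert (b, a) (insert (a, b) (P.offDiag.filter (fun z => φ z.1 = φ z.2))) ⊆
          (insert a P).offDiag.filter (fun z => φ z.1 = φ z.2) := by
        intro z hz
        rw [mem_insert, mem_insert] at hz
        rcases hz with rfl | rfl | hz
        · simp [hb, hba, hab]
        · simp [hb, hba.symm, hab]
        · exact hsub hz
      have h4 := card_le_card h3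
      rw [card_insert_of_notMem h2, card_insert_of_notMem h1] at h4
      omega
    · rw [card_insert_of_notMem h]
      have := card_le_card hsub
      omega

/-- **EULER.** -/
theorem euler (hH : Lin H) (hMH : M ⊆ H) {g l : Finset α} (hE : Ear M g l)
    {X : Finset (Finset α × Finset α)} (hX : TAc H X) (hXM : X ⊆ Ch M) (hX0 : X.Nonempty) :
    9 * X.card + 6 ≤ 6 * (Fl X).card + (Tr H X).card := by
  classical
  obtain ⟨hgM, hlM, hgl, hgl', idx, hinj, hg0, hl1, hidx⟩ := hE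
  obtain ⟨v0, hv0⟩ := hX0
  have hne : Nonempty α := by
    obtain ⟨-, -, -, x, -⟩ := mem_Ch.1 (hXM hv0)
    exact ⟨x⟩
  -- the new point of a line
  have key : ∀ h : Finset α, h ∈ M → 1 ≤ idx h →
      ∃ x, x ∈ h ∧ ∀ k ∈ M, idx k < idx h → x ∉ k := by
    intro h hh h1
    have h3 := hH.three h (hMH hh)
    have hlt : (h ∩ U (M.filter (fun k => idx k < idx h))).card < h.card := by
      rcases Nat.lt_or_ge (idx h) 2 with h2 | h2
      · have h1' : idx h = 1 := by omega
        have : h = l := hinj hh hlM (by rw [h1', hl1])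
        subst this
        have hsub : M.filter (fun k => idx k < idx h) ⊆ {g} := by
          intro k hk
          obtain ⟨hkM, hk1⟩ := mem_filter.1 hk
          have : k = g := hinj hkM hgM (by rw [hg0]; omega)
          simp [this]
        have h4 := card_le_card (inter_subset_inter_left (s := h) (U_mono hsub))
        rw [U_singleton] at h4
        have h5 := hH.inter h (hMH hh) g (hMH hgM) (Ne.symm hgl)
        omega
      · rw [hidx h hh h2, h3]
        norm_num
    by_contra hcon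
    push Not at hcon
    have hall : h ⊆ h ∩ U (M.filter (fun k => idx k < idx h)) := by
      intro x hx
      obtain ⟨k, hkM, hk, hxk⟩ := hcon x hx
      exact mem_inter.2 ⟨hx, mem_U.2 ⟨k, mem_filter.2 ⟨hkM, hk⟩, hxk⟩⟩
    have := card_le_card hall
    omega
  choose! x hxh hxn using key
  set X' := X.filter (fun v => idx v.1 < idx v.2) with hX'
  have hX'X : X' ⊆ X := filter_subset _ _
  have hXmem : ∀ v ∈ X, v.1 ∈ M ∧ v.2 ∈ M ∧ v.1 ≠ v.2 ∧ (v.1 ∩ v.2).Nonempty := fun v hv =>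
    mem_Ch.1 (hXM hv)
  have hX'lt : ∀ v ∈ X', idx v.1 < idx v.2 := fun v hv => (mem_filter.1 hv).2
  -- the number of cherries
  have hXcard : X.card = 2 * X'.card := by
    have h1 : (X.filter (fun v => ¬ idx v.1 < idx v.2)).card = X'.card := by
      refine card_bij' (fun v _ => v.swap) (fun v _ => v.swap) ?_ ?_ (fun v _ => by simp)
        (fun v _ => by simp)
      · intro v hv
        obtain ⟨hv1, hv2⟩ := mem_filter.1 hv
        obtain ⟨h1, h2, h3, -⟩ := hXmem v hv1
        refine mem_filter.2 ⟨hX.swap (g := v.1) (l := v.2) hv1, ?_⟩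
        have : idx v.1 ≠ idx v.2 := fun h => h3 (hinj h1 h2 h)
        simp only [Prod.fst_swap, Prod.snd_swap]
        omega
      · intro v hv
        obtain ⟨hv1, hv2⟩ := mem_filter.1 hv
        refine mem_filter.2 ⟨hX.swap (g := v.1) (l := v.2) hv1, ?_⟩
        simp only [Prod.fst_swap, Prod.snd_swap]
        omega
    have h2 : X'.card + (X.filter (fun v => ¬ idx v.1 < idx v.2)).card = X.card :=
      card_filter_add_card_filter_not (s := X) (fun v => idx v.1 < idx v.2)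
    omega
  -- type F flags
  set P : Finset ((Finset α × Finset α) × α) :=
    X'.biUnion (fun v => (v.1 \ v.2).image (fun q => (v, q))) with hP
  have hPmem : ∀ p, p ∈ P ↔ p.1 ∈ X' ∧ p.2 ∈ p.1.1 ∧ p.2 ∉ p.1.2 := by
    intro p
    simp only [hP, mem_biUnion, mem_image, mem_sdiff]
    constructor
    · rintro ⟨v, hv, q, hq, rfl⟩
      exact ⟨hv, hq⟩
    · rintro ⟨h1, h2⟩
      exact ⟨p.1, h1, p.2, h2, rfl⟩
  have hPcard : P.card = 2 * X'.card := by
    rw [hP, card_biUnion]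
    · have : ∀ v ∈ X', ((v.1 \ v.2).image (fun q => (v, q))).card = 2 := by
        intro v hv
        rw [card_image_of_injective _ (fun a b h => by simpa using h)]
        have h1 := inter_card_one hH (hX.1 (hX'X hv))
        have h2 := card_sdiff_add_card_inter v.1 v.2
        have h3 := hH.three v.1 (hMH (hXmem v (hX'X hv)).1)
        omega
      rw [sum_congr rfl this, sum_const, smul_eq_mul, mul_comm]
    · intro v _ w _ hvw
      rw [Function.onFun, disjoint_left]
      rintro ⟨a, b⟩ h1 h2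
      simp only [mem_image, Prod.mk.injEq] at h1 h2
      obtain ⟨_, _, h3, _⟩ := h1
      obtain ⟨_, _, h4, _⟩ := h2
      exact hvw (h3.trans h4.symm)
  set F := P.image (fun p => (p.1.2, p.2)) with hF
  have hbound := fibre_bound P (fun p => (p.1.2, p.2))
  rw [← hF] at hbound
  set R := P.offDiag.filter (fun z => (fun p : (Finset α × Finset α) × α => (p.1.2, p.2)) z.1 =
    (fun p : (Finset α × Finset α) × α => (p.1.2, p.2)) z.2) with hR
  -- triangles
  set T3 := (Tr H X).filter (fun t => idx t.1.1 < idx t.2 ∧ idx t.1.2 < idx t.2) with hT3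
  set T2 := (Tr H X).filter (fun t => idx t.1.1 < idx t.1.2 ∧ idx t.2 < idx t.1.2) with hT2
  set T1 := (Tr H X).filter (fun t => idx t.1.2 < idx t.1.1 ∧ idx t.2 < idx t.1.1) with hT1
  have hTr : ∀ t, t ∈ Tr H X ↔ t.1 ∈ X ∧ Tri H t.1.1 t.1.2 t.2 := by
    intro t
    simp only [Tr, mem_filter, mem_product]
    constructor
    · rintro ⟨⟨h1, h2⟩, h3⟩; exact ⟨h1, h3⟩
    · rintro ⟨h1, h3⟩; exact ⟨⟨h1, h3.2.2.1⟩, h3⟩
  have hT32 : T3.card ≤ T2.card := by
    apply card_le_card_of_injOn (fun t => ((t.1.1, t.2), t.1.2))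
    · intro t ht
      obtain ⟨h1, h2, h3⟩ := mem_filter.1 (mem_coe.1 ht)
      obtain ⟨h4, h5⟩ := (hTr t).1 h1
      refine mem_coe.2 (mem_filter.2 ⟨(hTr _).2 ⟨hX.tri (g := t.1.1) (l := t.1.2) h4 h5, h5.swap23⟩, ?_⟩)
      exact ⟨h2, h3⟩
    · rintro ⟨⟨a, b⟩, c⟩ _ ⟨⟨a', b'⟩, c'⟩ _ h
      simp only [Prod.mk.injEq] at h ⊢
      tauto
  have hT31 : T3.card ≤ T1.card := by
    apply card_le_card_of_injOn (fun t => ((t.2, t.1.1), t.1.2))
    · intro t ht
      obtain ⟨h1, h2, h3⟩ := mem_filter.1 (mem_coe.1 ht)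
      obtain ⟨h4, h5⟩ := (hTr t).1 h1
      refine mem_coe.2 (mem_filter.2
        ⟨(hTr _).2 ⟨hX.swap (hX.tri (g := t.1.1) (l := t.1.2) h4 h5), h5.rot.rot⟩, ?_⟩)
      exact ⟨h2, h3⟩
    · rintro ⟨⟨a, b⟩, c⟩ _ ⟨⟨a', b'⟩, c'⟩ _ h
      simp only [Prod.mk.injEq] at h ⊢
      tauto
  have hTsum : T1.card + T2.card + T3.card ≤ (Tr H X).card := by
    have d12 : Disjoint T1 T2 := by
      rw [disjoint_left]
      intro t h1 h2
      have h1 := (mem_filter.1 h1).2
      have h2 := (mem_filter.1 h2).2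
      omega
    have d3 : Disjoint (T1 ∪ T2) T3 := by
      rw [disjoint_left]
      intro t h1 h3
      have h3 := (mem_filter.1 h3).2
      rcases mem_union.1 h1 with h1 | h1
      · have h1 := (mem_filter.1 h1).2
        omega
      · have h1 := (mem_filter.1 h1).2
        omega
    rw [← card_union_of_disjoint d12, ← card_union_of_disjoint d3]
    exact card_le_card (union_subset (union_subset (filter_subset _ _) (filter_subset _ _))
      (filter_subset _ _))
  have hRT : R.card ≤ T3.card := by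
    apply card_le_card_of_injOn (fun z => ((z.1.1.1, z.2.1.1), z.1.1.2))
    · rintro ⟨⟨⟨i, h⟩, q⟩, ⟨⟨i', h'⟩, q'⟩⟩ hz
      obtain ⟨hz1, hz2⟩ := mem_filter.1 (mem_coe.1 hz)
      obtain ⟨hp, hp', hne'⟩ := mem_offDiag.1 hz1
      simp only [Prod.mk.injEq] at hz2
      obtain ⟨rfl, rfl⟩ := hz2
      obtain ⟨h1, h2, h3⟩ := (hPmem _).1 hp
      obtain ⟨h4, h5, h6⟩ := (hPmem _).1 hp'
      simp only at h1 h2 h3 h4 h5 h6
      have hii : i ≠ i' := by
        rintro rfl; exact hne' rfl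
      have hlt := hX'lt _ h1
      have hlt' := hX'lt _ h4
      simp only at hlt hlt'
      have m1 := hXmem _ (hX'X h1)
      have m2 := hXmem _ (hX'X h4)
      simp only at m1 m2
      have htri : Tri H i h i' := by
        refine ⟨hMH m1.1, hMH m1.2.1, hMH m2.1, m1.2.2.2, ?_, ⟨q, mem_inter.2 ⟨h2, h5⟩⟩, ?_⟩
        · rw [inter_comm]; exact m2.2.2.2
        · rw [eq_empty_iff_forall_notMem]
          intro y hy
          simp only [mem_inter] at hy
          have hyq : y ≠ q := by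
            rintro rfl; exact h3 hy.1.2
          exact hii (hH.eq_of_two (hMH m1.1) (hMH m2.1) hyq hy.1.1 h2 hy.2 h5)
      refine mem_coe.2 (mem_filter.2 ⟨(hTr _).2 ⟨?_, htri.swap23⟩, hlt, hlt'⟩)
      exact hX.tri (hX'X h1) htri
    · rintro ⟨⟨⟨i, h⟩, q⟩, ⟨⟨i', h'⟩, q'⟩⟩ hz ⟨⟨⟨j, k⟩, r⟩, ⟨⟨j', k'⟩, r'⟩⟩ hw he
      obtain ⟨hz1, hz2⟩ := mem_filter.1 (mem_coe.1 hz)
      obtain ⟨hp, hp', hne'⟩ := mem_offDiag.1 hz1
      obtain ⟨hw1, hw2⟩ := mem_filter.1 (mem_coe.1 hw)
      obtain ⟨hr, hr', hne''⟩ := mem_offDiag.1 hw1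
      simp only [Prod.mk.injEq] at hz2 hw2 he
      obtain ⟨rfl, rfl⟩ := hz2
      obtain ⟨rfl, rfl⟩ := hw2
      obtain ⟨⟨rfl, rfl⟩, rfl⟩ := he
      obtain ⟨h1, h2, h3⟩ := (hPmem _).1 hp
      obtain ⟨h4, h5, h6⟩ := (hPmem _).1 hp'
      obtain ⟨h1', h2', h3'⟩ := (hPmem _).1 hr
      obtain ⟨h4', h5', h6'⟩ := (hPmem _).1 hr'
      simp only at h1 h2 h3 h4 h5 h6 h1' h2' h3' h4' h5' h6'
      have hii : i ≠ i' := by
        rintro rfl; exact hne' rfl
      have hqr : q = r := by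
        by_contra hqr
        exact hii (hH.eq_of_two (hMH (hXmem _ (hX'X h1)).1) (hMH (hXmem _ (hX'X h4)).1) hqr
          h2 h2' h5 h5')
      rw [hqr]
  -- type G flags
  set G := X'.image (fun v => (v.1, x v.2)) with hG
  have hGcard : G.card = X'.card := by
    apply card_image_of_injOn
    rintro ⟨i, h⟩ hi ⟨i', h'⟩ hi' he
    simp only [Prod.mk.injEq] at he
    obtain ⟨rfl, he⟩ := he
    have m1 := hXmem _ (hX'X hi)
    have m2 := hXmem _ (hX'X hi')
    have l1 := hX'lt _ hi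
    have l2 := hX'lt _ hi'
    simp only at m1 m2 l1 l2
    have p1 := hxh h m1.2.1 (by omega)
    have p2 := hxh h' m2.2.1 (by omega)
    rcases lt_trichotomy (idx h) (idx h') with hlt | heq | hlt
    · exact absurd (he ▸ p1) (hxn h' m2.2.1 (by omega) h m1.2.1 hlt)
    · rw [hinj m1.2.1 m2.2.1 heq]
    · exact absurd (he ▸ p2) (hxn h m1.2.1 (by omega) h' m2.2.1 hlt)
  have hFmem : ∀ f, f ∈ F ↔ ∃ i, (i, f.1) ∈ X' ∧ f.2 ∈ i ∧ f.2 ∉ f.1 := by
    intro f
    simp only [hF, mem_image]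
    constructor
    · rintro ⟨p, hp, rfl⟩
      obtain ⟨h1, h2, h3⟩ := (hPmem _).1 hp
      exact ⟨p.1.1, h1, h2, h3⟩
    · rintro ⟨i, h1, h2, h3⟩
      exact ⟨((i, f.1), f.2), (hPmem _).2 ⟨h1, h2, h3⟩, rfl⟩
  have hFlmem : ∀ f, f ∈ Fl X ↔ ∃ i, (f.1, i) ∈ X ∧ f.2 ∈ i ∧ f.2 ∉ f.1 := by
    intro f
    simp only [Fl, mem_biUnion, mem_image, mem_sdiff]
    constructor
    · rintro ⟨v, hv, q, ⟨hq1, hq2⟩, rfl⟩
      exact ⟨v.2, hv, hq1, hq2⟩
    · rintro ⟨i, h1, h2, h3⟩
      exact ⟨(f.1, i), h1, f.2, ⟨h2, h3⟩, rfl⟩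
  have hFFl : F ⊆ Fl X := by
    intro f hf
    obtain ⟨i, h1, h2, h3⟩ := (hFmem f).1 hf
    exact (hFlmem f).2 ⟨i, hX.swap (hX'X h1), h2, h3⟩
  have hGFl : G ⊆ Fl X := by
    intro f hf
    obtain ⟨v, hv, rfl⟩ := mem_image.1 hf
    have m1 := hXmem _ (hX'X hv)
    have l1 := hX'lt _ hv
    exact (hFlmem _).2 ⟨v.2, hX'X hv, hxh _ m1.2.1 (by omega),
      hxn _ m1.2.1 (by omega) _ m1.1 l1⟩
  have hFG : Disjoint F G := by
    rw [disjoint_left]
    intro f hf hg
    obtain ⟨i, h1, h2, h3⟩ := (hFmem f).1 hf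
    obtain ⟨v, hv, rfl⟩ := mem_image.1 hg
    have m1 := hXmem _ (hX'X hv)
    have l1 := hX'lt _ hv
    have m2 := hXmem _ (hX'X h1)
    have l2 := hX'lt _ h1
    simp only at m2 l2 h2
    exact hxn _ m1.2.1 (by omega) i m2.1 (by omega) h2
  -- the extra flag
  have hX'0 : X'.Nonempty := by
    rw [← card_pos]
    have : 0 < X.card := card_pos.2 ⟨v0, hv0⟩
    omega
  obtain ⟨v, hv, hmin⟩ := exists_min_image X' (fun v => idx v.2) hX'0
  have mv := hXmem _ (hX'X hv)
  have lv := hX'lt _ hv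
  obtain ⟨p, hp⟩ := mv.2.2.2
  obtain ⟨hp1, hp2⟩ := mem_inter.1 hp
  have hx2 := hxh _ mv.2.1 (by omega)
  have hx1 := hxn _ mv.2.1 (by omega) _ mv.1 lv
  have hpx : p ≠ x v.2 := by
    intro h; rw [← h] at hx1; exact hx1 hp1
  obtain ⟨b, hb, hbp, hbx⟩ := third (hH.three _ (hMH mv.2.1)) hp2 hx2 hpx
  have hbv : b ∈ v.2 := by rw [hb]; simp
  have hbn : b ∉ v.1 := by
    intro hb1
    exact mv.2.2.1 (hH.eq_of_two (hMH mv.1) (hMH mv.2.1) hbp hb1 hp1 hbv hp2)
  have hextra : (v.1, b) ∈ Fl X := (hFlmem _).2 ⟨v.2, hX'X hv, hbv, hbn⟩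
  have hexF : (v.1, b) ∉ F := by
    intro h
    obtain ⟨i, h1, -, -⟩ := (hFmem _).1 h
    have := hmin _ h1
    simp only at this
    omega
  have hexG : (v.1, b) ∉ G := by
    intro h
    obtain ⟨w, hw, he⟩ := mem_image.1 h
    simp only [Prod.mk.injEq] at he
    obtain ⟨he1, he2⟩ := he
    have hle := hmin w hw
    have mw := hXmem _ (hX'X hw)
    have lw := hX'lt _ hw
    rcases Nat.lt_or_ge (idx v.2) (idx w.2) with hlt | hge
    · exact hxn _ mw.2.1 (by omega) _ mv.2.1 hlt (he2 ▸ hbv)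
    · have : w.2 = v.2 := hinj mw.2.1 mv.2.1 (le_antisymm hge hle)
      rw [this] at he2
      exact hbx he2.symm
  have hfin : F.card + G.card + 1 ≤ (Fl X).card := by
    rw [← card_union_of_disjoint hFG]
    have : (v.1, b) ∉ F ∪ G := by
      rw [mem_union]; tauto
    rw [← card_insert_of_notMem this]
    exact card_le_card (insert_subset hextra (union_subset hFFl hGFl))
  have hTr3 : 3 * R.card ≤ (Tr H X).card := by omega
  omega

end Pool.Agent.BR2
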