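import Pool.Agent.BR2.FLAG

/-! # Project BR2, module GDM -/

set_option autoImplicit false

namespace Pool.Agent.BR2

open Finset

variable {α : Type*} [DecidableEq α] {H S T M A : Finset (Finset α)} {e : ℕ}

private theorem gdm_card {n : ℕ} (g : Finset (Fin n)) :
    g.card = ∑ x, if x ∈ g then 1 else 0 := by
  rw [Finset.sum_ite_mem, univ_inter, card_eq_sum_ones]

private theorem gdm_deg {n : ℕ} (A : Finset (Finset (Fin n))) (x : Fin n) :
    deg A x = ∑ g ∈ A, if x ∈ g then 1 else 0 := by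
  rw [deg, card_filter]

private theorem gdm_inter {n : ℕ} (A B : Finset (Finset (Fin n))) :
    ∑ g ∈ A, ∑ l ∈ B, (g ∩ l).card = ∑ x, deg A x * deg B x := by
  have e1 : ∀ x, deg A x * deg B x = ∑ g ∈ A, ∑ l ∈ B, if x ∈ g ∩ l then 1 else 0 := by
    intro x
    rw [gdm_deg, gdm_deg, sum_mul_sum]
    apply sum_congr rfl
    intro g _
    apply sum_congr rfl
    intro l _
    by_cases h1 : x ∈ g <;> by_cases h2 : x ∈ l <;> simp [h1, h2]
  simp only [e1, gdm_card (_ ∩ _)]
  symm
  rw [sum_comm]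
  apply sum_congr rfl
  intro g _
  rw [sum_comm]

private theorem gdm_lines {n : ℕ} (A : Finset (Finset (Fin n))) :
    ∑ g ∈ A, g.card = ∑ x, deg A x := by
  simp only [gdm_deg, gdm_card (_ : Finset (Fin n))]
  rw [sum_comm]

private theorem gdm_lin {n : ℕ} {H : Finset (Finset (Fin n))} (h3 : ∀ l ∈ H, l.card = 3)
    (hc : ∀ x y : Fin n, x ≠ y → ∃! l, l ∈ H ∧ x ∈ l ∧ y ∈ l) : Lin H := by
  refine ⟨h3, ?_⟩
  intro l hl k hk hne
  by_contra hcon
  push Not at hcon
  obtain ⟨x, hx, y, hy, hxy⟩ := one_lt_card.1 hcon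
  rw [mem_inter] at hx hy
  exact hne ((hc x y hxy).unique ⟨hl, hx.1, hy.1⟩ ⟨hk, hx.2, hy.2⟩)

private theorem gdm_deg_add {n : ℕ} {H R B : Finset (Finset (Fin n))} (hRB : R ∪ B = H)
    (hd : Disjoint R B) (x : Fin n) : deg H x = deg R x + deg B x := by
  rw [gdm_deg, gdm_deg, gdm_deg, ← hRB, sum_union hd]

/-- Degrees in a complete linear system. -/
theorem deg_complete {n : ℕ} {H R B : Finset (Finset (Fin n))} (h3 : ∀ l ∈ H, l.card = 3)
    (hc : ∀ x y : Fin n, x ≠ y → ∃! l, l ∈ H ∧ x ∈ l ∧ y ∈ l) (hRB : R ∪ B = H)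
    (hd : Disjoint R B) (x : Fin n) : 2 * (deg R x + deg B x) = n - 1 := by
  rw [← gdm_deg_add hRB hd]
  have e1 : (H.filter (fun l => x ∈ l)).biUnion (fun l => l.erase x) = univ.erase x := by
    ext y
    simp only [mem_biUnion, mem_filter, mem_erase, mem_univ, and_true]
    constructor
    · rintro ⟨l, _, h, _⟩
      exact h
    · intro h
      obtain ⟨l, ⟨hl, hx, hy⟩, _⟩ := hc x y (Ne.symm h)
      exact ⟨l, ⟨hl, hx⟩, h, hy⟩
  have e2 := congrArg Finset.card e1
  rw [card_biUnion, card_erase_of_mem (mem_univ x), card_univ, Fintype.card_fin] at e2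
  · rw [← e2, deg, sum_congr rfl (g := fun _ => 2), sum_const, smul_eq_mul, mul_comm]
    intro l hl
    rw [mem_filter] at hl
    rw [card_erase_of_mem hl.2, h3 l hl.1]
  · intro l hl k hk hne
    rw [mem_coe, mem_filter] at hl hk
    rw [Function.onFun, disjoint_left]
    intro y hy hy'
    rw [mem_erase] at hy hy'
    exact hne ((hc x y (Ne.symm hy.1)).unique ⟨hl.1, hl.2, hy.2⟩ ⟨hk.1, hk.2, hy'.2⟩)

/-- In a complete linear system, two different lines are in `4` triangles if they meet. -/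
private theorem gdm_t {n : ℕ} {H : Finset (Finset (Fin n))} (h3 : ∀ l ∈ H, l.card = 3)
    (hc : ∀ x y : Fin n, x ≠ y → ∃! l, l ∈ H ∧ x ∈ l ∧ y ∈ l) {g l : Finset (Fin n)}
    (hg : g ∈ H) (hl : l ∈ H) (hgl : g ≠ l) : t H (g, l) = 4 * (g ∩ l).card := by
  classical
  have hL := gdm_lin h3 hc
  by_cases hne : (g ∩ l).Nonempty
  · have hc1 : (g ∩ l).card = 1 :=
      inter_card_one hL (v := (g, l)) (mem_Ch.2 ⟨hg, hl, hgl, hne⟩)
    have hcg : (g \ l).card = 2 := by
      have := card_sdiff_add_card_inter g l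
      rw [hc1, h3 g hg] at this
      omega
    have hcl : (l \ g).card = 2 := by
      have := card_sdiff_add_card_inter l g
      rw [inter_comm l g, hc1, h3 l hl] at this
      omega
    have hprod : ((g \ l) ×ˢ (l \ g)).card = 4 := by
      rw [card_product, hcg, hcl]
    rw [hc1, mul_one, ← hprod, t]
    symm
    have hxy : ∀ q ∈ (g \ l) ×ˢ (l \ g), q.1 ≠ q.2 := by
      intro q hq heq
      rw [mem_product, mem_sdiff, mem_sdiff] at hq
      exact hq.1.2 (heq ▸ hq.2.1)
    refine Finset.card_bij (fun q hq => (hc q.1 q.2 (hxy q hq)).choose) ?_ ?_ ?_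
    · intro q hq
      obtain ⟨⟨hkH, hx, hy⟩, -⟩ := (hc q.1 q.2 (hxy q hq)).choose_spec
      set k := (hc q.1 q.2 (hxy q hq)).choose
      rw [mem_product, mem_sdiff, mem_sdiff] at hq
      obtain ⟨⟨hxg, hxl⟩, ⟨hyl, hyg⟩⟩ := hq
      refine mem_filter.2 ⟨hkH, hg, hl, hkH, hne, ⟨q.2, mem_inter.2 ⟨hyl, hy⟩⟩,
        ⟨q.1, mem_inter.2 ⟨hxg, hx⟩⟩, ?_⟩
      by_contra hcon
      obtain ⟨p, hp⟩ := nonempty_iff_ne_empty.2 hcon
      rw [mem_inter, mem_inter] at hp
      have hpx : p ≠ q.1 := fun h => hxl (h ▸ hp.1.2)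
      have := hL.eq_of_two hg hkH hpx hp.1.1 hxg hp.2 hx
      exact hyg (this ▸ hy)
    · intro q hq q' hq' heq
      obtain ⟨⟨hkH, hx, hy⟩, -⟩ := (hc q.1 q.2 (hxy q hq)).choose_spec
      obtain ⟨⟨hkH', hx', hy'⟩, -⟩ := (hc q'.1 q'.2 (hxy q' hq')).choose_spec
      rw [← heq] at hx' hy'
      set k := (hc q.1 q.2 (hxy q hq)).choose
      rw [mem_product, mem_sdiff, mem_sdiff] at hq hq'
      obtain ⟨⟨hxg, hxl⟩, ⟨hyl, hyg⟩⟩ := hq
      obtain ⟨⟨hxg', hxl'⟩, ⟨hyl', hyg'⟩⟩ := hq'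
      apply Prod.ext
      · by_contra hcon
        have := hL.eq_of_two hg hkH hcon hxg hxg' hx hx'
        exact hyg (this ▸ hy)
      · by_contra hcon
        have := hL.eq_of_two hl hkH hcon hyl hyl' hy hy'
        exact hxl (this ▸ hx)
    · intro k hk
      obtain ⟨hkH, -, -, -, -, ⟨y, hy⟩, ⟨x, hx⟩, hemp⟩ := mem_filter.1 hk
      simp only at hy hx hemp
      rw [mem_inter] at hx hy
      have hxl : x ∉ l := fun h => by
        have : x ∈ g ∩ l ∩ k := mem_inter.2 ⟨mem_inter.2 ⟨hx.1, h⟩, hx.2⟩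
        rw [hemp] at this
        exact notMem_empty _ this
      have hyg : y ∉ g := fun h => by
        have : y ∈ g ∩ l ∩ k := mem_inter.2 ⟨mem_inter.2 ⟨h, hy.1⟩, hy.2⟩
        rw [hemp] at this
        exact notMem_empty _ this
      have hq : (x, y) ∈ (g \ l) ×ˢ (l \ g) :=
        mem_product.2 ⟨mem_sdiff.2 ⟨hx.1, hxl⟩, mem_sdiff.2 ⟨hy.1, hyg⟩⟩
      refine ⟨(x, y), hq, ?_⟩
      exact (hc x y (hxy _ hq)).unique (hc x y (hxy _ hq)).choose_spec.1 ⟨hkH, hx.2, hy.2⟩
  · rw [not_nonempty_iff_eq_empty] at hne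
    rw [hne, card_empty, mul_zero, t, card_eq_zero, filter_eq_empty_iff]
    rintro k _ ⟨_, _, _, h, _⟩
    simp [hne] at h

open scoped Classical in
/-- the number of ordered triangles with lines in three given sets -/
private noncomputable def NN {n : ℕ} (H A B C : Finset (Finset (Fin n))) : ℕ :=
  ∑ g ∈ A, ∑ l ∈ B, ∑ k ∈ C, if Tri H g l k then 1 else 0

private theorem NN_swap12 {n : ℕ} (H A B C : Finset (Finset (Fin n))) :
    NN H A B C = NN H B A C := by
  classical
  unfold NN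
  rw [sum_comm]
  refine sum_congr rfl fun g _ => sum_congr rfl fun l _ => sum_congr rfl fun k _ => ?_
  exact if_congr ⟨fun h => h.swap12, fun h => h.swap12⟩ rfl rfl

private theorem NN_swap23 {n : ℕ} (H A B C : Finset (Finset (Fin n))) :
    NN H A B C = NN H A C B := by
  classical
  unfold NN
  refine sum_congr rfl fun g _ => ?_
  rw [sum_comm]
  refine sum_congr rfl fun l _ => sum_congr rfl fun k _ => ?_
  exact if_congr ⟨fun h => h.swap23, fun h => h.swap23⟩ rfl rfl

private theorem NN_union {n : ℕ} (H A A' B C : Finset (Finset (Fin n))) (h : Disjoint A A') :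
    NN H (A ∪ A') B C = NN H A B C + NN H A' B C := by
  unfold NN
  rw [sum_union h]

private theorem NN_t {n : ℕ} (H A B : Finset (Finset (Fin n))) :
    NN H A B H = ∑ g ∈ A, ∑ l ∈ B, t H (g, l) := by
  classical
  unfold NN t
  refine sum_congr rfl fun g _ => sum_congr rfl fun l _ => ?_
  rw [card_filter]

private theorem NN_sub {n : ℕ} {H R : Finset (Finset (Fin n))} (hR : R ⊆ H) :
    NN H R R R = NN R R R R := by
  classical
  unfold NN
  refine sum_congr rfl fun g hg => sum_congr rfl fun l hl => sum_congr rfl fun k hk => ?_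
  have : Tri H g l k ↔ Tri R g l k :=
    ⟨fun h => ⟨hg, hl, hk, h.2.2.2⟩, fun h => h.mono hR⟩
  simp only [this]

private theorem NN_own {n : ℕ} (R : Finset (Finset (Fin n))) :
    own R (Ch R) = 2 * ((Ch R).card : ℤ) - (NN R R R R : ℤ) := by
  classical
  have h1 : ∑ w ∈ Ch R, t R w = NN R R R R := by
    rw [NN_t, ← sum_product (s := R) (t := R) (f := fun w => t R w)]
    apply sum_subset
    · exact filter_subset _ _
    · intro w hw hw'
      rw [t, card_eq_zero, filter_eq_empty_iff]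
      intro k _ h
      exact hw' h.Ch12
  rw [← h1, own, sum_sub_distrib, sum_const, nsmul_eq_mul]
  push_cast
  ring

/-- The number of cherries. -/
theorem card_Ch {n : ℕ} {H : Finset (Finset (Fin n))} (hH : Lin H) :
    ((Ch H).card : ℤ) = ∑ x : Fin n, ((deg H x : ℤ) ^ 2 - (deg H x : ℤ)) := by
  classical
  have h1 : ((Ch H).card : ℤ) = ∑ g ∈ H, ∑ l ∈ H, (((g ∩ l).card : ℤ) -
      if g = l then (g.card : ℤ) else 0) := by
    rw [Ch, card_filter, sum_product]
    push_cast
    refine sum_congr rfl fun g hg => sum_congr rfl fun l hl => ?_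
    by_cases hgl : g = l
    · subst hgl
      simp
    · by_cases hne : (g ∩ l).Nonempty
      · have := inter_card_one hH (v := (g, l)) (mem_Ch.2 ⟨hg, hl, hgl, hne⟩)
        simp only at this
        simp [hgl, hne, this]
      · have h0 : g ∩ l = ∅ := not_nonempty_iff_eq_empty.1 hne
        simp [hgl, h0]
  have h2 : ∀ g ∈ H, ∑ l ∈ H, (if g = l then (g.card : ℤ) else 0) = g.card := by
    intro g hg
    rw [sum_ite_eq, if_pos hg]
  have h3 := gdm_inter H H
  have h4 := gdm_lines H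
  rw [h1]
  simp only [sum_sub_distrib]
  rw [sum_congr rfl h2]
  have h3' : ∑ g ∈ H, ∑ l ∈ H, ((g ∩ l).card : ℤ) = ∑ x, ((deg H x : ℤ) ^ 2) := by
    have := congrArg (Nat.cast : ℕ → ℤ) h3
    push_cast at this
    rw [this]
    exact sum_congr rfl fun x _ => (sq _).symm
  have h4' : ∑ g ∈ H, (g.card : ℤ) = ∑ x, (deg H x : ℤ) := by
    have := congrArg (Nat.cast : ℕ → ℤ) h4
    push_cast at this
    exact this
  rw [h3', h4']

/-- **GDM.** -/
theorem gdm {n : ℕ} {H R B : Finset (Finset (Fin n))} (h3 : ∀ l ∈ H, l.card = 3)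
    (hc : ∀ x y : Fin n, x ≠ y → ∃! l, l ∈ H ∧ x ∈ l ∧ y ∈ l) (hRB : R ∪ B = H)
    (hd : Disjoint R B) :
    2 * (own R (Ch R) + own B (Ch B)) + ∑ x : Fin n, ((n : ℤ) - 1 - 4 * (deg R x : ℤ)) ^ 2 =
      2 * (n : ℤ) * ((n : ℤ) - 1) := by
  classical
  have hL := gdm_lin h3 hc
  have hR : R ⊆ H := hRB ▸ subset_union_left
  have hB : B ⊆ H := hRB ▸ subset_union_right
  -- decomposition of the triangles
  have d1 : NN H H H H = NN H R R R + 3 * NN H R R B + 3 * NN H R B B + NN H B B B := by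
    have e1 : ∀ X Y, NN H H X Y = NN H R X Y + NN H B X Y := fun X Y => by
      have h := NN_union H R B X Y hd
      rwa [hRB] at h
    have e2 : ∀ X Y, NN H X H Y = NN H X R Y + NN H X B Y := fun X Y => by
      rw [NN_swap12, e1, NN_swap12, NN_swap12 H B]
    have e3 : ∀ X Y, NN H X Y H = NN H X Y R + NN H X Y B := fun X Y => by
      rw [NN_swap23, e2, NN_swap23, NN_swap23 H X B]
    rw [e1, e2, e2, e3, e3, e3, e3, NN_swap23 H R B R, NN_swap12 H B R R, NN_swap23 H R B R,
      NN_swap12 H B R B, NN_swap23 H B B R, NN_swap12 H B R B]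
    ring
  have d2 : NN H R B H = NN H R R B + NN H R B B := by
    have : NN H R B H = NN H R H B := NN_swap23 _ _ _ _
    have h := NN_union H R B R B hd
    rw [hRB] at h
    rw [this, NN_swap12, h, NN_swap12 H B R B]
  have d3 : NN H H H H = 4 * (Ch H).card := by
    rw [NN_t, ← sum_product (s := H) (t := H) (f := fun w => t H w)]
    have : ∑ w ∈ H ×ˢ H, t H w = ∑ w ∈ Ch H, t H w := by
      symm
      apply sum_subset
      · exact filter_subset _ _
      · intro w hw hw'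
        rw [t, card_eq_zero, filter_eq_empty_iff]
        intro k _ h
        exact hw' h.Ch12
    rw [this, sum_congr rfl (g := fun _ => 4), sum_const, smul_eq_mul, mul_comm]
    intro w hw
    have h1 := inter_card_one hL hw
    obtain ⟨hg, hl, hgl, -⟩ := mem_Ch.1 hw
    have := gdm_t h3 hc hg hl hgl
    rw [h1, mul_one] at this
    exact this
  have d4 : NN H R B H = 4 * ∑ x, deg R x * deg B x := by
    rw [NN_t, ← gdm_inter, mul_sum]
    refine sum_congr rfl fun g hg => ?_
    rw [mul_sum]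
    refine sum_congr rfl fun l hl => ?_
    refine gdm_t h3 hc (hR hg) (hB hl) ?_
    rintro rfl
    exact (disjoint_left.1 hd) hg hl
  have o1 := NN_own R
  have o2 := NN_own B
  rw [← NN_sub hR] at o1
  rw [← NN_sub hB] at o2
  have c1 := card_Ch (hL.mono hR)
  have c2 := card_Ch (hL.mono hB)
  have c3 := card_Ch hL
  have key : (NN H R R R : ℤ) + NN H B B B = 4 * ((Ch H).card : ℤ) -
      12 * ∑ x, (deg R x : ℤ) * deg B x := by
    have z1 : (NN H H H H : ℤ) = NN H R R R + 3 * NN H R R B + 3 * NN H R B B + NN H B B B := by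
      exact_mod_cast d1
    have z2 : (NN H R B H : ℤ) = NN H R R B + NN H R B B := by exact_mod_cast d2
    have z3 : (NN H H H H : ℤ) = 4 * (Ch H).card := by exact_mod_cast d3
    have z4 : (NN H R B H : ℤ) = 4 * ∑ x, (deg R x : ℤ) * deg B x := by exact_mod_cast d4
    linarith
  have hdeg : ∀ x, 2 * ((deg R x : ℤ) + deg B x) = (n : ℤ) - 1 := by
    intro x
    have h1 := deg_complete h3 hc hRB hd x
    have h2 : 0 < n := lt_of_le_of_lt (Nat.zero_le _) x.2
    have h3 : 2 * (deg R x + deg B x) + 1 = n := by omega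
    have : (2 * ((deg R x : ℤ) + deg B x) + 1) = n := by exact_mod_cast h3
    linarith
  have hsum : 2 * (own R (Ch R) + own B (Ch B)) + ∑ x : Fin n,
      ((n : ℤ) - 1 - 4 * (deg R x : ℤ)) ^ 2 = ∑ x : Fin n, 2 * ((n : ℤ) - 1) := by
    have e : 2 * (own R (Ch R) + own B (Ch B)) = ∑ x : Fin n,
        (4 * ((deg R x : ℤ) ^ 2 - deg R x) + 4 * ((deg B x : ℤ) ^ 2 - deg B x) -
          8 * ((deg H x : ℤ) ^ 2 - deg H x) + 24 * ((deg R x : ℤ) * deg B x)) := by
      rw [o1, o2]
      simp only [sum_add_distrib, sum_sub_distrib, ← mul_sum] at c1 c2 c3 ⊢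
      linear_combination 4 * c1 + 4 * c2 - 8 * c3 - 2 * key
    rw [e, ← sum_add_distrib]
    refine sum_congr rfl fun x _ => ?_
    have h1 := hdeg x
    have h2 : (deg H x : ℤ) = deg R x + deg B x := by exact_mod_cast gdm_deg_add hRB hd x
    rw [h2, ← h1]
    ring
  rw [hsum, sum_const, card_univ, Fintype.card_fin, nsmul_eq_mul]
  ring

end Pool.Agent.BR2
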