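import Pool.Agent.BR2.COL
import Pool.Agent.BR2.GDM

/-! # Project BR2, module FIN -/

set_option autoImplicit false

namespace Pool.Agent.BR2

open Finset

variable {α : Type*} [DecidableEq α] {H S T M A : Finset (Finset α)} {e : ℕ}

theorem sum_deg {n : ℕ} {H : Finset (Finset (Fin n))} (h3 : ∀ A ∈ H, A.card = 3) :
    ∑ x : Fin n, deg H x = 3 * H.card := by
  have h1 : ∀ x : Fin n, deg H x = ∑ l ∈ H, if x ∈ l then 1 else 0 := by
    intro x
    unfold deg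
    rw [card_filter]
  rw [sum_congr rfl (fun x _ => h1 x), sum_comm]
  have h2 : ∀ l ∈ H, (∑ x : Fin n, if x ∈ l then 1 else 0) = 3 := by
    intro l hl
    rw [← card_filter, filter_mem_eq_inter, univ_inter, h3 l hl]
  rw [sum_congr rfl h2, sum_const, smul_eq_mul, mul_comm]

theorem free_of_no {n : ℕ} {H R : Finset (Finset (Fin n))} (hR : R ⊆ H)
    (hno : ∀ S ⊆ R, S.card = e → ¬ (U S).card ≤ e + 3) : Free R e := by
  intro S hS h1
  have := hno S hS h1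
  omega

/-- **The theorem.** -/
theorem two_colours (he : 3 ≤ e) : ∃ N : ℕ, ∀ n ≥ N, ∀ H : Finset (Finset (Fin n)),
    (∀ A ∈ H, A.card = 3) →
    (∀ x y : Fin n, x ≠ y → ∃! A, A ∈ H ∧ x ∈ A ∧ y ∈ A) →
    ∀ col : Finset (Fin n) → Fin 2,
      ∃ S ⊆ H, S.card = e ∧ (U S).card ≤ e + 3 ∧ ∃ i, ∀ A ∈ S, col A = i := by
  refine ⟨20 * (e + 2) ^ 2 + 2 * e ^ 3 + 4 * e ^ 2 + 10, ?_⟩
  intro n hn H h3 hc col
  by_contra hcon
  push Not at hcon
  set R := H.filter (fun A => col A = 0) with hR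
  set B := H.filter (fun A => ¬ col A = 0) with hB
  have hRB : R ∪ B = H := filter_union_filter_not_eq _ _
  have hdis : Disjoint R B := disjoint_filter_filter_not _ _ _
  have hLin : Lin H := by
    refine ⟨h3, ?_⟩
    intro l hl k hk hne
    rw [card_le_one]
    intro x hx y hy
    rw [mem_inter] at hx hy
    by_contra hxy
    exact hne ((hc x y hxy).unique ⟨hl, hx.1, hy.1⟩ ⟨hk, hx.2, hy.2⟩)
  have hRH : R ⊆ H := filter_subset _ _
  have hBH : B ⊆ H := filter_subset _ _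
  have hRL := hLin.mono hRH
  have hBL := hLin.mono hBH
  have hRF : Free R e := free_of_no hRH (by
    intro S hS h1 h2
    obtain ⟨A, hA, hne⟩ := hcon S (hS.trans hRH) h1 h2 0
    exact hne (mem_filter.1 (hS hA)).2)
  have hBF : Free B e := free_of_no hBH (by
    intro S hS h1 h2
    obtain ⟨A, hA, hne⟩ := hcon S (hS.trans hBH) h1 h2 1
    have := (mem_filter.1 (hS hA)).2
    omega)
  have hn1 : 20 * (e + 2) ^ 2 ≤ n := by
    have : 20 * (e + 2) ^ 2 ≤ 20 * (e + 2) ^ 2 + 2 * e ^ 3 + 4 * e ^ 2 + 10 := by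
      have : 0 ≤ 2 * e ^ 3 + 4 * e ^ 2 + 10 := Nat.zero_le _
      linarith
    exact this.trans hn
  have cR := Pool.Agent.BR2.col hRL hRF he hn1
  have cB := Pool.Agent.BR2.col hBL hBF he hn1
  have hg := gdm h3 hc hRB hdis
  have chR := card_Ch hRL
  have chB := card_Ch hBL
  have hdeg : ∀ x : Fin n, 2 * (deg R x + deg B x) = n - 1 := fun x =>
    deg_complete h3 hc hRB hdis x
  have hnpos : 1 ≤ n := by omega
  have hdegZ : ∀ x : Fin n, 2 * ((deg R x : ℤ) + (deg B x : ℤ)) = (n : ℤ) - 1 := by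
    intro x
    have := hdeg x
    omega
  -- the corrections
  have hZ : (∑ x ∈ univ.filter (fun x : Fin n => 6 * deg R x ≤ n - 1),
        ((n : ℤ) - 1 - 4 * (deg R x : ℤ)) ^ 2) +
      (∑ x ∈ univ.filter (fun x : Fin n => 6 * deg B x ≤ n - 1),
        ((n : ℤ) - 1 - 4 * (deg B x : ℤ)) ^ 2) ≤
      ∑ x : Fin n, ((n : ℤ) - 1 - 4 * (deg R x : ℤ)) ^ 2 := by
    rw [sum_filter, sum_filter, ← sum_add_distrib]
    apply sum_le_sum
    intro x _
    have h1 := hdegZ x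
    have h2 := hdeg x
    have h4 : ((n : ℤ) - 1 - 4 * (deg B x : ℤ)) ^ 2 = ((n : ℤ) - 1 - 4 * (deg R x : ℤ)) ^ 2 := by
      rw [← h1]; ring
    rw [h4]
    have h5 : 0 ≤ ((n : ℤ) - 1 - 4 * (deg R x : ℤ)) ^ 2 := sq_nonneg _
    split_ifs with h6 h7
    · exfalso; omega
    · linarith
    · linarith
    · linarith
  -- number of lines
  have hcardRB : H.card = R.card + B.card := by
    rw [← hRB, card_union_of_disjoint hdis]
  have hHc : 6 * ((R.card : ℤ) + (B.card : ℤ)) = (n : ℤ) * ((n : ℤ) - 1) := by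
    have h1 := sum_deg (fun A hA => h3 A (hRH hA))
    have h2 := sum_deg (fun A hA => h3 A (hBH hA))
    have h4 : ∑ x : Fin n, 2 * ((deg R x : ℤ) + (deg B x : ℤ)) = ∑ _x : Fin n, ((n : ℤ) - 1) :=
      sum_congr rfl (fun x _ => hdegZ x)
    rw [sum_const, card_univ, Fintype.card_fin, nsmul_eq_mul, ← mul_sum, sum_add_distrib] at h4
    have h5 : ∑ x : Fin n, (deg R x : ℤ) = 3 * (R.card : ℤ) := by exact_mod_cast h1
    have h6 : ∑ x : Fin n, (deg B x : ℤ) = 3 * (B.card : ℤ) := by exact_mod_cast h2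
    rw [h5, h6] at h4
    linarith
  -- number of cherries
  have hCh : (n : ℤ) * (((n : ℤ) - 1) ^ 2 - 4 * ((n : ℤ) - 1)) ≤
      8 * (((Ch R).card : ℤ) + ((Ch B).card : ℤ)) := by
    rw [chR, chB, ← sum_add_distrib, mul_sum]
    have : (n : ℤ) * (((n : ℤ) - 1) ^ 2 - 4 * ((n : ℤ) - 1)) =
        ∑ _x : Fin n, (((n : ℤ) - 1) ^ 2 - 4 * ((n : ℤ) - 1)) := by
      rw [sum_const, card_univ, Fintype.card_fin, nsmul_eq_mul]
    rw [this]
    apply sum_le_sum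
    intro x _
    have h1 := hdegZ x
    have h2 := sq_nonneg ((deg R x : ℤ) - (deg B x : ℤ))
    rw [← h1]
    nlinarith
  -- conclusion
  have hN : (4 : ℤ) * (e : ℤ) ^ 2 + 2 * (e : ℤ) ^ 3 + 4 < (n : ℤ) - 1 := by
    have h1 : 4 * e ^ 2 + 2 * e ^ 3 + 4 < n - 1 := by
      have : 20 * (e + 2) ^ 2 + 2 * e ^ 3 + 4 * e ^ 2 + 10 ≤ n := hn
      have : 0 ≤ 20 * (e + 2) ^ 2 := Nat.zero_le _
      omega
    have h2 : ((4 * e ^ 2 + 2 * e ^ 3 + 4 : ℕ) : ℤ) < ((n - 1 : ℕ) : ℤ) := by exact_mod_cast h1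
    rw [Nat.cast_sub hnpos] at h2
    push_cast at h2
    exact h2
  set N : ℤ := (n : ℤ) - 1 with hNdef
  have he2 : (0 : ℤ) ≤ (e : ℤ) ^ 2 := sq_nonneg _
  set ZR := ∑ x ∈ univ.filter (fun x : Fin n => 6 * deg R x ≤ n - 1),
        (N - 4 * (deg R x : ℤ)) ^ 2
  set ZB := ∑ x ∈ univ.filter (fun x : Fin n => 6 * deg B x ≤ n - 1),
        (N - 4 * (deg B x : ℤ)) ^ 2
  set Z := ∑ x : Fin n, (N - 4 * (deg R x : ℤ)) ^ 2
  have hsum : 4 * (((Ch R).card : ℤ) + ((Ch B).card : ℤ)) ≤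
      (e : ℤ) ^ 2 * (2 * (n : ℤ) * N) + (e : ℤ) ^ 3 * ((n : ℤ) * N) := by
    have h1 : (e : ℤ) ^ 2 * ((2 * own R (Ch R) + ZR) + (2 * own B (Ch B) + ZB)) ≤
        (e : ℤ) ^ 2 * (2 * (n : ℤ) * N) := by
      apply mul_le_mul_of_nonneg_left _ he2
      linarith
    have h2 : 6 * (e : ℤ) ^ 3 * (R.card : ℤ) + 6 * (e : ℤ) ^ 3 * (B.card : ℤ) =
        (e : ℤ) ^ 3 * ((n : ℤ) * N) := by
      rw [← hHc]; ring
    linarith
  have hfin : (n : ℤ) * N * (N - 4 - (4 * (e : ℤ) ^ 2 + 2 * (e : ℤ) ^ 3)) ≤ 0 := by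
    nlinarith
  have hnZ : (0 : ℤ) < (n : ℤ) := by exact_mod_cast hnpos
  have hNp : 0 < N := by
    have : (0 : ℤ) ≤ (e : ℤ) ^ 3 := pow_nonneg (Int.natCast_nonneg _) 3
    linarith
  have hq : 0 < N - 4 - (4 * (e : ℤ) ^ 2 + 2 * (e : ℤ) ^ 3) := by linarith
  have := mul_pos (mul_pos hnZ hNp) hq
  linarith

end Pool.Agent.BR2
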