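import Pool.Agent.BR2.SpD

/-! # Project BR2, module FOR1 -/

set_option autoImplicit false

namespace Pool.Agent.BR2

open Finset

variable {α : Type*} [DecidableEq α] {H S T M A : Finset (Finset α)} {e : ℕ}

/-- `L` is a set of lines of `C` which contains `p, q`, contains none of `g, l, k` and has at
most three more points than lines. -/
structure Wit (C : Finset (Finset α)) (g l k p q : Finset α) (L : Finset (Finset α)) : Prop where
  sub : L ⊆ C
  hp : p ∈ L
  hq : q ∈ L
  card : (U L).card ≤ L.card + 3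
  hg : g ∉ L
  hl : l ∉ L
  hk : k ∉ L

variable {C L : Finset (Finset α)} {g l k p q g' l' k' p' q' h : Finset α}

/-- The third line and the midlines lie in a closed set which contains two lines of the
triangle. -/
private theorem FOR1_mem (hC : Closed H C) {A B D a b c : α}
    (E : SpD H g l k p q A B D a b c) (hg : g ∈ C) (hl : l ∈ C) : k ∈ C ∧ p ∈ C ∧ q ∈ C := by
  obtain ⟨hg', hl', hk', nd, gH, lH, kH, pH, qH, ap, bp, bq, cq, ne⟩ := E
  simp only [List.nodup_cons, List.mem_cons, List.not_mem_nil, or_false, not_or,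
    List.nodup_nil, and_true, not_false_eq_true] at nd
  have a_g : a ∈ g := by rw [hg']; simp
  have b_l : b ∈ l := by rw [hl']; simp
  have c_k : c ∈ k := by rw [hk']; simp
  have A_l : A ∈ l := by rw [hl']; simp
  have A_k : A ∈ k := by rw [hk']; simp
  have B_g : B ∈ g := by rw [hg']; simp
  have B_k : B ∈ k := by rw [hk']; simp
  have kC : k ∈ C := hC.mem_of_two kH (x := A) (y := B) nd.1.1 A_k B_k
    (subset_U hl A_l) (subset_U hg B_g)
  refine ⟨kC, ?_, ?_⟩
  · exact hC.mem_of_two pH (x := a) (y := b) nd.2.2.2.1.1 ap bp (subset_U hg a_g)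
      (subset_U hl b_l)
  · exact hC.mem_of_two qH (x := b) (y := c) nd.2.2.2.2 bq cq (subset_U hl b_l)
      (subset_U kC c_k)

private theorem FOR1_sd {X : Finset α} {x y z : α} (h : x ∈ X ∨ y ∈ X ∨ z ∈ X) :
    (({x, y, z} : Finset α) \ X).card ≤ 2 := by
  rcases h with h | h | h
  · have : ({x, y, z} : Finset α) \ X ⊆ {y, z} := by
      intro w hw
      simp only [mem_sdiff, mem_insert, mem_singleton] at hw ⊢
      rcases hw with ⟨rfl | h1 | h1, h2⟩
      · exact absurd h h2
      · exact Or.inl h1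
      · exact Or.inr h1
    exact (card_le_card this).trans card_le_two
  · have : ({x, y, z} : Finset α) \ X ⊆ {x, z} := by
      intro w hw
      simp only [mem_sdiff, mem_insert, mem_singleton] at hw ⊢
      rcases hw with ⟨h1 | rfl | h1, h2⟩
      · exact Or.inl h1
      · exact absurd h h2
      · exact Or.inr h1
    exact (card_le_card this).trans card_le_two
  · have : ({x, y, z} : Finset α) \ X ⊆ {x, y} := by
      intro w hw
      simp only [mem_sdiff, mem_insert, mem_singleton] at hw ⊢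
      rcases hw with ⟨h1 | h1 | rfl, h2⟩
      · exact Or.inl h1
      · exact Or.inr h1
      · exact absurd h h2
    exact (card_le_card this).trans card_le_two

/-- No corner of the triangle is covered by a witness set. -/
private theorem FOR1_star (hC : Closed H C) {A B D a b c : α}
    (E : SpD H g l k p q A B D a b c) (hg : g ∈ C) (hl : l ∈ C)
    (hd : ∀ S ⊆ C, p ∈ S → q ∈ S → S.card + 3 ≤ (U S).card)
    (hW : Wit C g l k p q L) : A ∉ U L ∧ B ∉ U L ∧ D ∉ U L := by
  obtain ⟨kC, -, -⟩ := FOR1_mem hC E hg hl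
  by_contra hcon
  have hcon' : A ∈ U L ∨ B ∈ U L ∨ D ∈ U L := by
    by_contra h
    rw [not_or, not_or] at h
    exact hcon h
  obtain ⟨hg', hl', hk', nd, gH, lH, kH, pH, qH, ap, bp, bq, cq, ne⟩ := E
  simp only [List.nodup_cons, List.mem_cons, List.not_mem_nil, or_false, not_or,
    List.nodup_nil, and_true, not_false_eq_true] at nd
  have ha : a ∈ U L := subset_U hW.hp ap
  have hb : b ∈ U L := subset_U hW.hp bp
  have hc : c ∈ U L := subset_U hW.hq cq
  have B_l : B ∉ l := by
    rw [hl']; simp only [mem_insert, mem_singleton, not_or]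
    exact ⟨nd.2.1.1, Ne.symm nd.1.1, nd.2.1.2.2.1⟩
  have B_g : B ∈ g := by rw [hg']; simp
  have D_k : D ∉ k := by
    rw [hk']; simp only [mem_insert, mem_singleton, not_or]
    exact ⟨Ne.symm nd.1.2.1, Ne.symm nd.2.1.1, nd.2.2.1.2.2⟩
  have D_g : D ∈ g := by rw [hg']; simp
  have D_l : D ∈ l := by rw [hl']; simp
  have gl : g ≠ l := fun h => B_l (h ▸ B_g)
  have gk : g ≠ k := fun h => D_k (h ▸ D_g)
  have lk : l ≠ k := fun h => D_k (h ▸ D_l)
  have hcard : (L ∪ {g, l, k}).card = L.card + 3 := by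
    rw [card_union_of_disjoint]
    · rw [card_insert_of_notMem (by simp [gl, gk]), card_pair lk]
    · rw [disjoint_right]
      intro x hx
      simp only [mem_insert, mem_singleton] at hx
      rcases hx with rfl | rfl | rfl
      · exact hW.hg
      · exact hW.hl
      · exact hW.hk
  have hU : U (L ∪ {g, l, k}) ⊆ U L ∪ {A, B, D} := by
    have : U ({g, l, k} : Finset (Finset α)) = g ∪ (l ∪ k) := by simp [U]
    rw [U_union, this, hg', hl', hk']
    intro x
    simp only [mem_union, mem_insert, mem_singleton]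
    rintro (h | ((h | h | h) | (h | h | h) | (h | h | h)))
    · exact Or.inl h
    all_goals simp [h, ha, hb, hc]
  have hU2 : (U L ∪ {A, B, D}).card ≤ (U L).card + 2 := by
    have h0 : (U L ∪ {A, B, D}).card = (U L).card + (({A, B, D} : Finset α) \ U L).card := by
      rw [← card_union_of_disjoint disjoint_sdiff, union_sdiff_self_eq_union]
    have h1 : (({A, B, D} : Finset α) \ U L).card ≤ 2 := FOR1_sd hcon'
    omega
  have hsub : L ∪ {g, l, k} ⊆ C := by
    intro x hx
    simp only [mem_union, mem_insert, mem_singleton] at hx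
    rcases hx with h | rfl | rfl | rfl
    · exact hW.sub h
    · exact hg
    · exact hl
    · exact kC
  have h1 := hd _ hsub (mem_union_left _ hW.hp) (mem_union_left _ hW.hq)
  have h2 := card_le_card hU
  have h3 := hW.card
  omega

theorem Wit.pair (hH : Lin H) (hC : Closed H C) (hsp : Sp H g l k p q) (hg : g ∈ C)
    (hl : l ∈ C) : Wit C g l k p q {p, q} := by
  obtain ⟨A, B, D, a, b, c, E⟩ := hsp.data hH
  obtain ⟨kC, pC, qC⟩ := FOR1_mem hC E hg hl
  obtain ⟨hg', hl', hk', nd, gH, lH, kH, pH, qH, ap, bp, bq, cq, ne⟩ := E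
  simp only [List.nodup_cons, List.mem_cons, List.not_mem_nil, or_false, not_or,
    List.nodup_nil, and_true, not_false_eq_true] at nd
  have b_g : b ∉ g := by
    rw [hg']; simp only [mem_insert, mem_singleton, not_or]
    exact ⟨Ne.symm nd.2.1.2.2.1, Ne.symm nd.2.2.1.2.1, Ne.symm nd.2.2.2.1.1⟩
  have a_l : a ∉ l := by
    rw [hl']; simp only [mem_insert, mem_singleton, not_or]
    exact ⟨Ne.symm nd.2.2.1.1, Ne.symm nd.1.2.2.1, nd.2.2.2.1.1⟩
  have c_l : c ∉ l := by
    rw [hl']; simp only [mem_insert, mem_singleton, not_or]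
    exact ⟨Ne.symm nd.2.2.1.2.2, Ne.symm nd.1.2.2.2.2, Ne.symm nd.2.2.2.2⟩
  have a_k : a ∉ k := by
    rw [hk']; simp only [mem_insert, mem_singleton, not_or]
    exact ⟨Ne.symm nd.1.2.2.1, Ne.symm nd.2.1.2.1, nd.2.2.2.1.2⟩
  have b_k : b ∉ k := by
    rw [hk']; simp only [mem_insert, mem_singleton, not_or]
    exact ⟨Ne.symm nd.1.2.2.2.1, Ne.symm nd.2.1.2.2.1, nd.2.2.2.2⟩
  refine ⟨?_, by simp, by simp, ?_, ?_, ?_, ?_⟩
  · intro x hx
    simp only [mem_insert, mem_singleton] at hx
    rcases hx with rfl | rfl <;> assumption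
  · rw [U_pair, card_pair ne]
    have h1 := card_union_add_card_inter p q
    have h2 : 1 ≤ (p ∩ q).card := card_pos.2 ⟨b, mem_inter.2 ⟨bp, bq⟩⟩
    rw [hH.three p pH, hH.three q qH] at h1
    omega
  · simp only [mem_insert, mem_singleton, not_or]
    exact ⟨fun h => b_g (h ▸ bp), fun h => b_g (h ▸ bq)⟩
  · simp only [mem_insert, mem_singleton, not_or]
    exact ⟨fun h => a_l (h ▸ ap), fun h => c_l (h ▸ cq)⟩
  · simp only [mem_insert, mem_singleton, not_or]
    exact ⟨fun h => a_k (h ▸ ap), fun h => b_k (h ▸ bq)⟩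

private theorem FOR1_one {X : Finset α} {x y z : α} (hx : x ∉ X) (hy : y ∉ X) :
    (({x, y, z} : Finset α) ∩ X).card ≤ 1 := by
  have : ({x, y, z} : Finset α) ∩ X ⊆ {z} := by
    intro w hw
    simp only [mem_inter, mem_insert, mem_singleton] at hw ⊢
    rcases hw with ⟨rfl | rfl | rfl, h2⟩ <;> tauto
  exact (card_le_card this).trans (by simp)

theorem Wit.grow (hH : Lin H) (hC : Closed H C) (hsp : Sp H g l k p q) (hg : g ∈ C) (hl : l ∈ C)
    (hd : ∀ S ⊆ C, p ∈ S → q ∈ S → S.card + 3 ≤ (U S).card)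
    (hW : Wit C g l k p q L) (hh : h ∈ H) (h2 : 2 ≤ (h ∩ U L).card) :
    Wit C g l k p q (insert h L) := by
  obtain ⟨A, B, D, a, b, c, E⟩ := hsp.data hH
  obtain ⟨s1, s2, s3⟩ := FOR1_star hC E hg hl hd hW
  obtain ⟨hg', hl', hk', nd, gH, lH, kH, pH, qH, ap, bp, bq, cq, ne⟩ := E
  have hgn : g ≠ h := by
    rintro rfl
    rw [hg'] at h2
    have := FOR1_one (z := a) s2 s3
    omega
  have hln : l ≠ h := by
    rintro rfl
    rw [hl'] at h2
    have := FOR1_one (z := b) s3 s1
    omega
  have hkn : k ≠ h := by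
    rintro rfl
    rw [hk'] at h2
    have := FOR1_one (z := c) s1 s2
    omega
  have hhC : h ∈ C := hC.2 h hh (h2.trans (card_le_card (inter_subset_inter_left (U_mono hW.sub))))
  refine ⟨insert_subset hhC hW.sub, mem_insert_of_mem hW.hp, mem_insert_of_mem hW.hq, ?_, ?_, ?_,
    ?_⟩
  · by_cases hL : h ∈ L
    · rw [insert_eq_of_mem hL]; exact hW.card
    · rw [card_insert_of_notMem hL, U_insert]
      have h3 := card_union_add_card_inter h (U L)
      rw [hH.three h hh] at h3
      have := hW.card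
      omega
  · simp only [mem_insert, not_or]; exact ⟨hgn, hW.hg⟩
  · simp only [mem_insert, not_or]; exact ⟨hln, hW.hl⟩
  · simp only [mem_insert, not_or]; exact ⟨hkn, hW.hk⟩

/-- The points of a triangle, seen from one of its lines. -/
private structure Td (L H : Finset (Finset α)) (Δ : Finset (Finset α)) (h u w : Finset α)
    (P Q R m m₁ m₂ : α) : Prop where
  eq : Δ = {h, u, w}
  hh : h = {P, Q, m}
  hu : u = {P, R, m₁}
  hw : w = {Q, R, m₂}
  uH : u ∈ H
  wH : w ∈ H
  PQ : P ≠ Q
  PR : P ≠ R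
  QR : Q ≠ R
  P0 : P ∉ U L
  Q0 : Q ∉ U L
  R0 : R ∉ U L
  m0 : m ∈ U L
  m1 : m₁ ∈ U L
  m2 : m₂ ∈ U L

private theorem Td.swap {L H Δ : Finset (Finset α)} {h u w : Finset α} {P Q R m m₁ m₂ : α}
    (E : Td L H Δ h u w P Q R m m₁ m₂) : Td L H Δ h w u Q P R m m₂ m₁ := by
  obtain ⟨e1, e2, e3, e4, uH, wH, PQ, PR, QR, P0, Q0, R0, m0, m1, m2⟩ := E
  refine ⟨?_, ?_, e4, e3, wH, uH, PQ.symm, QR, PR, Q0, P0, R0, m0, m2, m1⟩
  · rw [e1]; ext x; simp only [mem_insert, mem_singleton]; tauto
  · rw [e2]; ext x; simp only [mem_insert, mem_singleton]; tauto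

private theorem FOR1_p1 {β : Type*} [DecidableEq β] (x y z : β) :
    ({x, y, z} : Finset β) = {x, z, y} := by rw [pair_comm]

private theorem FOR1_p2 {β : Type*} [DecidableEq β] (x y z : β) :
    ({x, y, z} : Finset β) = {y, x, z} := insert_comm _ _ _

private theorem FOR1_p3 {β : Type*} [DecidableEq β] (x y z : β) :
    ({x, y, z} : Finset β) = {z, x, y} := by rw [FOR1_p1, FOR1_p2]

private theorem FOR1_p4 {β : Type*} [DecidableEq β] (x y z : β) :
    ({x, y, z} : Finset β) = {z, y, x} := by rw [FOR1_p3, FOR1_p1]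

private theorem SpD.td {A B D a b c : α} (E : SpD H g l k p q A B D a b c)
    (hp : p ∈ L) (hq : q ∈ L) (hA : A ∉ U L) (hB : B ∉ U L) (hD : D ∉ U L)
    (hh : h ∈ ({g, l, k} : Finset (Finset α))) :
    ∃ u w P Q R m m₁ m₂, Td L H {g, l, k} h u w P Q R m m₁ m₂ := by
  obtain ⟨hg', hl', hk', nd, gH, lH, kH, pH, qH, ap, bp, bq, cq, ne⟩ := E
  simp only [List.nodup_cons, List.mem_cons, List.not_mem_nil, or_false, not_or,
    List.nodup_nil, and_true, not_false_eq_true] at nd
  have ha : a ∈ U L := subset_U hp ap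
  have hb : b ∈ U L := subset_U hp bp
  have hc : c ∈ U L := subset_U hq cq
  have AB : A ≠ B := nd.1.1
  have AD : A ≠ D := nd.1.2.1
  have BD : B ≠ D := nd.2.1.1
  simp only [mem_insert, mem_singleton] at hh
  rcases hh with hh | hh | hh
  · subst hh
    exact ⟨k, l, B, D, A, a, c, b, FOR1_p1 _ _ _, hg', by rw [hk', FOR1_p2], hl', kH, lH, BD,
      AB.symm, AD.symm, hB, hD, hA, ha, hc, hb⟩
  · subst hh
    exact ⟨g, k, D, A, B, b, a, c, FOR1_p2 _ _ _, hl', by rw [hg', FOR1_p2], hk', gH, kH,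
      AD.symm, BD.symm, AB, hD, hA, hB, hb, ha, hc⟩
  · subst hh
    exact ⟨l, g, A, B, D, c, b, a, FOR1_p4 _ _ _, hk', by rw [hl', FOR1_p2], hg', lH, gH, AB, AD,
      BD, hA, hB, hD, hc, hb, ha⟩

private theorem FOR1_aux (hH : Lin H)
    (hd : ∀ S ⊆ C, p ∈ S → q ∈ S → S.card + 3 ≤ (U S).card)
    (hLC : L ⊆ C) (hp : p ∈ L) (hq : q ∈ L) (hL : (U L).card ≤ L.card + 3)
    {Δ Δ' : Finset (Finset α)} (hΔ : Δ ⊆ C) (hΔ' : Δ' ⊆ C)
    {h u w u' w' : Finset α} {P Q R m m₁ m₂ R' m' m₁' m₂' : α}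
    (E : Td L H Δ h u w P Q R m m₁ m₂) (E' : Td L H Δ' h u' w' P Q R' m' m₁' m₂')
    (hne : Δ' ≠ Δ) : False := by
  obtain ⟨e1, e2, e3, e4, uH, wH, PQ, PR, QR, P0, Q0, R0, m0, m1, m2⟩ := E
  obtain ⟨f1, f2, f3, f4, uH', wH', PQ', PR', QR', P0', Q0', R0', m0', m1', m2'⟩ := E'
  have P_u : P ∈ u := by rw [e3]; simp
  have R_u : R ∈ u := by rw [e3]; simp
  have Q_w : Q ∈ w := by rw [e4]; simp
  have R_w : R ∈ w := by rw [e4]; simp
  have P_u' : P ∈ u' := by rw [f3]; simp
  have R_u' : R' ∈ u' := by rw [f3]; simp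
  have Q_w' : Q ∈ w' := by rw [f4]; simp
  have R_w' : R' ∈ w' := by rw [f4]; simp
  have P_h : P ∈ h := by rw [e2]; simp
  have Q_h : Q ∈ h := by rw [e2]; simp
  have nU : ∀ {x y : α}, x ∈ U L → y ∉ U L → x ≠ y := fun hx hy hxy => hy (hxy ▸ hx)
  by_cases hR : R = R'
  · subst hR
    have hu : u = u' := hH.eq_of_two uH uH' PR P_u R_u P_u' R_u'
    have hw : w = w' := hH.eq_of_two wH wH' QR Q_w R_w Q_w' R_w'
    apply hne
    rw [e1, f1, hu, hw]
  · have Q_u : Q ∉ u := by
      rw [e3]; simp only [mem_insert, mem_singleton, not_or]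
      exact ⟨PQ.symm, QR, (nU m1 Q0).symm⟩
    have P_w : P ∉ w := by
      rw [e4]; simp only [mem_insert, mem_singleton, not_or]
      exact ⟨PQ, PR, (nU m2 P0).symm⟩
    have Q_u' : Q ∉ u' := by
      rw [f3]; simp only [mem_insert, mem_singleton, not_or]
      exact ⟨PQ.symm, QR', (nU m1' Q0).symm⟩
    have P_w' : P ∉ w' := by
      rw [f4]; simp only [mem_insert, mem_singleton, not_or]
      exact ⟨PQ, PR', (nU m2' P0).symm⟩
    have R_nu' : R ∉ u' := by
      rw [f3]; simp only [mem_insert, mem_singleton, not_or]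
      exact ⟨PR.symm, hR, (nU m1' R0).symm⟩
    have R_nw' : R ∉ w' := by
      rw [f4]; simp only [mem_insert, mem_singleton, not_or]
      exact ⟨QR.symm, hR, (nU m2' R0).symm⟩
    have hu1 : h ≠ u := fun h0 => Q_u (h0 ▸ Q_h)
    have hw1 : h ≠ w := fun h0 => P_w (h0 ▸ P_h)
    have hu2 : h ≠ u' := fun h0 => Q_u' (h0 ▸ Q_h)
    have hw2 : h ≠ w' := fun h0 => P_w' (h0 ▸ P_h)
    have uw : u ≠ w := fun h0 => P_w (h0 ▸ P_u)
    have uu' : u ≠ u' := fun h0 => R_nu' (h0 ▸ R_u)
    have uw' : u ≠ w' := fun h0 => R_nw' (h0 ▸ R_u)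
    have wu' : w ≠ u' := fun h0 => R_nu' (h0 ▸ R_w)
    have ww' : w ≠ w' := fun h0 => R_nw' (h0 ▸ R_w)
    have u'w' : u' ≠ w' := fun h0 => P_w' (h0 ▸ P_u')
    have h5 : ({h, u, w, u', w'} : Finset (Finset α)).card = 5 := by
      rw [card_insert_of_notMem (by simp [hu1, hw1, hu2, hw2]),
        card_insert_of_notMem (by simp [uw, uu', uw']), card_insert_of_notMem (by simp [wu', ww']),
        card_pair u'w']
    have hcard : (L ∪ {h, u, w, u', w'}).card = L.card + 5 := by
      rw [card_union_of_disjoint, h5]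
      rw [disjoint_right]
      intro x hx hxL
      simp only [mem_insert, mem_singleton] at hx
      rcases hx with rfl | rfl | rfl | rfl | rfl
      · exact P0 (subset_U hxL P_h)
      · exact P0 (subset_U hxL P_u)
      · exact Q0 (subset_U hxL Q_w)
      · exact P0 (subset_U hxL P_u')
      · exact Q0 (subset_U hxL Q_w')
    have hU : U (L ∪ {h, u, w, u', w'}) ⊆ U L ∪ {P, Q, R, R'} := by
      have : U ({h, u, w, u', w'} : Finset (Finset α)) = h ∪ (u ∪ (w ∪ (u' ∪ w'))) := by simp [U]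
      rw [U_union, this, e2, e3, e4, f3, f4]
      intro x
      simp only [mem_union, mem_insert, mem_singleton]
      rintro (h | (h | h | h) | (h | h | h) | (h | h | h) | (h | h | h) | (h | h | h))
      · exact Or.inl h
      all_goals simp [h, m0, m1, m2, m1', m2']
    have hU2 : (U (L ∪ {h, u, w, u', w'})).card ≤ (U L).card + 4 := by
      refine (card_le_card hU).trans ((card_union_le _ _).trans ?_)
      have : ({P, Q, R, R'} : Finset α).card ≤ 4 := card_le_four
      omega
    have hsub : L ∪ {h, u, w, u', w'} ⊆ C := by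
      intro x hx
      simp only [mem_union, mem_insert, mem_singleton] at hx
      rcases hx with h | rfl | rfl | rfl | rfl | rfl
      · exact hLC h
      · exact hΔ (by rw [e1]; simp)
      · exact hΔ (by rw [e1]; simp)
      · exact hΔ (by rw [e1]; simp)
      · exact hΔ' (by rw [f1]; simp)
      · exact hΔ' (by rw [f1]; simp)
    have h1 := hd _ hsub (mem_union_left _ hp) (mem_union_left _ hq)
    omega

theorem Wit.exch (hH : Lin H) (hC : Closed H C) (hsp : Sp H g l k p q) (hg : g ∈ C) (hl : l ∈ C)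
    (hd : ∀ S ⊆ C, p ∈ S → q ∈ S → S.card + 3 ≤ (U S).card)
    (hsp' : Sp H g' l' k' p' q') (hg' : g' ∈ C) (hl' : l' ∈ C)
    (hne : ({g', l', k'} : Finset (Finset α)) ≠ {g, l, k}) :
    (∃ L, Wit C g l k p q L ∧ g' ∈ L ∧ l' ∈ L) ↔ (∃ L, Wit C g l k p q L ∧ p' ∈ L ∧ q' ∈ L) := by
  classical
  obtain ⟨A', B', D', a', b', c', E'⟩ := hsp'.data hH
  obtain ⟨kC', pC', qC'⟩ := FOR1_mem hC E' hg' hl'
  constructor
  · rintro ⟨L, hW, h1, h2⟩
    have E'' := E'
    obtain ⟨hgg, hll, hkk, nd, gH, lH, kH, pH, qH, ap, bp, bq, cq, ne⟩ := E''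
    simp only [List.nodup_cons, List.mem_cons, List.not_mem_nil, or_false, not_or,
      List.nodup_nil, and_true, not_false_eq_true] at nd
    have a_g : a' ∈ g' := by rw [hgg]; simp
    have b_l : b' ∈ l' := by rw [hll]; simp
    have c_k : c' ∈ k' := by rw [hkk]; simp
    have A_l : A' ∈ l' := by rw [hll]; simp
    have A_k : A' ∈ k' := by rw [hkk]; simp
    have B_g : B' ∈ g' := by rw [hgg]; simp
    have B_k : B' ∈ k' := by rw [hkk]; simp
    have two : ∀ {s : Finset α} {X : Finset α} {x y : α}, x ≠ y → x ∈ s → y ∈ s → x ∈ X → y ∈ X →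
        2 ≤ (s ∩ X).card := by
      intro s X x y hxy hx hy hx' hy'
      rw [← card_pair hxy]
      apply card_le_card
      intro z hz
      simp only [mem_insert, mem_singleton] at hz
      rcases hz with rfl | rfl
      · exact mem_inter.2 ⟨hx, hx'⟩
      · exact mem_inter.2 ⟨hy, hy'⟩
    have hW1 := Wit.grow hH hC hsp hg hl hd hW kH
      (two (x := A') (y := B') nd.1.1 A_k B_k (subset_U h2 A_l) (subset_U h1 B_g))
    have hW2 := Wit.grow hH hC hsp hg hl hd hW1 pH
      (two (x := a') (y := b') nd.2.2.2.1.1 ap bp (subset_U (mem_insert_of_mem h1) a_g)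
        (subset_U (mem_insert_of_mem h2) b_l))
    have hW3 := Wit.grow hH hC hsp hg hl hd hW2 qH
      (two (x := b') (y := c') nd.2.2.2.2 bq cq
        (subset_U (mem_insert_of_mem (mem_insert_of_mem h2)) b_l)
        (subset_U (mem_insert_of_mem (mem_insert_self _ _)) c_k))
    exact ⟨_, hW3, mem_insert_of_mem (mem_insert_self _ _), mem_insert_self _ _⟩
  · rintro ⟨L₀, hW₀, hp₀, hq₀⟩
    -- a maximal witness set
    let F := C.powerset.filter (fun L => Wit C g l k p q L ∧ p' ∈ L ∧ q' ∈ L)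
    have hF0 : F.Nonempty := ⟨L₀, by simp [F, hW₀.sub, hW₀, hp₀, hq₀]⟩
    obtain ⟨L, hLF, hLmax⟩ := exists_max_image F Finset.card hF0
    simp only [F, mem_filter, mem_powerset] at hLF
    obtain ⟨hLC, hW, hp', hq'⟩ := hLF
    have hclosed : Closed H L := by
      refine ⟨hLC.trans hC.1, ?_⟩
      intro s hs h2
      by_contra hsL
      have hW' := Wit.grow hH hC hsp hg hl hd hW hs h2
      have := hLmax (insert s L) (by
        simp only [F, mem_filter, mem_powerset]
        exact ⟨hW'.sub, hW', mem_insert_of_mem hp', mem_insert_of_mem hq'⟩)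
      rw [card_insert_of_notMem hsL] at this
      omega
    rcases E'.dich hclosed hp' hq' with h | ⟨nA, nB, nD⟩
    · exact ⟨L, hW, h.1, h.2.1⟩
    · obtain ⟨u1, u2, u3, u4, u5, u6⟩ := E'.up hp' hq' nA nB nD
      obtain ⟨A, B, D, a, b, c, E⟩ := hsp.data hH
      obtain ⟨kC, pC, qC⟩ := FOR1_mem hC E hg hl
      obtain ⟨s1, s2, s3⟩ := FOR1_star hC E hg hl hd hW
      have hΔ : ({g, l, k} : Finset (Finset α)) ⊆ C := by
        intro x hx
        simp only [mem_insert, mem_singleton] at hx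
        rcases hx with rfl | rfl | rfl <;> assumption
      have hΔ' : ({g', l', k'} : Finset (Finset α)) ⊆ C := by
        intro x hx
        simp only [mem_insert, mem_singleton] at hx
        rcases hx with rfl | rfl | rfl <;> assumption
      have hdisj : ∀ s ∈ ({g, l, k} : Finset (Finset α)), s ∉ ({g', l', k'} : Finset (Finset α)) := by
        intro s hs hs'
        obtain ⟨u, w, P, Q, R, m, m₁, m₂, T1⟩ := E.td hW.hp hW.hq s1 s2 s3 hs
        obtain ⟨u', w', P', Q', R', m', m₁', m₂', T2⟩ := E'.td hp' hq' nA nB nD hs'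
        have hs1 := T1.hh
        have hs2 := T2.hh
        have nU : ∀ {x y : α}, x ∈ U L → y ∉ U L → x ≠ y := fun hx hy hxy => hy (hxy ▸ hx)
        have hP : P' = P ∨ P' = Q := by
          have : P' ∈ s := by rw [hs2]; simp
          rw [hs1] at this
          simp only [mem_insert, mem_singleton] at this
          rcases this with h | h | h
          · exact Or.inl h
          · exact Or.inr h
          · exact absurd h.symm (nU T1.m0 T2.P0)
        have hQ : Q' = P ∨ Q' = Q := by
          have : Q' ∈ s := by rw [hs2]; simp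
          rw [hs1] at this
          simp only [mem_insert, mem_singleton] at this
          rcases this with h | h | h
          · exact Or.inl h
          · exact Or.inr h
          · exact absurd h.symm (nU T1.m0 T2.Q0)
        have hPQ := T2.PQ
        rcases hP with rfl | rfl
        · rcases hQ with rfl | rfl
          · exact hPQ rfl
          · exact FOR1_aux hH hd hLC hW.hp hW.hq hW.card hΔ hΔ' T1 T2 hne
        · rcases hQ with rfl | rfl
          · exact FOR1_aux hH hd hLC hW.hp hW.hq hW.card hΔ hΔ' T1 T2.swap hne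
          · exact hPQ rfl
      have hgn := hdisj g (by simp)
      have hln := hdisj l (by simp)
      have hkn := hdisj k (by simp)
      refine ⟨L ∪ {g', l', k'}, ⟨union_subset hLC hΔ', mem_union_left _ hW.hp,
        mem_union_left _ hW.hq, ?_, ?_, ?_, ?_⟩, by simp, by simp⟩
      · have := hW.card
        omega
      · simp only [mem_union, not_or]; exact ⟨hW.hg, hgn⟩
      · simp only [mem_union, not_or]; exact ⟨hW.hl, hln⟩
      · simp only [mem_union, not_or]; exact ⟨hW.hk, hkn⟩

end Pool.Agent.BR2
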