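import Mathlib

/-! # Project BR2, module LIN: a system of cuts bounds the number of edges -/

set_option autoImplicit false

namespace Pool.Agent.BR2

open Finset

/-- **LIN.** -/
theorem lin_ind {ι δ : Type*} [DecidableEq ι] [DecidableEq δ] (E : Finset ι) (D : Finset δ)
    (hD : D.Nonempty) (u v : ι → δ) (R : ι → δ → Prop)
    (hu : ∀ s ∈ E, u s ∈ D) (hv : ∀ s ∈ E, v s ∈ D)
    (h1 : ∀ s ∈ E, R s (v s) ∧ ¬ R s (u s))
    (h2 : ∀ s ∈ E, ∀ s' ∈ E, s' ≠ s → (R s (u s') ↔ R s (v s'))) :
    E.card + 1 ≤ D.card := by
  classical
  let w : Option E → (D → ℚ) := fun o =>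
    o.elim (fun _ => 1) (fun s x => if R s x then 1 else 0)
  have hli : LinearIndependent ℚ w := by
    rw [Fintype.linearIndependent_iff]
    intro g hg
    have ev : ∀ x : D, g none + ∑ s : E, g (some s) * (if R s x then 1 else 0) = 0 := by
      intro x
      have e1 := congrFun hg x
      rw [Fintype.sum_option] at e1
      simpa [w, Finset.sum_apply] using e1
    have hs : ∀ s : E, g (some s) = 0 := by
      intro s
      have e1 := ev ⟨v s, hv s s.2⟩
      have e2 := ev ⟨u s, hu s s.2⟩
      have e3 : ∑ s' : E, g (some s') * (if R s' (v s) then 1 else 0) -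
          ∑ s' : E, g (some s') * (if R s' (u s) then 1 else 0) = g (some s) := by
        rw [← Finset.sum_sub_distrib, Finset.sum_eq_single s]
        · rw [if_pos (h1 s s.2).1, if_neg (h1 s s.2).2]
          ring
        · intro s' _ hne
          have hne' : (s : ι) ≠ s' := fun h => hne (Subtype.ext h.symm)
          have := h2 s' s'.2 s s.2 hne'
          by_cases h : R s' (v s)
          · rw [if_pos h, if_pos (this.2 h), sub_self]
          · rw [if_neg h, if_neg (fun h' => h (this.1 h')), sub_self]
        · intro h
          exact absurd (Finset.mem_univ _) h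
      simp only at e1 e2
      linarith
    intro o
    cases o with
    | some s => exact hs s
    | none =>
      obtain ⟨d, hd⟩ := hD
      have e := ev ⟨d, hd⟩
      simpa [hs] using e
  have := hli.fintype_card_le_finrank
  simpa using this

end Pool.Agent.BR2
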