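import Pool.Agent.BR2.FOR1
import Pool.Agent.BR2.LIN
import Pool.Agent.BR2.NBX

/-! # Project BR2, module FOR2 -/

set_option autoImplicit false

namespace Pool.Agent.BR2

open Finset

variable {α : Type*} [DecidableEq α] {H S T M A : Finset (Finset α)} {e : ℕ}

private theorem FOR2_two {s X : Finset α} {x y : α} (hxy : x ≠ y) (hx : x ∈ s) (hy : y ∈ s)
    (hx' : x ∈ X) (hy' : y ∈ X) : 2 ≤ (s ∩ X).card := by
  rw [← card_pair hxy]
  apply card_le_card
  intro z hz
  simp only [mem_insert, mem_singleton] at hz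
  rcases hz with rfl | rfl
  · exact mem_inter.2 ⟨hx, hx'⟩
  · exact mem_inter.2 ⟨hy, hy'⟩

/-- A triangle with two midlines is special when small sets of lines cover many points. -/
private theorem FOR2_Sp (hH : Lin H) {C : Finset (Finset α)} (hC : Closed H C)
    {g l k p q : Finset α} (hT : Tri H g l k) (h1 : ML H g l k p) (h2 : ML H l k g q)
    (hg : g ∈ C) (hl : l ∈ C)
    (hd : ∀ S ⊆ C, g ∈ S → l ∈ S → S.card + 3 ≤ (U S).card) : Sp H g l k p q := by
  refine ⟨hT, h1, h2, ?_⟩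
  rintro rfl
  obtain ⟨A, B, D, a, b, c, hg', hl', hk', nd⟩ := hT.pts hH
  simp only [List.nodup_cons, List.mem_cons, List.not_mem_nil, or_false, not_or,
    List.nodup_nil, and_true, not_false_eq_true] at nd
  obtain ⟨hp, ⟨x, hx⟩, ⟨y, hy⟩⟩ := h1
  obtain ⟨-, -, ⟨z, hz⟩⟩ := h2
  simp only [mem_inter, mem_sdiff, mem_union] at hx hy hz
  have A_l : A ∈ l := by rw [hl']; simp
  have A_k : A ∈ k := by rw [hk']; simp
  have B_g : B ∈ g := by rw [hg']; simp
  have B_k : B ∈ k := by rw [hk']; simp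
  have D_g : D ∈ g := by rw [hg']; simp
  have D_l : D ∈ l := by rw [hl']; simp
  have hxa : x = a := by
    have h := hx.2.1
    rw [hg'] at h
    simp only [mem_insert, mem_singleton] at h
    rcases h with rfl | rfl | h
    · exact absurd (Or.inr B_k) hx.2.2
    · exact absurd (Or.inl D_l) hx.2.2
    · exact h
  have hyb : y = b := by
    have h := hy.2.1
    rw [hl'] at h
    simp only [mem_insert, mem_singleton] at h
    rcases h with rfl | rfl | h
    · exact absurd (Or.inl D_g) hy.2.2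
    · exact absurd (Or.inr A_k) hy.2.2
    · exact h
  have hzc : z = c := by
    have h := hz.2.1
    rw [hk'] at h
    simp only [mem_insert, mem_singleton] at h
    rcases h with rfl | rfl | h
    · exact absurd (Or.inl A_l) hz.2.2
    · exact absurd (Or.inr B_g) hz.2.2
    · exact h
  subst hxa; subst hyb; subst hzc
  have xy : x ≠ y := nd.2.2.2.1.1
  have xz : x ≠ z := nd.2.2.2.1.2
  have yz : y ≠ z := nd.2.2.2.2
  have hpe : p = {x, y, z} := by
    symm
    apply eq_of_subset_of_card_le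
    · intro w hw
      simp only [mem_insert, mem_singleton] at hw
      rcases hw with rfl | rfl | rfl
      · exact hx.1
      · exact hy.1
      · exact hz.1
    · rw [hH.three p hp, card_insert_of_notMem (by simp [xy, xz]), card_pair yz]
  have y_g : y ∉ g := by rw [hg']; simp; tauto
  have x_l : x ∉ l := by rw [hl']; simp; tauto
  have x_k : x ∉ k := by rw [hk']; simp; tauto
  have pg : g ≠ p := fun h => y_g (h ▸ hy.1)
  have pl : l ≠ p := fun h => x_l (h ▸ hx.1)
  have pk : k ≠ p := fun h => x_k (h ▸ hx.1)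
  have kC : k ∈ C := hC.mem_of_two hT.2.2.1 (x := A) (y := B) nd.1.1 A_k B_k
    (subset_U hl A_l) (subset_U hg B_g)
  have pC : p ∈ C := hC.mem_of_two hp (x := x) (y := y) xy hx.1 hy.1
    (subset_U hg hx.2.1) (subset_U hl hy.2.1)
  have h4 : ({g, l, k, p} : Finset (Finset α)).card = 4 := by
    rw [card_insert_of_notMem (by simp [hT.ne12, hT.ne13, pg]),
      card_insert_of_notMem (by simp [hT.ne23, pl]), card_pair pk]
  have h5 : U ({g, l, k, p} : Finset (Finset α)) ⊆ {A, B, D, x, y, z} := by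
    have : U ({g, l, k, p} : Finset (Finset α)) = g ∪ (l ∪ (k ∪ p)) := by simp [U]
    rw [this, hg', hl', hk', hpe]
    intro w
    simp only [mem_union, mem_insert, mem_singleton]
    rintro ((h | h | h) | (h | h | h) | (h | h | h) | (h | h | h))
    all_goals simp [h]
  have h6 : (U ({g, l, k, p} : Finset (Finset α))).card ≤ 6 :=
    (card_le_card h5).trans card_le_six
  have h7 := hd {g, l, k, p} (by
    intro w hw
    simp only [mem_insert, mem_singleton] at hw
    rcases hw with rfl | rfl | rfl | rfl <;> assumption) (by simp) (by simp)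
  omega

/-- The ordered triangles with a given set of lines. -/
private theorem FOR2_six {g l k : Finset α}
    (F : Finset ((Finset α × Finset α) × Finset α))
    (hF : ∀ q ∈ F, ({q.1.1, q.1.2, q.2} : Finset (Finset α)) = {g, l, k} ∧ q.1.1 ≠ q.1.2 ∧
      q.1.2 ≠ q.2 ∧ q.1.1 ≠ q.2) : F.card ≤ 6 := by
  have hsub : F ⊆ {((g, l), k), ((g, k), l), ((l, g), k), ((l, k), g), ((k, g), l), ((k, l), g)} := by
    rintro ⟨⟨x, y⟩, z⟩ hq
    obtain ⟨h0, h1, h2, h3⟩ := hF _ hq
    simp only at h0 h1 h2 h3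
    have hx : x ∈ ({g, l, k} : Finset (Finset α)) := by rw [← h0]; simp
    have hy : y ∈ ({g, l, k} : Finset (Finset α)) := by rw [← h0]; simp
    have hz : z ∈ ({g, l, k} : Finset (Finset α)) := by rw [← h0]; simp
    simp only [mem_insert, mem_singleton] at hx hy hz
    simp only [mem_insert, mem_singleton, Prod.mk.injEq]
    rcases hx with rfl | rfl | rfl <;> rcases hy with rfl | rfl | rfl <;>
      rcases hz with rfl | rfl | rfl <;> simp_all
  exact (card_le_card hsub).trans card_le_six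

/-- **FOR2.** -/
theorem forest (hH : Lin H) {P : Finset (Finset α × Finset α)} (hP : P ⊆ Ch H)
    (hP0 : P.Nonempty) (hPK : ∀ v ∈ P, ∀ w, KR H v w → w ∈ P) (hNB : ∀ v ∈ P, NB H v)
    {C : Finset (Finset α)} (hC : Closed H C) (hPC : ∀ v ∈ P, v.1 ∈ C ∧ v.2 ∈ C)
    (hd : ∀ S ⊆ C, ∀ v ∈ P, v.1 ∈ S → v.2 ∈ S → S.card + 3 ≤ (U S).card) :
    (∑ X ∈ (P.image (disc H)).filter (fun X => own H X < 4), spn H X) + 6 ≤
      6 * (P.image (disc H)).card := by
  classical
  set D := P.image (disc H) with hDdef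
  set D' := D.filter (fun X => own H X < 4) with hD'def
  have hPT : TAc H P := ⟨hP, fun v hv w hw => hPK v hv w (Or.inl hw)⟩
  -- the ordered special triangles
  let W : Finset (Finset α × Finset α) → Finset ((Finset α × Finset α) × Finset α) :=
    fun X => (Tr H X).filter (fun q => isSp H q.1.1 q.1.2 q.2)
  have hspn : ∀ X, spn H X = (W X).card := fun X => by
    simp only [spn, W]
  let TT := D'.biUnion W
  have hWmem : ∀ X ∈ D', ∀ q ∈ W X, q.1 ∈ P ∧ disc H q.1 = X ∧ Tri H q.1.1 q.1.2 q.2 ∧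
      isSp H q.1.1 q.1.2 q.2 := by
    intro X hX q hq
    simp only [W, mem_filter, Tr, mem_product] at hq
    obtain ⟨⟨⟨h1, h2⟩, h3⟩, h4⟩ := hq
    rw [hD'def, mem_filter, hDdef, mem_image] at hX
    obtain ⟨⟨v, hv, rfl⟩, hX2⟩ := hX
    exact ⟨disc_sub_of_TAc hPT hv h1, disc_eq h1, h3, h4⟩
  have hsum : ∑ X ∈ D', spn H X = TT.card := by
    rw [card_biUnion]
    · exact sum_congr rfl (fun X _ => hspn X)
    · intro X hX Y hY hXY
      change Disjoint (W X) (W Y)
      rw [disjoint_left]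
      intro q hq hq'
      exact hXY ((hWmem X hX q hq).2.1.symm.trans (hWmem Y hY q hq').2.1)
  let φ : (Finset α × Finset α) × Finset α → Finset (Finset α) := fun q => {q.1.1, q.1.2, q.2}
  let SS := TT.image φ
  have hTT : ∀ q ∈ TT, q.1 ∈ P ∧ disc H q.1 ∈ D' ∧ Tri H q.1.1 q.1.2 q.2 ∧
      isSp H q.1.1 q.1.2 q.2 := by
    intro q hq
    obtain ⟨X, hX, hq⟩ := mem_biUnion.1 hq
    obtain ⟨h1, h2, h3, h4⟩ := hWmem X hX q hq
    exact ⟨h1, h2 ▸ hX, h3, h4⟩
  have hcard : TT.card ≤ 6 * SS.card := by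
    apply card_le_mul_card_image
    intro a ha
    obtain ⟨q0, hq0, rfl⟩ := mem_image.1 ha
    apply FOR2_six (g := q0.1.1) (l := q0.1.2) (k := q0.2)
    intro q hq
    rw [mem_filter] at hq
    have h3 := (hTT q hq.1).2.2.1
    exact ⟨hq.2, h3.ne12, h3.ne23, h3.ne13⟩
  -- the data of a special triangle
  have key : ∀ s ∈ SS, ∃ g l k p q, s = {g, l, k} ∧ Sp H g l k p q ∧ (g, l) ∈ P ∧ (p, q) ∈ P := by
    intro s hs
    obtain ⟨⟨⟨g, l⟩, k⟩, hq0, rfl⟩ := mem_image.1 hs
    obtain ⟨h1, h2, h3, h4⟩ := hTT _ hq0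
    simp only at h1 h2 h3 h4
    have hown : ∀ w ∈ disc H (g, l), own H (disc H w) < 4 := by
      intro w hw
      rw [disc_eq hw]
      rw [hD'def, mem_filter] at h2
      exact h2.2
    have hgl : (g, l) ∈ disc H (g, l) := mem_disc_self (hP h1)
    have hdT := disc_TAc H (g, l)
    have fin : ∀ g' l' k' p' q', ({g, l, k} : Finset (Finset α)) = {g', l', k'} → Tri H g' l' k' →
        (g', l') ∈ disc H (g, l) → ML H g' l' k' p' → ML H l' k' g' q' →
        ∃ g l k p q, (φ ((g', l'), k')) = {g, l, k} ∧ Sp H g l k p q ∧ (g, l) ∈ P ∧ (p, q) ∈ P := by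
      intro g' l' k' p' q' hs' hT hm hml1 hml2
      have hPgl : (g', l') ∈ P := disc_sub_of_TAc hPT h1 hm
      have hsp := FOR2_Sp hH hC hT hml1 hml2 (hPC _ hPgl).1 (hPC _ hPgl).2
        (fun S hS hg hl => hd S hS _ hPgl hg hl)
      refine ⟨g', l', k', p', q', rfl, hsp, hPgl, ?_⟩
      exact hPK _ hPgl (p', q') (Or.inr (Or.inl ⟨hP hPgl, hNB _ hPgl, hown _ hm, k', hsp⟩))
    have e1 : φ ((g, l), k) = φ ((l, k), g) := by
      simp only [φ]; ext x; simp only [mem_insert, mem_singleton]; tauto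
    have e2 : φ ((g, l), k) = φ ((k, g), l) := by
      simp only [φ]; ext x; simp only [mem_insert, mem_singleton]; tauto
    rcases h4 with ⟨⟨p, hp⟩, ⟨q, hq⟩⟩ | ⟨⟨p, hp⟩, ⟨q, hq⟩⟩ | ⟨⟨p, hp⟩, ⟨q, hq⟩⟩
    · exact fin g l k p q rfl h3 hgl hp hq
    · rw [e1]
      exact fin l k g p q e1 h3.rot (hdT.tri' hgl h3) hp hq
    · rw [e2]
      exact fin k g l q p e2 h3.rot.rot (hdT.swap (hdT.tri hgl h3)) hq hp
  choose! g l k p q hs hsp hgl hpq using key
  -- the witness relation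
  let Wt : Finset (Finset α) → Finset α × Finset α → Prop := fun s V =>
    ∃ L, Wit C (g s) (l s) (k s) (p s) (q s) L ∧ V.1 ∈ L ∧ V.2 ∈ L
  let R : Finset (Finset α) → Finset (Finset α × Finset α) → Prop := fun s X =>
    ∃ V ∈ P, disc H V = X ∧ Wt s V
  have hdW : ∀ s ∈ SS, ∀ S ⊆ C, p s ∈ S → q s ∈ S → S.card + 3 ≤ (U S).card :=
    fun s hs S hS h1 h2 => hd S hS _ (hpq s hs) h1 h2
  have hTAc : ∀ s ∈ SS, TAc H ((Ch H).filter (fun V => Wt s V)) := by
    intro s hs'
    refine ⟨filter_subset _ _, ?_⟩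
    intro v hv w hw
    obtain ⟨hv1, L, hL, hv2, hv3⟩ := mem_filter.1 hv
    have hwC := hw.right
    obtain ⟨-, rfl | ⟨k', hk', rfl⟩⟩ := hw
    · exact mem_filter.2 ⟨hwC, L, hL, hv3, hv2⟩
    · refine mem_filter.2 ⟨hwC, insert k' L, ?_, mem_insert_of_mem hv2, mem_insert_self _ _⟩
      apply Wit.grow hH hC (hsp s hs') (hPC _ (hgl s hs')).1 (hPC _ (hgl s hs')).2 (hdW s hs') hL
        hk'.2.2.1
      obtain ⟨x, hx⟩ := hk'.2.2.2.2.1
      obtain ⟨y, hy⟩ := hk'.2.2.2.2.2.1
      have h0 := hk'.2.2.2.2.2.2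
      rw [mem_inter] at hx hy
      refine FOR2_two (x := x) (y := y) ?_ hx.2 hy.2 (subset_U hv3 hx.1) (subset_U hv2 hy.1)
      rintro rfl
      have : x ∈ v.1 ∩ v.2 ∩ k' := by simp [hx.1, hx.2, hy.1]
      rw [h0] at this
      simp at this
  have hR : ∀ s ∈ SS, ∀ V ∈ P, (R s (disc H V) ↔ Wt s V) := by
    intro s hs' V hV
    constructor
    · rintro ⟨V', hV', hdV, hWt⟩
      have h1 := disc_sub_of_TAc (hTAc s hs') (v := V') (mem_filter.2 ⟨hP hV', hWt⟩)
      rw [hdV] at h1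
      exact (mem_filter.1 (h1 (mem_disc_self (hP hV)))).2
    · intro h
      exact ⟨V, hV, rfl, h⟩
  have hlin := lin_ind SS D (hP0.image _) (fun s => disc H (g s, l s)) (fun s => disc H (p s, q s)) R
    (fun s hs' => mem_image_of_mem _ (hgl s hs')) (fun s hs' => mem_image_of_mem _ (hpq s hs'))
    (by
      intro s hs'
      refine ⟨(hR s hs' _ (hpq s hs')).2 ⟨{p s, q s}, ?_, by simp, by simp⟩, ?_⟩
      · exact Wit.pair hH hC (hsp s hs') (hPC _ (hgl s hs')).1 (hPC _ (hgl s hs')).2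
      · intro h
        obtain ⟨L, hL, h1, -⟩ := (hR s hs' _ (hgl s hs')).1 h
        exact hL.hg h1)
    (by
      intro s hs1 s' hs2 hne
      rw [hR s hs1 _ (hgl s' hs2), hR s hs1 _ (hpq s' hs2)]
      apply Wit.exch hH hC (hsp s hs1) (hPC _ (hgl s hs1)).1 (hPC _ (hgl s hs1)).2 (hdW s hs1)
        (hsp s' hs2) (hPC _ (hgl s' hs2)).1 (hPC _ (hgl s' hs2)).2
      rw [← hs s' hs2, ← hs s hs1]
      exact hne)
  rw [hsum]
  omega

end Pool.Agent.BR2
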