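import Mathlib

/-! # Project BR2, module LOC: the local inequality in a partial Steiner triple system -/

set_option autoImplicit false

namespace Pool.Agent.BR2

open Finset

/-- Indicator with values in the integers. -/
def bt (p : Prop) [Decidable p] : ℤ := if p then 1 else 0

/-- the six booleans -/
abbrev LocV : Type := Bool × Bool × Bool × Bool × Bool × Bool

/-- boolean to integer -/
def locb (b : Bool) : ℤ := if b then 1 else 0

theorem locb_decide (p : Prop) [Decidable p] : locb (decide p) = bt p := by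
  unfold locb bt
  by_cases h : p <;> simp [h]

/-- the summand of the theorem -/
def locc0 (v : LocV) : ℤ :=
  3 - 2 * (locb v.1 + locb v.2.1 + locb v.2.2.1) +
    6 * locb (decide (2 ≤ locb v.2.2.2.1 + locb v.2.2.2.2.1 + locb v.2.2.2.2.2))

/-- the corner terms -/
def loccor (y z o : Bool) : ℤ :=
  2 * locb (y && z && !o) - locb (y && o && !z) - locb (z && o && !y)

/-- the corrected summand -/
def locc1 (v : LocV) : ℤ :=
  locc0 v + loccor v.2.1 v.2.2.1 v.2.2.2.1 + loccor v.1 v.2.2.1 v.2.2.2.2.1 +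
    loccor v.1 v.2.1 v.2.2.2.2.2

/-- exchange of `A` and `B` -/
def locsw (v : LocV) : LocV :=
  (v.2.1, v.1, v.2.2.1, v.2.2.2.2.1, v.2.2.2.1, v.2.2.2.2.2)

/-- rotation `(A, B, C) ↦ (B, C, A)` -/
def locrt (v : LocV) : LocV :=
  (v.2.1, v.2.2.1, v.1, v.2.2.2.2.1, v.2.2.2.2.2, v.2.2.2.1)

/-- the negative configuration -/
def locN (v : LocV) : Bool :=
  v.2.2.2.1 && v.2.1 && v.2.2.1 && !v.1 && !v.2.2.2.2.1 && !v.2.2.2.2.2

/-- first kind of receivers -/
def locR1 (v : LocV) : Bool :=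
  decide (1 ≤ locc1 v) && (v.2.1 && !v.2.2.1 && !v.2.2.2.1)

/-- second kind of receivers -/
def locR2 (v : LocV) : Bool :=
  decide (1 ≤ locc1 v) && (v.2.1 && v.2.2.1 && v.2.2.2.1)

/-- the summand after discharging -/
def locf (v : LocV) : ℤ :=
  locc1 v - 3 * (locb (locR1 v) + locb (locR2 v)) + 3 * locb (decide (locc1 v ≤ 0) && locN v)

theorem locf_six (v : LocV) : 0 ≤ locf v + locf (locrt v) + locf (locrt (locrt v)) +
    (locf (locsw v) + locf (locrt (locsw v)) + locf (locrt (locrt (locsw v)))) := by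
  revert v
  decide

theorem locpsi (u s r v : Bool) : locR1 (u, true, false, false, s, r) = true ∨
    locR2 (r, true, true, true, v, u) = true := by
  revert u s r v
  decide

section

variable {P : Type*} (J : P → P → Prop) [DecidableRel J] (op : P → P → P)

/-- the booleans of a triple -/
def loccd (τ : P × P × P) : LocV :=
  (decide (J τ.1 (op τ.2.1 τ.2.2)), decide (J τ.2.1 (op τ.1 τ.2.2)),
    decide (J τ.2.2 (op τ.1 τ.2.1)),
    decide (J (op τ.1 τ.2.2) (op τ.1 τ.2.1)), decide (J (op τ.1 τ.2.1) (op τ.2.1 τ.2.2)),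
    decide (J (op τ.2.1 τ.2.2) (op τ.1 τ.2.2)))

variable {J op}

theorem loccd_sw (Js : ∀ x y, J x y → J y x) (opc : ∀ x y, J x y → op x y = op y x)
    {A B C : P} (h : J A B) :
    loccd J op (B, A, C) = locsw (loccd J op (A, B, C)) := by
  have hs : ∀ x y, decide (J x y) = decide (J y x) := fun x y =>
    decide_eq_decide.2 ⟨Js x y, Js y x⟩
  simp only [loccd, locsw, Prod.mk.injEq]
  rw [opc A B h]
  refine ⟨?_, ?_, ?_, ?_, ?_, ?_⟩ <;> first | trivial | rfl | exact hs _ _

theorem loccd_rt (opc : ∀ x y, J x y → op x y = op y x)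
    {A B C : P} (h : J A B) (h' : J A C) :
    loccd J op (B, C, A) = locrt (loccd J op (A, B, C)) := by
  simp only [loccd, locrt, Prod.mk.injEq]
  rw [opc A B h, opc A C h']
  refine ⟨?_, ?_, ?_, ?_, ?_, ?_⟩ <;> trivial

end

/-- **LOC.** `J` = joined (by a line), `op x y` = third point of the line.  `T` is a set of
ordered noncollinear triples of pairwise joined points, closed under permutations and under
`(A, B, C) ↦ (A, B, op A C)` if `B` is joined to `op A C`. -/
theorem loc {P : Type*} [DecidableEq P] (J : P → P → Prop) [DecidableRel J] (op : P → P → P)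
    (Js : ∀ x y, J x y → J y x) (Jn : ∀ x y, J x y → x ≠ y)
    (opc : ∀ x y, J x y → op x y = op y x)
    (Jo : ∀ x y, J x y → J x (op x y)) (oo : ∀ x y, J x y → op x (op x y) = y)
    (T : Finset (P × P × P))
    (hT : ∀ A B C, (A, B, C) ∈ T → J A B ∧ J B C ∧ J A C ∧ C ≠ op A B)
    (h1 : ∀ A B C, (A, B, C) ∈ T → (B, A, C) ∈ T)
    (h2 : ∀ A B C, (A, B, C) ∈ T → (B, C, A) ∈ T)
    (h3 : ∀ A B C, (A, B, C) ∈ T → J B (op A C) → (A, B, op A C) ∈ T) :
    (0 : ℤ) ≤ ∑ τ ∈ T, (3
      - 2 * (bt (J τ.1 (op τ.2.1 τ.2.2)) + bt (J τ.2.1 (op τ.1 τ.2.2)) +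
          bt (J τ.2.2 (op τ.1 τ.2.1)))
      + 6 * bt (2 ≤ bt (J (op τ.1 τ.2.2) (op τ.1 τ.2.1)) + bt (J (op τ.1 τ.2.1) (op τ.2.1 τ.2.2))
          + bt (J (op τ.2.1 τ.2.2) (op τ.1 τ.2.2)))) := by
  have h2' : ∀ A B C, (A, B, C) ∈ T → (C, A, B) ∈ T := fun A B C h => h2 _ _ _ (h2 _ _ _ h)
  set cd := loccd J op with hcd
  -- the sum in terms of the booleans
  have e0 : ∑ τ ∈ T, (3
      - 2 * (bt (J τ.1 (op τ.2.1 τ.2.2)) + bt (J τ.2.1 (op τ.1 τ.2.2)) +
          bt (J τ.2.2 (op τ.1 τ.2.1)))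
      + 6 * bt (2 ≤ bt (J (op τ.1 τ.2.2) (op τ.1 τ.2.1)) + bt (J (op τ.1 τ.2.1) (op τ.2.1 τ.2.2))
          + bt (J (op τ.2.1 τ.2.2) (op τ.1 τ.2.2)))) = ∑ τ ∈ T, locc0 (cd τ) := by
    apply Finset.sum_congr rfl
    intro τ _
    simp only [locc0, hcd, loccd, locb_decide]
  rw [e0]
  -- invariance under permutations
  have ssw : ∀ F : LocV → ℤ, ∑ τ ∈ T, F (locsw (cd τ)) = ∑ τ ∈ T, F (cd τ) := by
    intro F
    refine Finset.sum_nbij' (fun τ => (τ.2.1, τ.1, τ.2.2)) (fun τ => (τ.2.1, τ.1, τ.2.2))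
      ?_ ?_ ?_ ?_ ?_
    · rintro ⟨A, B, C⟩ h
      exact h1 _ _ _ h
    · rintro ⟨A, B, C⟩ h
      exact h1 _ _ _ h
    · rintro ⟨A, B, C⟩ _
      rfl
    · rintro ⟨A, B, C⟩ _
      rfl
    · rintro ⟨A, B, C⟩ h
      rw [hcd, loccd_sw Js opc (hT _ _ _ h).1]
  have srt : ∀ F : LocV → ℤ, ∑ τ ∈ T, F (locrt (cd τ)) = ∑ τ ∈ T, F (cd τ) := by
    intro F
    refine Finset.sum_nbij' (fun τ => (τ.2.1, τ.2.2, τ.1)) (fun τ => (τ.2.2, τ.1, τ.2.1))
      ?_ ?_ ?_ ?_ ?_
    · rintro ⟨A, B, C⟩ h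
      exact h2 _ _ _ h
    · rintro ⟨A, B, C⟩ h
      exact h2' _ _ _ h
    · rintro ⟨A, B, C⟩ _
      rfl
    · rintro ⟨A, B, C⟩ _
      rfl
    · rintro ⟨A, B, C⟩ h
      rw [hcd, loccd_rt opc (hT _ _ _ h).1 (hT _ _ _ h).2.2.1]
  -- the involution
  have sinv : ∑ τ ∈ T, locb ((cd τ).2.1 && (cd τ).2.2.1 && !(cd τ).2.2.2.1) =
      ∑ τ ∈ T, locb ((cd τ).2.1 && (cd τ).2.2.2.1 && !(cd τ).2.2.1) := by
    have hfil : ∀ F : P × P × P → Bool, ∑ τ ∈ T, locb (F τ) =
        ((T.filter (fun τ => F τ = true)).card : ℤ) := by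
      intro F
      rw [Finset.card_filter]
      push_cast
      apply Finset.sum_congr rfl
      intro τ _
      simp [locb]
    rw [hfil (fun τ => (cd τ).2.1 && (cd τ).2.2.1 && !(cd τ).2.2.2.1),
      hfil (fun τ => (cd τ).2.1 && (cd τ).2.2.2.1 && !(cd τ).2.2.1)]
    congr 1
    have key : ∀ A B C, (A, B, C) ∈ T → J B (op A C) →
        (A, B, op A C) ∈ T ∧ op A (op A C) = C ∧ J B C := by
      intro A B C h hβ
      exact ⟨h3 _ _ _ h hβ, oo _ _ (hT _ _ _ h).2.2.1, (hT _ _ _ h).2.1⟩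
    refine Finset.card_nbij' (fun τ => (τ.1, τ.2.1, op τ.1 τ.2.2))
      (fun τ => (τ.1, τ.2.1, op τ.1 τ.2.2)) ?_ ?_ ?_ ?_
    · rintro ⟨A, B, C⟩ h
      simp only [hcd, loccd, Finset.coe_filter, Set.mem_ofPred_eq, Bool.and_eq_true,
        decide_eq_true_eq, Bool.not_eq_true', decide_eq_false_iff_not] at h ⊢
      obtain ⟨k1, k2, k3⟩ := key A B C h.1 h.2.1.1
      rw [k2]
      exact ⟨k1, ⟨k3, h.2.1.2⟩, h.2.2⟩
    · rintro ⟨A, B, C⟩ h
      simp only [hcd, loccd, Finset.coe_filter, Set.mem_ofPred_eq, Bool.and_eq_true,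
        decide_eq_true_eq, Bool.not_eq_true', decide_eq_false_iff_not] at h ⊢
      obtain ⟨k1, k2, k3⟩ := key A B C h.1 h.2.1.1
      rw [k2]
      exact ⟨k1, ⟨k3, h.2.1.2⟩, h.2.2⟩
    · rintro ⟨A, B, C⟩ h
      simp only [hcd, loccd, Finset.coe_filter, Set.mem_ofPred_eq, Bool.and_eq_true,
        decide_eq_true_eq, Bool.not_eq_true', decide_eq_false_iff_not] at h ⊢
      obtain ⟨k1, k2, k3⟩ := key A B C h.1 h.2.1.1
      rw [k2]
    · rintro ⟨A, B, C⟩ h
      simp only [hcd, loccd, Finset.coe_filter, Set.mem_ofPred_eq, Bool.and_eq_true,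
        decide_eq_true_eq, Bool.not_eq_true', decide_eq_false_iff_not] at h ⊢
      obtain ⟨k1, k2, k3⟩ := key A B C h.1 h.2.1.1
      rw [k2]
  -- the corner at `A`
  have sA : ∑ τ ∈ T, loccor (cd τ).2.1 (cd τ).2.2.1 (cd τ).2.2.2.1 = 0 := by
    have hsw : ∑ τ ∈ T, locb ((cd τ).2.2.1 && (cd τ).2.2.2.1 && !(cd τ).2.1) =
        ∑ τ ∈ T, locb ((cd τ).2.1 && (cd τ).2.2.2.1 && !(cd τ).2.2.1) := by
      -- exchange of `B` and `C`: `rt ∘ sw`
      have e1 := srt (fun v => locb (v.2.1 && v.2.2.2.1 && !v.2.2.1))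
      have e2 := ssw (fun v => locb ((locrt v).2.1 && (locrt v).2.2.2.1 && !(locrt v).2.2.1))
      have e3 := srt (fun v => locb ((locrt (locsw v)).2.1 && (locrt (locsw v)).2.2.2.1 &&
        !(locrt (locsw v)).2.2.1))
      have e4 := srt (fun v => locb ((locrt (locsw (locrt v))).2.1 &&
        (locrt (locsw (locrt v))).2.2.2.1 && !(locrt (locsw (locrt v))).2.2.1))
      simp only [locrt, locsw] at e1 e2 e3 e4 ⊢
      linarith
    simp only [loccor, Finset.sum_sub_distrib, ← Finset.mul_sum]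
    rw [sinv, hsw]
    ring
  have sB : ∑ τ ∈ T, loccor (cd τ).1 (cd τ).2.2.1 (cd τ).2.2.2.2.1 = 0 := by
    have e1 := ssw (fun v => loccor v.2.1 v.2.2.1 v.2.2.2.1)
    simp only [locsw] at e1
    rw [e1, sA]
  have sC : ∑ τ ∈ T, loccor (cd τ).1 (cd τ).2.1 (cd τ).2.2.2.2.2 = 0 := by
    have e1 := srt (fun v => loccor v.1 v.2.2.1 v.2.2.2.2.1)
    simp only [locrt] at e1
    rw [sB] at e1
    rw [← e1]
    apply Finset.sum_congr rfl
    intro τ _
    generalize cd τ = v
    revert v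
    decide
  have sc : ∑ τ ∈ T, locc0 (cd τ) = ∑ τ ∈ T, locc1 (cd τ) := by
    simp only [locc1, Finset.sum_add_distrib]
    rw [sA, sB, sC]
    ring
  rw [sc]
  -- the sum of `f`
  have sf : 0 ≤ ∑ τ ∈ T, locf (cd τ) := by
    have e1 := srt locf
    have e2 := srt (fun v => locf (locrt v))
    have e3 := ssw locf
    have e4 := ssw (fun v => locf (locrt v))
    have e5 := ssw (fun v => locf (locrt (locrt v)))
    have e6 : 0 ≤ ∑ τ ∈ T, (locf (cd τ) + locf (locrt (cd τ)) + locf (locrt (locrt (cd τ))) +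
        (locf (locsw (cd τ)) + locf (locrt (locsw (cd τ))) +
          locf (locrt (locrt (locsw (cd τ)))))) :=
      Finset.sum_nonneg fun τ _ => locf_six (cd τ)
    simp only [Finset.sum_add_distrib] at e6
    linarith
  -- the discharging
  have hfil : ∀ F : LocV → Bool, ∑ τ ∈ T, locb (F (cd τ)) =
      ((T.filter (fun τ => F (cd τ) = true)).card : ℤ) := by
    intro F
    rw [Finset.card_filter]
    push_cast
    apply Finset.sum_congr rfl
    intro τ _
    simp [locb]
  have sd : ∑ τ ∈ T, locb (locN (cd τ)) ≤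
      ∑ τ ∈ T, locb (locR1 (cd τ)) + ∑ τ ∈ T, locb (locR2 (cd τ)) := by
    rw [hfil, hfil, hfil]
    have hsub : T.filter (fun τ => locN (cd τ) = true) ⊆
        T.filter (fun τ => locN (cd τ) = true ∧ locR1 (cd (τ.2.1, τ.2.2, op τ.1 τ.2.1)) = true) ∪
        T.filter (fun τ => locN (cd τ) = true ∧
          locR2 (cd (τ.1, τ.2.2, op τ.1 τ.2.1)) = true) := by
      rintro ⟨A, B, C⟩ h
      rw [Finset.mem_filter] at h
      rw [Finset.mem_union, Finset.mem_filter, Finset.mem_filter]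
      obtain ⟨hτ, hN⟩ := h
      obtain ⟨jAB, jBC, jAC, -⟩ := hT _ _ _ hτ
      have hN' := hN
      simp only [hcd, locN, loccd, Bool.and_eq_true, decide_eq_true_eq, Bool.not_eq_true',
        decide_eq_false_iff_not] at hN'
      obtain ⟨⟨⟨⟨⟨noA, nβ⟩, nγ⟩, nα⟩, noB⟩, noC⟩ := hN'
      have o1 : op B (op A B) = A := by
        rw [opc A B jAB]
        exact oo _ _ (Js _ _ jAB)
      have o2 : op A (op A B) = B := oo _ _ jAB
      set q := op C (op A B) with hq
      have hs : ∀ x y, decide (J x y) = decide (J y x) := fun x y =>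
        decide_eq_decide.2 ⟨Js x y, Js y x⟩
      have c1 : cd (B, C, op A B) =
          (decide (J B q), true, false, false, decide (J (op B C) q), decide (J A q)) := by
        simp only [hcd, loccd, Prod.mk.injEq]
        rw [o1]
        refine ⟨rfl, ?_, ?_, ?_, rfl, hs _ _⟩
        · exact decide_eq_true (Js _ _ jAC)
        · exact decide_eq_false noB
        · exact decide_eq_false nα
      have c2 : cd (A, C, op A B) =
          (decide (J A q), true, true, true, decide (J (op A C) q), decide (J B q)) := by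
        simp only [hcd, loccd, Prod.mk.injEq]
        rw [o2]
        refine ⟨rfl, ?_, ?_, ?_, rfl, hs _ _⟩
        · exact decide_eq_true (Js _ _ jBC)
        · exact decide_eq_true (Js _ _ noA)
        · exact decide_eq_true nβ
      rcases locpsi (decide (J B q)) (decide (J (op B C) q)) (decide (J A q))
        (decide (J (op A C) q)) with h | h
      · left
        refine ⟨hτ, hN, ?_⟩
        simp only
        rw [c1]
        exact h
      · right
        refine ⟨hτ, hN, ?_⟩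
        simp only
        rw [c2]
        exact h
    have hc1 : (T.filter (fun τ => locN (cd τ) = true ∧
        locR1 (cd (τ.2.1, τ.2.2, op τ.1 τ.2.1)) = true)).card ≤
        (T.filter (fun τ => locR1 (cd τ) = true)).card := by
      apply Finset.card_le_card_of_injOn (fun τ => (τ.2.1, τ.2.2, op τ.1 τ.2.1))
      · rintro ⟨A, B, C⟩ h
        rw [Finset.mem_coe, Finset.mem_filter] at h
        rw [Finset.mem_coe, Finset.mem_filter]
        obtain ⟨hτ, hN, hR⟩ := h
        refine ⟨?_, hR⟩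
        simp only [hcd, locN, loccd, Bool.and_eq_true, decide_eq_true_eq, Bool.not_eq_true',
          decide_eq_false_iff_not] at hN
        have := h3 _ _ _ (h2 _ _ _ hτ)
          (by rw [← opc A B (hT _ _ _ hτ).1]; exact hN.1.1.1.2)
        rwa [← opc A B (hT _ _ _ hτ).1] at this
      · rintro ⟨A, B, C⟩ h ⟨A', B', C'⟩ h' hh
        rw [Finset.mem_coe, Finset.mem_filter] at h h'
        simp only [Prod.mk.injEq] at hh
        obtain ⟨e1, e2, e3⟩ := hh
        subst e1 e2
        have j1 := (hT _ _ _ h.1).1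
        have j2 := (hT _ _ _ h'.1).1
        have o1 : op B (op A B) = A := by
          rw [opc A B j1]
          exact oo _ _ (Js _ _ j1)
        have o2 : op B (op A' B) = A' := by
          rw [opc A' B j2]
          exact oo _ _ (Js _ _ j2)
        rw [← o1, e3, o2]
    have hc2 : (T.filter (fun τ => locN (cd τ) = true ∧
        locR2 (cd (τ.1, τ.2.2, op τ.1 τ.2.1)) = true)).card ≤
        (T.filter (fun τ => locR2 (cd τ) = true)).card := by
      apply Finset.card_le_card_of_injOn (fun τ => (τ.1, τ.2.2, op τ.1 τ.2.1))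
      · rintro ⟨A, B, C⟩ h
        rw [Finset.mem_coe, Finset.mem_filter] at h
        rw [Finset.mem_coe, Finset.mem_filter]
        obtain ⟨hτ, hN, hR⟩ := h
        refine ⟨?_, hR⟩
        simp only [hcd, locN, loccd, Bool.and_eq_true, decide_eq_true_eq, Bool.not_eq_true',
          decide_eq_false_iff_not] at hN
        exact h3 _ _ _ (h1 _ _ _ (h2' _ _ _ hτ)) hN.1.1.1.2
      · rintro ⟨A, B, C⟩ h ⟨A', B', C'⟩ h' hh
        rw [Finset.mem_coe, Finset.mem_filter] at h h'
        simp only [Prod.mk.injEq] at hh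
        obtain ⟨e1, e2, e3⟩ := hh
        subst e1 e2
        have o1 := oo _ _ (hT _ _ _ h.1).1
        have o2 := oo _ _ (hT _ _ _ h'.1).1
        rw [← o1, e3, o2]
    have := (Finset.card_le_card hsub).trans (Finset.card_union_le _ _)
    have h5 := this.trans (Nat.add_le_add hc1 hc2)
    exact_mod_cast h5
  have sg : ∑ τ ∈ T, locf (cd τ) ≤ ∑ τ ∈ T, locc1 (cd τ) := by
    have e1 : ∀ v : LocV, locf v ≤
        locc1 v - 3 * (locb (locR1 v) + locb (locR2 v)) + 3 * locb (locN v) := by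
      decide
    have e2 := Finset.sum_le_sum (s := T) (fun τ _ => e1 (cd τ))
    simp only [Finset.sum_add_distrib, Finset.sum_sub_distrib, ← Finset.mul_sum] at e2
    linarith
  linarith

end Pool.Agent.BR2
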