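import Pool.Agent.BR2.NBX
import Pool.Agent.BR2.PEND
import Pool.Agent.BR2.DEG

/-! # Project BR2, module PAY1 -/

set_option autoImplicit false

namespace Pool.Agent.BR2

open Finset

variable {α : Type*} [DecidableEq α] {H S T M A : Finset (Finset α)} {e : ℕ}

/-- The pendant point `x` of `X` and the other two points of its line have large degree. -/
def costly {n : ℕ} (H : Finset (Finset (Fin n))) (X : Finset (Finset (Fin n) × Finset (Fin n)))
    (x : Fin n) : Prop :=
  n - 1 < 10 * deg H x ∧ ∀ h ∈ Ln X, x ∈ h → ∀ y ∈ h, y ≠ x → n - 1 < 6 * deg H y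

private theorem PAY1_deg_two {T : Finset (Finset α)} {h h' : Finset α} {x : α} (h1 : h ∈ T)
    (h2 : h' ∈ T) (hne : h ≠ h') (hx : x ∈ h) (hx' : x ∈ h') : 2 ≤ deg T x := by
  unfold deg
  rw [← card_pair hne]
  apply card_le_card
  intro z hz
  simp only [mem_insert, mem_singleton] at hz
  rcases hz with rfl | rfl
  · exact mem_filter.2 ⟨h1, hx⟩
  · exact mem_filter.2 ⟨h2, hx'⟩

private theorem PAY1_Ln_left {X : Finset (Finset α × Finset α)} {h h' : Finset α}
    (hx : (h, h') ∈ X) : h ∈ Ln X :=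
  mem_union_left _ (mem_image.2 ⟨_, hx, rfl⟩)

private theorem PAY1_Ln_right {X : Finset (Finset α × Finset α)} {h h' : Finset α}
    (hx : (h, h') ∈ X) : h' ∈ Ln X :=
  mem_union_right _ (mem_image.2 ⟨_, hx, rfl⟩)

/-- The points of a line of a disc with more than one square, other than a pendant point, have
degree at least two. -/
theorem disc_deg_two (hH : Lin H) {v : Finset α × Finset α} (hv : v ∈ Ch H)
    (h2 : 2 < (disc H v).card) {h : Finset α} (hh : h ∈ Ln (disc H v)) :
    ∃ x y : α, x ≠ y ∧ x ∈ h ∧ y ∈ h ∧ 2 ≤ deg (Ln (disc H v)) x ∧ 2 ≤ deg (Ln (disc H v)) y ∧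
      (∃ h', (h, h') ∈ disc H v ∧ x ∈ h') ∧ (∃ h', (h, h') ∈ disc H v ∧ y ∈ h') := by
  have hX := disc_TAc H v
  obtain ⟨h', hh'⟩ : ∃ h', (h, h') ∈ disc H v := by
    simp only [Ln, mem_union, mem_image] at hh
    rcases hh with ⟨w, hw, rfl⟩ | ⟨w, hw, rfl⟩
    · exact ⟨w.2, hw⟩
    · exact ⟨w.1, hX.swap (g := w.1) (l := w.2) hw⟩
  have hk : ∃ k, Tri H h h' k := by
    by_contra hcon
    push Not at hcon
    have hY : TAc H ({(h, h'), (h', h)} : Finset (Finset α × Finset α)) := by
      refine ⟨?_, ?_⟩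
      · intro w hw
        simp only [mem_insert, mem_singleton] at hw
        rcases hw with rfl | rfl
        · exact hX.1 hh'
        · exact hX.1 (hX.swap hh')
      · intro w hw u hu
        simp only [mem_insert, mem_singleton] at hw
        obtain ⟨-, hu | ⟨k, hk, hu⟩⟩ := hu
        · rcases hw with rfl | rfl
          · rw [hu]; simp
          · rw [hu]; simp
        · exfalso
          rcases hw with rfl | rfl
          · exact hcon k hk
          · exact hcon k hk.swap12
    have h3 := disc_sub_of_TAc hY (v := (h, h')) (by simp)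
    rw [disc_eq hh'] at h3
    have h4 := card_le_card h3
    have h5 : ({(h, h'), (h', h)} : Finset (Finset α × Finset α)).card ≤ 2 := card_le_two
    omega
  obtain ⟨k, hk⟩ := hk
  have hhk : (h, k) ∈ disc H v := hX.tri hh' hk
  obtain ⟨x, hx⟩ := hk.2.2.2.1
  obtain ⟨y, hy⟩ := hk.2.2.2.2.2.1
  have h0 := hk.2.2.2.2.2.2
  rw [mem_inter] at hx hy
  refine ⟨x, y, ?_, hx.1, hy.1, ?_, ?_, ⟨h', hh', hx.2⟩, ⟨k, hhk, hy.2⟩⟩
  · rintro rfl
    have : x ∈ h ∩ h' ∩ k := by simp [hx.1, hx.2, hy.2]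
    rw [h0] at this
    simp at this
  · exact PAY1_deg_two (PAY1_Ln_left hh') (PAY1_Ln_right hh') hk.ne12 hx.1 hx.2
  · exact PAY1_deg_two (PAY1_Ln_left hhk) (PAY1_Ln_right hhk) hk.ne13 hy.1 hy.2

open scoped Classical in
/-- **PAY1.** -/
theorem pay1 {n : ℕ} {H : Finset (Finset (Fin n))} (hH : Lin H) (hF : Free H e) (he : 3 ≤ e)
    {v : Finset (Fin n) × Finset (Fin n)} (hv : v ∈ Ch H) (hN : NB H v) (hb : Bad H e v)
    (h2 : 2 < (disc H v).card) (hn : 20 * (e + 2) ^ 2 ≤ n) :
    ((pend (disc H v)).filter (fun x => costly H (disc H v) x)).card ≤ 5 := by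
  by_contra hcon
  push Not at hcon
  obtain ⟨Pi, hPi, hPic⟩ := exists_subset_card_eq (n := 6)
    (s := (pend (disc H v)).filter (fun x => costly H (disc H v) x)) hcon
  set X := disc H v with hXdef
  obtain ⟨A, hA, hAe, hAd, hA1, hA2⟩ := hb
  obtain ⟨g1, g2⟩ := grow hH hF hA hAe hAd (by norm_num)
  have hcl := cl_closed H A
  have hAcl := subset_cl hA
  have hsub : X ⊆ Ch (cl H A) := disc_sub_closed hH hcl (hAcl hA1) (hAcl hA2) hv
  have hLn : Ln X ⊆ cl H A := by
    intro h hh
    simp only [Ln, mem_union, mem_image] at hh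
    rcases hh with ⟨w, hw, rfl⟩ | ⟨w, hw, rfl⟩
    · exact (mem_Ch.1 (hsub hw)).1
    · exact (mem_Ch.1 (hsub hw)).2.1
  have hds := deg_sum hH hF (cl_sub H A) ⟨v.1, hAcl hA1⟩ g1 g2
  -- the data of the pendant points
  have key : ∀ x ∈ Pi, ∃ h ∈ Ln X, ∃ y z, y ≠ z ∧ y ≠ x ∧ z ≠ x ∧ x ∈ h ∧ y ∈ h ∧ z ∈ h ∧
      2 ≤ deg (Ln X) y ∧ 2 ≤ deg (Ln X) z ∧ deg (Ln X) x = 1 ∧ n ≤ 10 * deg H x ∧
      n ≤ 6 * deg H y ∧ n ≤ 6 * deg H z := by
    intro x hx
    have hx' := hPi hx
    simp only [mem_filter, pend] at hx'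
    obtain ⟨⟨hxU, hx1⟩, hc1, hc2⟩ := hx'
    obtain ⟨h, hh, hxh⟩ := mem_U.1 hxU
    obtain ⟨y, z, hyz, hy, hz, dy, dz, -, -⟩ := disc_deg_two hH hv h2 hh
    rw [← hXdef] at dy dz
    have hyx : y ≠ x := by rintro rfl; omega
    have hzx : z ≠ x := by rintro rfl; omega
    refine ⟨h, hh, y, z, hyz, hyx, hzx, hxh, hy, hz, dy, dz, hx1, by omega, ?_, ?_⟩
    · have := hc2 h hh hxh y hy hyx
      omega
    · have := hc2 h hh hxh z hz hzx
      omega
  choose! ln hln y z hyz hyx hzx hxl hyl hzl dy dz dx nx ny nz using key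
  set Z : Finset (Fin n) := Pi.biUnion (fun x => {y x, z x}) with hZ
  have hZdeg : ∀ w ∈ Z, 2 ≤ deg (Ln X) w ∧ n ≤ 6 * deg H w ∧ w ∈ U (Ln X) := by
    intro w hw
    simp only [hZ, mem_biUnion, mem_insert, mem_singleton] at hw
    obtain ⟨x, hx, rfl | rfl⟩ := hw
    · exact ⟨dy x hx, ny x hx, subset_U (hln x hx) (hyl x hx)⟩
    · exact ⟨dz x hx, nz x hx, subset_U (hln x hx) (hzl x hx)⟩
  have hdisj : Disjoint Pi Z := by
    rw [disjoint_left]
    intro w hw hw'
    have h1 := dx w hw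
    have h3 := (hZdeg w hw').1
    omega
  have hZc : 4 ≤ Z.card := by
    have hinj : Set.InjOn (fun x => ({y x, z x} : Finset (Fin n))) Pi := by
      intro x hx x' hx' hxx
      simp only at hxx
      have hx0 : x ∈ Pi := hx
      have hx0' : x' ∈ Pi := hx'
      have hyy : y x ∈ ln x' := by
        have : y x ∈ ({y x', z x'} : Finset (Fin n)) := by rw [← hxx]; simp
        simp only [mem_insert, mem_singleton] at this
        rcases this with h | h
        · rw [h]; exact hyl x' hx0'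
        · rw [h]; exact hzl x' hx0'
      have hzz : z x ∈ ln x' := by
        have : z x ∈ ({y x', z x'} : Finset (Fin n)) := by rw [← hxx]; simp
        simp only [mem_insert, mem_singleton] at this
        rcases this with h | h
        · rw [h]; exact hyl x' hx0'
        · rw [h]; exact hzl x' hx0'
      have hll : ln x = ln x' := hH.eq_of_two (cl_sub H A (hLn (hln x hx0)))
        (cl_sub H A (hLn (hln x' hx0'))) (hyz x hx0) (hyl x hx0) (hzl x hx0) hyy hzz
      -- the line has three points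
      by_contra hne
      have h3 := hH.three _ (cl_sub H A (hLn (hln x hx0)))
      have h4 : ({x, x', y x, z x} : Finset (Fin n)) ⊆ ln x := by
        intro w hw
        simp only [mem_insert, mem_singleton] at hw
        rcases hw with rfl | rfl | rfl | rfl
        · exact hxl _ hx0
        · rw [hll]; exact hxl _ hx0'
        · exact hyl _ hx0
        · exact hzl _ hx0
      have e1 : x' ≠ y x := by
        intro h
        have h5 := dx x' hx0'
        have h6 := dy x hx0
        rw [← h] at h6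
        omega
      have e2 : x' ≠ z x := by
        intro h
        have h5 := dx x' hx0'
        have h6 := dz x hx0
        rw [← h] at h6
        omega
      have h7 : ({x, x', y x, z x} : Finset (Fin n)).card = 4 := by
        rw [card_insert_of_notMem (by simp [hne, (hyx x hx0).symm, (hzx x hx0).symm]),
          card_insert_of_notMem (by simp [e1, e2]), card_pair (hyz x hx0)]
      have h8 := card_le_card h4
      omega
    have hmaps : ∀ x ∈ Pi, ({y x, z x} : Finset (Fin n)) ∈ Z.powersetCard 2 := by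
      intro x hx
      rw [mem_powersetCard]
      refine ⟨?_, card_pair (hyz x hx)⟩
      intro w hw
      exact mem_biUnion.2 ⟨x, hx, hw⟩
    have h9 := card_le_card_of_injOn _ hmaps hinj
    rw [hPic, card_powersetCard] at h9
    by_contra hlt
    push Not at hlt
    have : Z.card.choose 2 ≤ (3 : ℕ).choose 2 := Nat.choose_le_choose 2 (by omega)
    have h10 : (3 : ℕ).choose 2 = 3 := by decide
    omega
  -- the sum
  have hsubU : Pi ∪ Z ⊆ U (cl H A) := by
    intro w hw
    rw [mem_union] at hw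
    rcases hw with hw | hw
    · exact U_mono hLn (subset_U (hln w hw) (hxl w hw))
    · exact U_mono hLn (hZdeg w hw).2.2
  have hs1 : ∑ w ∈ Pi ∪ Z, deg H w ≤ ∑ w ∈ U (cl H A), deg H w :=
    sum_le_sum_of_subset hsubU
  rw [sum_union hdisj] at hs1
  have hs2 : 6 * n ≤ 10 * ∑ w ∈ Pi, deg H w := by
    rw [mul_sum]
    calc 6 * n = ∑ w ∈ Pi, n := by rw [sum_const, hPic]; simp
      _ ≤ _ := sum_le_sum (fun w hw => nx w hw)
  have hs3 : 4 * n ≤ 6 * ∑ w ∈ Z, deg H w := by
    rw [mul_sum]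
    calc 4 * n ≤ Z.card * n := Nat.mul_le_mul_right _ hZc
      _ = ∑ w ∈ Z, n := by rw [sum_const]; simp
      _ ≤ _ := sum_le_sum (fun w hw => (hZdeg w hw).2.1)
  have hpos : 0 < (e + 2) ^ 2 := by positivity
  generalize (e + 2) ^ 2 = q at *
  generalize ∑ w ∈ Pi, deg H w = s1 at *
  generalize ∑ w ∈ Z, deg H w = s2 at *
  generalize ∑ w ∈ U (cl H A), deg H w = s3 at *
  omega

end Pool.Agent.BR2
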