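import Pool.Agent.BR2.NBX
import Pool.Agent.BR2.SpD

/-! # Project BR2, module SML -/

set_option autoImplicit false

namespace Pool.Agent.BR2

open Finset

variable {α : Type*} [DecidableEq α] {H S T M A : Finset (Finset α)} {e : ℕ}

/-- lines through two of the three midpoints -/
private def sMid (H : Finset (Finset α)) (T3 : Finset α) : Finset (Finset α) :=
  H.filter (fun s => 2 ≤ (s ∩ T3).card)

private def sE (H : Finset (Finset α)) (T3 : Finset α) (Δ : Finset (Finset α))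
    (d h : Finset α) : Prop :=
  ∃ s ∈ sMid H T3, (d ∩ s).Nonempty ∧ (h = s ∨ (h ∈ Δ ∧ (h ∩ s).Nonempty))

private def sC (H S : Finset (Finset α)) (T3 : Finset α) (Δ : Finset (Finset α))
    (d h : Finset α) : Prop :=
  d ∩ U S ⊆ T3 ∨ sE H T3 Δ d h

private def sD (S K Δ : Finset (Finset α)) (d : Finset α) : Prop := d ∈ K ∧ d ∉ S ∧ d ∉ Δ

private structure sP (H S K Δ : Finset (Finset α)) (T3 : Finset α) (h h' : Finset α) :
    Prop where
  c : (h, h') ∈ Ch H
  m1 : h ∈ Δ ∨ h ∈ sMid H T3 ∨ sD S K Δ h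
  m2 : h' ∈ Δ ∨ h' ∈ sMid H T3 ∨ sD S K Δ h'
  ns : ¬ (h ∈ S ∧ h' ∈ S)
  e1 : sD S K Δ h' → sC H S T3 Δ h' h
  e2 : sD S K Δ h → sC H S T3 Δ h h'

private structure sF (H S K Δ : Finset (Finset α)) (T3 Co : Finset α) : Prop where
  lin : Lin H
  cS : Closed H S
  cK : Closed H K
  SK : S ⊆ K
  ΔK : Δ ⊆ K
  ΔS : ∀ h ∈ Δ, h ∉ S
  T3S : T3 ⊆ U S
  CoS : ∀ x ∈ Co, x ∉ U S
  Δ1 : ∀ h ∈ Δ, ∃ m ∈ T3, h ∩ U S = {m}
  Δ2 : ∀ h ∈ Δ, ∀ x ∈ h, x ∈ Co ∨ x ∈ T3
  D1 : ∀ d, sD S K Δ d → ∃ Q ∈ Co, ∃ w ∈ U S, d ∩ U S = {w} ∧ d ∩ Co = {Q}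
  D2 : ∀ d, sD S K Δ d → ∀ d', sD S K Δ d' → d = d'

variable {K Δ : Finset (Finset α)} {T3 Co : Finset α}

private theorem sF.mid (F : sF H S K Δ T3 Co) {s : Finset α} (hs : s ∈ sMid H T3) : s ∈ S := by
  unfold sMid at hs
  rw [mem_filter] at hs
  exact F.cS.2 s hs.1 (hs.2.trans (card_le_card (inter_subset_inter_left F.T3S)))

private theorem sF.inK (F : sF H S K Δ T3 Co) {h : Finset α}
    (hh : h ∈ Δ ∨ h ∈ sMid H T3 ∨ sD S K Δ h) : h ∈ K := by
  rcases hh with h1 | h1 | h1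
  · exact F.ΔK h1
  · exact F.SK (F.mid h1)
  · exact h1.1

private theorem sP.symm {h h' : Finset α} (P : sP H S K Δ T3 h h') : sP H S K Δ T3 h' h := by
  refine ⟨?_, P.m2, P.m1, fun x => P.ns ⟨x.2, x.1⟩, P.e2, P.e1⟩
  have := mem_Ch.1 P.c
  refine mem_Ch.2 ⟨this.2.1, this.1, this.2.2.1.symm, ?_⟩
  have h4 := this.2.2.2
  rwa [inter_comm] at h4

private theorem mid_of_two (_hH : Lin H) {s : Finset α} {x y : α} (hs : s ∈ H) (hx : x ∈ s)
    (hy : y ∈ s) (hxT : x ∈ T3) (hyT : y ∈ T3) (hxy : x ≠ y) : s ∈ sMid H T3 := by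
  unfold sMid
  rw [mem_filter]
  refine ⟨hs, ?_⟩
  rw [← card_pair hxy]
  apply card_le_card
  intro z hz
  simp only [mem_insert, mem_singleton] at hz
  rcases hz with rfl | rfl
  · exact mem_inter.2 ⟨hx, hxT⟩
  · exact mem_inter.2 ⟨hy, hyT⟩

private theorem sP.step (F : sF H S K Δ T3 Co) {h h' k' : Finset α} (P : sP H S K Δ T3 h h')
    (t : Tri H h h' k') : sP H S K Δ T3 h k' := by
  have hK := F.inK P.m1
  have hK' := F.inK P.m2
  have ne12 := t.ne12
  have ne13 := t.ne13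
  have ne23 := t.ne23
  have tc := t.Ch13
  obtain ⟨hH, h'H, k'H, ⟨z, hz⟩, ⟨y', hy'⟩, ⟨y, hy⟩, h0⟩ := t
  rw [mem_inter] at hz hy hy'
  have hno : ∀ x, x ∈ h → x ∈ h' → x ∈ k' → False := by
    intro x h1 h2 h3
    have : x ∈ h ∩ h' ∩ k' := by simp [h1, h2, h3]
    rw [h0] at this
    simp at this
  have hyy' : y ≠ y' := fun e => hno y hy.1 (e ▸ hy'.1) hy.2
  have hzy : z ≠ y := fun e => hno z hz.1 hz.2 (e ▸ hy.2)
  have hzy' : z ≠ y' := fun e => hno z hz.1 hz.2 (e ▸ hy'.2)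
  have kK : k' ∈ K := F.cK.mem_of_two k'H hyy' hy.2 hy'.2 (subset_U hK hy.1) (subset_U hK' hy'.1)
  have ns1 : ¬ (h ∈ S ∧ k' ∈ S) := by
    rintro ⟨h1, h2⟩
    exact P.ns ⟨h1, F.cS.mem_of_two h'H hzy' hz.2 hy'.1 (subset_U h1 hz.1) (subset_U h2 hy'.2)⟩
  have ns2 : ¬ (h' ∈ S ∧ k' ∈ S) := by
    rintro ⟨h1, h2⟩
    exact P.ns ⟨F.cS.mem_of_two hH hzy hz.1 hy.1 (subset_U h1 hz.2) (subset_U h2 hy.2), h1⟩
  -- the third line
  have m2 : k' ∈ Δ ∨ k' ∈ sMid H T3 ∨ sD S K Δ k' := by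
    by_cases hkS : k' ∈ S
    · right; left
      have hS1 : h ∉ S := fun x => ns1 ⟨x, hkS⟩
      have hS2 : h' ∉ S := fun x => ns2 ⟨x, hkS⟩
      have yS : y ∈ U S := subset_U hkS hy.2
      have y'S : y' ∈ U S := subset_U hkS hy'.2
      have m1 : h ∈ Δ ∨ sD S K Δ h := by
        rcases P.m1 with x | x | x
        · exact Or.inl x
        · exact absurd (F.mid x) hS1
        · exact Or.inr x
      have m2 : h' ∈ Δ ∨ sD S K Δ h' := by
        rcases P.m2 with x | x | x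
        · exact Or.inl x
        · exact absurd (F.mid x) hS2
        · exact Or.inr x
      have only : ∀ {f : Finset α} {u v w : α}, f ∩ U S = {w} → u ∈ f → u ∈ U S → v ∈ f →
          v ∈ U S → u = v := by
        intro f u v w hf h1 h2 h3 h4
        have e1 : u ∈ f ∩ U S := mem_inter.2 ⟨h1, h2⟩
        have e2 : v ∈ f ∩ U S := mem_inter.2 ⟨h3, h4⟩
        rw [hf, mem_singleton] at e1 e2
        rw [e1, e2]
      rcases m1 with m1 | m1 <;> rcases m2 with m2 | m2
      · obtain ⟨m, hm, hm'⟩ := F.Δ1 h m1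
        obtain ⟨n, hn, hn'⟩ := F.Δ1 h' m2
        have e1 : y ∈ T3 := by
          have : y ∈ h ∩ U S := mem_inter.2 ⟨hy.1, yS⟩
          rw [hm', mem_singleton] at this
          rw [this]; exact hm
        have e2 : y' ∈ T3 := by
          have : y' ∈ h' ∩ U S := mem_inter.2 ⟨hy'.1, y'S⟩
          rw [hn', mem_singleton] at this
          rw [this]; exact hn
        exact mid_of_two F.lin k'H hy.2 hy'.2 e1 e2 hyy'
      · obtain ⟨m, hm, hm'⟩ := F.Δ1 h m1
        obtain ⟨Q, hQ, w, hw, hw1, hw2⟩ := F.D1 h' m2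
        have e1 : y ∈ T3 := by
          have : y ∈ h ∩ U S := mem_inter.2 ⟨hy.1, yS⟩
          rw [hm', mem_singleton] at this
          rw [this]; exact hm
        rcases P.e1 m2 with hc | ⟨s, hs, ⟨u', hu'⟩, hc⟩
        · exact mid_of_two F.lin k'H hy.2 hy'.2 e1 (hc (mem_inter.2 ⟨hy'.1, y'S⟩)) hyy'
        · have hsS := F.mid hs
          rcases hc with hc | ⟨_, ⟨u, hu⟩⟩
          · exact absurd (hc ▸ hsS) hS1
          · rw [mem_inter] at hu hu'
            have eu : u = y := only hm' hu.1 (subset_U hsS hu.2) hy.1 yS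
            have eu' : u' = y' := only hw1 hu'.1 (subset_U hsS hu'.2) hy'.1 y'S
            have : k' = s := F.lin.eq_of_two k'H (mem_filter.1 hs).1 hyy' hy.2 hy'.2
              (eu ▸ hu.2) (eu' ▸ hu'.2)
            rw [this]; exact hs
      · obtain ⟨m, hm, hm'⟩ := F.Δ1 h' m2
        obtain ⟨Q, hQ, w, hw, hw1, hw2⟩ := F.D1 h m1
        have e1 : y' ∈ T3 := by
          have : y' ∈ h' ∩ U S := mem_inter.2 ⟨hy'.1, y'S⟩
          rw [hm', mem_singleton] at this
          rw [this]; exact hm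
        rcases P.e2 m1 with hc | ⟨s, hs, ⟨u', hu'⟩, hc⟩
        · exact mid_of_two F.lin k'H hy.2 hy'.2 (hc (mem_inter.2 ⟨hy.1, yS⟩)) e1 hyy'
        · have hsS := F.mid hs
          rcases hc with hc | ⟨_, ⟨u, hu⟩⟩
          · exact absurd (hc ▸ hsS) hS2
          · rw [mem_inter] at hu hu'
            have eu : u = y' := only hm' hu.1 (subset_U hsS hu.2) hy'.1 y'S
            have eu' : u' = y := only hw1 hu'.1 (subset_U hsS hu'.2) hy.1 yS
            have : k' = s := F.lin.eq_of_two k'H (mem_filter.1 hs).1 hyy' hy.2 hy'.2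
              (eu' ▸ hu'.2) (eu ▸ hu.2)
            rw [this]; exact hs
      · exact absurd (F.D2 h m1 h' m2) ne12
    · by_cases hkΔ : k' ∈ Δ
      · exact Or.inl hkΔ
      · exact Or.inr (Or.inr ⟨kK, hkS, hkΔ⟩)
  refine ⟨tc, P.m1, m2, ns1, ?_, ?_⟩
  · intro hk
    obtain ⟨Q, hQ, w, hw, hw1, hw2⟩ := F.D1 k' hk
    by_cases hwT : w ∈ T3
    · left
      rw [hw1]
      simpa using hwT
    · right
      have onΔ : ∀ {f : Finset α} {u : α}, f ∈ Δ → u ∈ f → u ∈ k' → u = Q := by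
        intro f u hf h1 h2
        rcases F.Δ2 f hf u h1 with h3 | h3
        · have : u ∈ k' ∩ Co := mem_inter.2 ⟨h2, h3⟩
          rw [hw2, mem_singleton] at this
          exact this
        · have : u ∈ k' ∩ U S := mem_inter.2 ⟨h2, F.T3S h3⟩
          rw [hw1, mem_singleton] at this
          exact absurd (this ▸ h3) hwT
      rcases P.m1 with m1 | m1 | m1
      · rcases P.m2 with m2 | m2 | m2
        · exact absurd ((onΔ m1 hy.1 hy.2).trans (onΔ m2 hy'.1 hy'.2).symm) hyy'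
        · exact ⟨h', m2, ⟨y', mem_inter.2 ⟨hy'.2, hy'.1⟩⟩, Or.inr ⟨m1, ⟨z, mem_inter.2 hz⟩⟩⟩
        · exact absurd (F.D2 h' m2 k' hk) ne23
      · exact ⟨h, m1, ⟨y, mem_inter.2 ⟨hy.2, hy.1⟩⟩, Or.inl rfl⟩
      · exact absurd (F.D2 h m1 k' hk) ne13
  · intro hh
    rcases P.e2 hh with hc | ⟨s, hs, hn, hc⟩
    · exact Or.inl hc
    · obtain ⟨Q, hQ, w, hw, hw1, hw2⟩ := F.D1 h hh
      by_cases hwT : w ∈ T3
      · left
        rw [hw1]
        simpa using hwT
      · right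
        have onΔ : ∀ {f : Finset α} {u : α}, f ∈ Δ → u ∈ f → u ∈ h → u = Q := by
          intro f u hf h1 h2
          rcases F.Δ2 f hf u h1 with h3 | h3
          · have : u ∈ h ∩ Co := mem_inter.2 ⟨h2, h3⟩
            rw [hw2, mem_singleton] at this
            exact this
          · have : u ∈ h ∩ U S := mem_inter.2 ⟨h2, F.T3S h3⟩
            rw [hw1, mem_singleton] at this
            exact absurd (this ▸ h3) hwT
        rcases hc with hc | ⟨hc, _⟩
        · subst hc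
          rcases m2 with m2 | m2 | m2
          · exact ⟨h', hs, hn, Or.inr ⟨m2, ⟨y', mem_inter.2 ⟨hy'.2, hy'.1⟩⟩⟩⟩
          · exact absurd ⟨F.mid hs, F.mid m2⟩ ns2
          · exact absurd (F.D2 h hh k' m2) ne13
        · rcases m2 with m2 | m2 | m2
          · exact absurd ((onΔ hc hz.2 hz.1).trans (onΔ m2 hy.2 hy.1).symm) hzy
          · exact ⟨k', m2, ⟨y, mem_inter.2 hy⟩, Or.inl rfl⟩
          · exact absurd (F.D2 h hh k' m2) ne13

private theorem sml_mem_Ln {X : Finset (Finset α × Finset α)} {h : Finset α} :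
    h ∈ Ln X ↔ (∃ h', (h, h') ∈ X) ∨ (∃ h', (h', h) ∈ X) := by
  unfold Ln
  rw [mem_union, mem_image, mem_image]
  constructor
  · rintro (⟨v, hv, rfl⟩ | ⟨v, hv, rfl⟩)
    · exact Or.inl ⟨v.2, hv⟩
    · exact Or.inr ⟨v.1, hv⟩
  · rintro (⟨h', hv⟩ | ⟨h', hv⟩)
    · exact Or.inl ⟨_, hv, rfl⟩
    · exact Or.inr ⟨_, hv, rfl⟩

private theorem deg_two {L : Finset (Finset α)} {x : α} {h h' : Finset α} (hh : h ∈ L)
    (hh' : h' ∈ L) (hne : h ≠ h') (hx : x ∈ h) (hx' : x ∈ h') : deg L x ≠ 1 := by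
  unfold deg
  intro h1
  rw [card_eq_one] at h1
  obtain ⟨u, hu⟩ := h1
  have e1 : h ∈ L.filter (fun l => x ∈ l) := mem_filter.2 ⟨hh, hx⟩
  have e2 : h' ∈ L.filter (fun l => x ∈ l) := mem_filter.2 ⟨hh', hx'⟩
  rw [hu, mem_singleton] at e1 e2
  exact hne (e1.trans e2.symm)

/-- **SML.** -/
theorem sml (hH : Lin H) (hS : Closed H S) {g l k p q : Finset α} (hsp : Sp H g l k p q)
    (hp : p ∈ S) (hq : q ∈ S) (hg : g ∉ S) (h4 : (cl H (S ∪ {g, l}) \ S).card ≤ 4) :
    (pend (disc H (g, l))).card ≤ 4 := by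
  classical
  obtain ⟨A, B, C, a, b, c, D⟩ := hsp.data hH
  have htri := hsp.1
  obtain ⟨hA, hB, hC⟩ := (D.dich hS hp hq).resolve_left (fun h => hg h.1)
  obtain ⟨hgS, hlS, hkS, hc3, hU3, _⟩ := D.up hp hq hA hB hC
  have D' := D
  obtain ⟨eg, el, ek, nd, gH, lH, kH, pH, qH, ap, bp, bq, cq, pq⟩ := D'
  simp only [List.nodup_cons, List.mem_cons, List.not_mem_nil, or_false, not_or,
    List.nodup_nil, and_true, not_false_eq_true] at nd
  have ha : a ∈ U S := subset_U hp ap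
  have hb : b ∈ U S := subset_U hp bp
  have hc : c ∈ U S := subset_U hq cq
  have gl : g ≠ l := htri.ne12
  have gk : g ≠ k := htri.ne13
  have lk : l ≠ k := htri.ne23
  set K := cl H (S ∪ {g, l}) with hKdef
  have hsub : S ∪ {g, l} ⊆ H := by
    intro x hx
    simp only [mem_union, mem_insert, mem_singleton] at hx
    rcases hx with h | rfl | rfl
    · exact hS.1 h
    · exact gH
    · exact lH
  have hKc : Closed H K := cl_closed H _
  have hK0 : S ∪ {g, l} ⊆ K := subset_cl hsub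
  have hSK : S ⊆ K := subset_union_left.trans hK0
  have gK : g ∈ K := hK0 (by simp)
  have lK : l ∈ K := hK0 (by simp)
  have kK : k ∈ K := hKc.mem_of_two kH (x := A) (y := B) (by tauto) (by rw [ek]; simp)
    (by rw [ek]; simp) (subset_U lK (by rw [el]; simp)) (subset_U gK (by rw [eg]; simp))
  let Δ : Finset (Finset α) := {g, l, k}
  let T3 : Finset α := {a, b, c}
  let Co : Finset α := {A, B, C}
  have hΔK : Δ ⊆ K := by
    intro x hx
    simp only [Δ, mem_insert, mem_singleton] at hx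
    rcases hx with rfl | rfl | rfl <;> assumption
  have hΔS : ∀ h ∈ Δ, h ∉ S := by
    intro x hx
    simp only [Δ, mem_insert, mem_singleton] at hx
    rcases hx with rfl | rfl | rfl <;> assumption
  have hΔc : Δ.card = 3 := by
    simp only [Δ]
    rw [card_insert_of_notMem (by simp [gl, gk]), card_pair lk]
  have hT3S : T3 ⊆ U S := by
    intro x hx
    simp only [T3, mem_insert, mem_singleton] at hx
    rcases hx with rfl | rfl | rfl <;> assumption
  have hCoS : ∀ x ∈ Co, x ∉ U S := by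
    intro x hx
    simp only [Co, mem_insert, mem_singleton] at hx
    rcases hx with rfl | rfl | rfl <;> assumption
  have hΔ1 : ∀ h ∈ Δ, ∃ m ∈ T3, h ∩ U S = {m} := by
    have key : ∀ x y m : α, x ∉ U S → y ∉ U S → m ∈ U S → ({x, y, m} : Finset α) ∩ U S = {m} := by
      intro x y m h1 h2 h3
      ext z
      simp only [mem_inter, mem_insert, mem_singleton]
      constructor
      · rintro ⟨rfl | rfl | rfl, hz⟩
        · exact absurd hz h1
        · exact absurd hz h2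
        · rfl
      · rintro rfl
        exact ⟨by simp, h3⟩
    intro x hx
    simp only [Δ, mem_insert, mem_singleton] at hx
    rcases hx with rfl | rfl | rfl
    · exact ⟨a, by simp [T3], by rw [eg]; exact key _ _ _ hB hC ha⟩
    · exact ⟨b, by simp [T3], by rw [el]; exact key _ _ _ hC hA hb⟩
    · exact ⟨c, by simp [T3], by rw [ek]; exact key _ _ _ hA hB hc⟩
  have hΔ2 : ∀ h ∈ Δ, ∀ x ∈ h, x ∈ Co ∨ x ∈ T3 := by
    intro h hh x hx
    simp only [Δ, mem_insert, mem_singleton] at hh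
    simp only [Co, T3, mem_insert, mem_singleton]
    rcases hh with rfl | rfl | rfl
    · rw [eg] at hx; simp only [mem_insert, mem_singleton] at hx; tauto
    · rw [el] at hx; simp only [mem_insert, mem_singleton] at hx; tauto
    · rw [ek] at hx; simp only [mem_insert, mem_singleton] at hx; tauto
  -- at most one further line
  let DD := (K \ S) \ Δ
  have hΔsub : Δ ⊆ K \ S := fun x hx => mem_sdiff.2 ⟨hΔK hx, hΔS x hx⟩
  have hDDc : DD.card ≤ 1 := by
    have : DD.card = (K \ S).card - Δ.card := card_sdiff_of_subset hΔsub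
    omega
  have hDD : ∀ d, sD S K Δ d ↔ d ∈ DD := by
    intro d
    simp only [DD, sD, mem_sdiff]
    tauto
  have hD2 : ∀ d, sD S K Δ d → ∀ d', sD S K Δ d' → d = d' := by
    intro d hd d' hd'
    exact card_le_one.1 hDDc d ((hDD d).1 hd) d' ((hDD d').1 hd')
  have hD1 : ∀ d, sD S K Δ d → ∃ Q ∈ Co, ∃ w ∈ U S, d ∩ U S = {w} ∧ d ∩ Co = {Q} := by
    intro d hd
    obtain ⟨dK, dS, dΔ⟩ := hd
    have dH : d ∈ H := hKc.1 dK
    have c1 : (d ∩ U S).card ≤ 1 := by
      by_contra h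
      exact dS (hS.2 d dH (by omega))
    have c2 : (d ∩ Co).card ≤ 1 := by
      by_contra h
      obtain ⟨x, hx, y, hy, hxy⟩ := one_lt_card.1 (by omega : 1 < (d ∩ Co).card)
      rw [mem_inter] at hx hy
      have : ∃ h ∈ Δ, x ∈ h ∧ y ∈ h := by
        have h1 := hx.2
        have h2 := hy.2
        simp only [Co, mem_insert, mem_singleton] at h1 h2
        rcases h1 with rfl | rfl | rfl <;> rcases h2 with rfl | rfl | rfl
        · exact absurd rfl hxy
        · exact ⟨k, by simp [Δ], by rw [ek]; simp, by rw [ek]; simp⟩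
        · exact ⟨l, by simp [Δ], by rw [el]; simp, by rw [el]; simp⟩
        · exact ⟨k, by simp [Δ], by rw [ek]; simp, by rw [ek]; simp⟩
        · exact absurd rfl hxy
        · exact ⟨g, by simp [Δ], by rw [eg]; simp, by rw [eg]; simp⟩
        · exact ⟨l, by simp [Δ], by rw [el]; simp, by rw [el]; simp⟩
        · exact ⟨g, by simp [Δ], by rw [eg]; simp, by rw [eg]; simp⟩
        · exact absurd rfl hxy
      obtain ⟨h, hh, h1, h2⟩ := this
      have : d = h := hH.eq_of_two dH (hKc.1 (hΔK hh)) hxy hx.1 hy.1 h1 h2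
      exact dΔ (this ▸ hh)
    have c3 : 2 ≤ (d ∩ U (S ∪ Δ)).card := by
      by_contra hlt
      have hcl : Closed H (S ∪ Δ) := by
        refine ⟨union_subset hS.1 (hΔK.trans hKc.1), ?_⟩
        intro h hh h2
        have h1 : h ∈ K := hKc.2 h hh
          (h2.trans (card_le_card (inter_subset_inter_left (U_mono (union_subset hSK hΔK)))))
        by_contra hn
        rw [mem_union, not_or] at hn
        have : h = d := hD2 h ⟨h1, hn.1, hn.2⟩ d ⟨dK, dS, dΔ⟩
        subst this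
        exact hlt h2
      have : K ⊆ S ∪ Δ := by
        refine cl_subset hcl (union_subset subset_union_left ?_)
        intro x hx
        simp only [mem_insert, mem_singleton] at hx
        rcases hx with rfl | rfl
        · exact mem_union_right _ (by simp [Δ])
        · exact mem_union_right _ (by simp [Δ])
      rcases mem_union.1 (this dK) with h | h
      · exact dS h
      · exact dΔ h
    have hU : U (S ∪ Δ) = U S ∪ Co := hU3
    rw [hU, inter_union_distrib_left] at c3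
    have c4 := card_union_le (d ∩ U S) (d ∩ Co)
    obtain ⟨w, hw⟩ := card_eq_one.1 (by omega : (d ∩ U S).card = 1)
    obtain ⟨Q, hQ⟩ := card_eq_one.1 (by omega : (d ∩ Co).card = 1)
    have hw' : w ∈ d ∩ U S := by rw [hw]; simp
    have hQ' : Q ∈ d ∩ Co := by rw [hQ]; simp
    exact ⟨Q, (mem_inter.1 hQ').2, w, (mem_inter.1 hw').2, hw, hQ⟩
  have F : sF H S K Δ T3 Co :=
    ⟨hH, hS, hKc, hSK, hΔK, hΔS, hT3S, hCoS, hΔ1, hΔ2, hD1, hD2⟩
  -- the disc
  have hv : (g, l) ∈ Ch H := htri.Ch12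
  have hXT := disc_TAc H (g, l)
  set X := disc H (g, l) with hX
  have hv0 : (g, l) ∈ X := mem_disc_self hv
  let Y := (Ch H).filter (fun v => sP H S K Δ T3 v.1 v.2)
  have hYT : TAc H Y := by
    refine ⟨filter_subset _ _, ?_⟩
    intro v hvY w hw
    simp only [Y, mem_filter] at hvY ⊢
    obtain ⟨_, hw | ⟨k', hk', hw⟩⟩ := hw
    · subst hw
      exact ⟨hvY.2.symm.c, hvY.2.symm⟩
    · subst hw
      exact ⟨(hvY.2.step F hk').c, hvY.2.step F hk'⟩
  have gΔ : g ∈ Δ := by simp [Δ]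
  have lΔ : l ∈ Δ := by simp [Δ]
  have kΔ : k ∈ Δ := by simp [Δ]
  have hv1 : (g, l) ∈ Y := by
    simp only [Y, mem_filter]
    exact ⟨hv, hv, Or.inl gΔ, Or.inl lΔ, fun h => hg h.1, fun h => absurd lΔ h.2.2,
      fun h => absurd gΔ h.2.2⟩
  have hXY : X ⊆ Y := disc_sub_of_TAc hYT hv1
  -- the lines of the disc
  have gkX : (g, k) ∈ X := hXT.tri hv0 htri
  have lkX : (l, k) ∈ X := hXT.tri' hv0 htri
  have hΔX : ∀ h ∈ Δ, ∀ h' ∈ Δ, h ≠ h' → (h, h') ∈ X := by
    intro h hh h' hh' hne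
    simp only [Δ, mem_insert, mem_singleton] at hh hh'
    rcases hh with rfl | rfl | rfl <;> rcases hh' with rfl | rfl | rfl
    · exact absurd rfl hne
    · exact hv0
    · exact gkX
    · exact hXT.swap hv0
    · exact absurd rfl hne
    · exact lkX
    · exact hXT.swap gkX
    · exact hXT.swap lkX
    · exact absurd rfl hne
  have hT3Δ : ∀ m ∈ T3, ∃ h ∈ Δ, m ∈ h := by
    intro m hm
    simp only [T3, mem_insert, mem_singleton] at hm
    rcases hm with rfl | rfl | rfl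
    · exact ⟨g, gΔ, by rw [eg]; simp⟩
    · exact ⟨l, lΔ, by rw [el]; simp⟩
    · exact ⟨k, kΔ, by rw [ek]; simp⟩
  have only : ∀ {f : Finset α} {u v w : α}, f ∩ U S = {w} → u ∈ f → u ∈ U S → v ∈ f →
      v ∈ U S → u = v := by
    intro f u v w hf h1 h2 h3 h4
    have e1 : u ∈ f ∩ U S := mem_inter.2 ⟨h1, h2⟩
    have e2 : v ∈ f ∩ U S := mem_inter.2 ⟨h3, h4⟩
    rw [hf, mem_singleton] at e1 e2
    rw [e1, e2]
  have hΔL : ∀ h ∈ Δ, h ∈ Ln X := by
    intro h hh
    simp only [Δ, mem_insert, mem_singleton] at hh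
    rcases hh with rfl | rfl | rfl
    · exact sml_mem_Ln.2 (Or.inl ⟨_, hv0⟩)
    · exact sml_mem_Ln.2 (Or.inr ⟨_, hv0⟩)
    · exact sml_mem_Ln.2 (Or.inr ⟨_, gkX⟩)
  have hML : ∀ s ∈ sMid H T3, s ∈ Ln X := by
    intro s hs
    have hsS := F.mid hs
    obtain ⟨m1, hm1, m2, hm2, hm⟩ := one_lt_card.1 (mem_filter.1 hs).2
    rw [mem_inter] at hm1 hm2
    obtain ⟨h1, hh1, hmh1⟩ := hT3Δ m1 hm1.2
    obtain ⟨h2, hh2, hmh2⟩ := hT3Δ m2 hm2.2
    obtain ⟨n1, _, hn1⟩ := hΔ1 h1 hh1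
    obtain ⟨n2, _, hn2⟩ := hΔ1 h2 hh2
    have hne : h1 ≠ h2 := by
      rintro rfl
      exact hm (only hn1 hmh1 (hT3S hm1.2) hmh2 (hT3S hm2.2))
    have h12 := hΔX h1 hh1 h2 hh2 hne
    have hch := mem_Ch.1 (hXT.1 h12)
    have ht : Tri H h1 h2 s := by
      refine ⟨hch.1, hch.2.1, (mem_filter.1 hs).1, hch.2.2.2, ⟨m2, mem_inter.2 ⟨hmh2, hm2.1⟩⟩,
        ⟨m1, mem_inter.2 ⟨hmh1, hm1.1⟩⟩, ?_⟩
      rw [eq_empty_iff_forall_notMem]
      intro z hz
      rw [mem_inter, mem_inter] at hz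
      have hzS : z ∈ U S := subset_U hsS hz.2
      have e1 : z = m1 := only hn1 hz.1.1 hzS hmh1 (hT3S hm1.2)
      have e2 : z = m2 := only hn2 hz.1.2 hzS hmh2 (hT3S hm2.2)
      exact hm (e1.symm.trans e2)
    exact sml_mem_Ln.2 (Or.inr ⟨_, hXT.tri h12 ht⟩)
  have aT : a ∈ T3 := by simp [T3]
  have bT : b ∈ T3 := by simp [T3]
  have cT : c ∈ T3 := by simp [T3]
  have ab : a ≠ b := by tauto
  have bc : b ≠ c := by tauto
  have pM : p ∈ sMid H T3 := mid_of_two hH pH ap bp aT bT ab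
  have qM : q ∈ sMid H T3 := mid_of_two hH qH bq cq bT cT bc
  have hT3deg : ∀ x ∈ T3, deg (Ln X) x ≠ 1 := by
    intro x hx
    obtain ⟨h, hh, hxh⟩ := hT3Δ x hx
    have : ∃ s ∈ sMid H T3, x ∈ s := by
      simp only [T3, mem_insert, mem_singleton] at hx
      rcases hx with rfl | rfl | rfl
      · exact ⟨p, pM, ap⟩
      · exact ⟨p, pM, bp⟩
      · exact ⟨q, qM, cq⟩
    obtain ⟨s, hs, hxs⟩ := this
    exact deg_two (hΔL h hh) (hML s hs) (fun e => hΔS h hh (e ▸ F.mid hs)) hxh hxs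
  have hCodeg : ∀ x ∈ Co, deg (Ln X) x ≠ 1 := by
    intro x hx
    simp only [Co, mem_insert, mem_singleton] at hx
    rcases hx with rfl | rfl | rfl
    · exact deg_two (hΔL l lΔ) (hΔL k kΔ) lk (by rw [el]; simp) (by rw [ek]; simp)
    · exact deg_two (hΔL g gΔ) (hΔL k kΔ) gk (by rw [eg]; simp) (by rw [ek]; simp)
    · exact deg_two (hΔL g gΔ) (hΔL l lΔ) gl (by rw [eg]; simp) (by rw [el]; simp)
  -- the point `w` of the further line
  have hwdeg : ∀ d ∈ Ln X, sD S K Δ d → ∀ x ∈ d, x ∈ U S → deg (Ln X) x ≠ 1 := by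
    intro d hd hdD x hx hxS
    obtain ⟨Q, hQ, w, hw, hw1, hw2⟩ := hD1 d hdD
    have hxw : x = w := by
      have : x ∈ d ∩ U S := mem_inter.2 ⟨hx, hxS⟩
      rwa [hw1, mem_singleton] at this
    have hcond : ∃ h', sC H S T3 Δ d h' := by
      rcases sml_mem_Ln.1 hd with ⟨h', hh'⟩ | ⟨h', hh'⟩
      · have := hXY hh'
        simp only [Y, mem_filter] at this
        exact ⟨h', this.2.e2 hdD⟩
      · have := hXY hh'
        simp only [Y, mem_filter] at this
        exact ⟨h', this.2.e1 hdD⟩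
    obtain ⟨h', hc | ⟨s, hs, ⟨u, hu⟩, _⟩⟩ := hcond
    · exact hT3deg x (hc (mem_inter.2 ⟨hx, hxS⟩))
    · rw [mem_inter] at hu
      have hsS := F.mid hs
      have e1 : u = x := only hw1 hu.1 (subset_U hsS hu.2) hx hxS
      exact deg_two hd (hML s hs) (fun e => hdD.2.1 (e ▸ hsS)) hx (e1 ▸ hu.2)
  have hLn : ∀ h ∈ Ln X, h ∈ Δ ∨ h ∈ sMid H T3 ∨ sD S K Δ h := by
    intro h hh
    rcases sml_mem_Ln.1 hh with ⟨h', hh'⟩ | ⟨h', hh'⟩
    · have := hXY hh'
      simp only [Y, mem_filter] at this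
      exact this.2.m1
    · have := hXY hh'
      simp only [Y, mem_filter] at this
      exact this.2.m2
  -- counting
  have hsubp : pend X ⊆ ((sMid H T3).biUnion (fun s => s \ T3)) ∪
      (DD.biUnion (fun d => d \ (U S ∪ Co))) := by
    intro x hx
    unfold pend at hx
    rw [mem_filter, mem_U] at hx
    obtain ⟨⟨h, hh, hxh⟩, hdeg⟩ := hx
    rcases hLn h hh with h1 | h1 | h1
    · rcases hΔ2 h h1 x hxh with h2 | h2
      · exact absurd hdeg (hCodeg x h2)
      · exact absurd hdeg (hT3deg x h2)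
    · refine mem_union_left _ (mem_biUnion.2 ⟨h, h1, mem_sdiff.2 ⟨hxh, fun h2 => ?_⟩⟩)
      exact hT3deg x h2 hdeg
    · refine mem_union_right _ (mem_biUnion.2 ⟨h, (hDD h).1 h1, mem_sdiff.2 ⟨hxh, fun h2 => ?_⟩⟩)
      rcases mem_union.1 h2 with h3 | h3
      · exact hwdeg h hh h1 x hxh h3 hdeg
      · exact hCodeg x h3 hdeg
  have hMc : (sMid H T3).card ≤ 3 := by
    have hT3c : T3.card = 3 := by
      simp only [T3]
      rw [card_insert_of_notMem (by simp; tauto), card_pair bc]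
    have h2 : ∀ s ∈ sMid H T3, (s ∩ T3).card = 2 := by
      intro s hs
      have h3 := (mem_filter.1 hs).2
      by_contra hne
      have h5 : 3 ≤ (s ∩ T3).card := by omega
      have h6 : s ∩ T3 = T3 := eq_of_subset_of_card_le inter_subset_right (by omega)
      have h7 : T3 ⊆ s := by rw [← h6]; exact inter_subset_left
      have e1 : p = s := hH.eq_of_two pH (mem_filter.1 hs).1 ab ap bp (h7 aT) (h7 bT)
      have e2 : q = s := hH.eq_of_two qH (mem_filter.1 hs).1 bc bq cq (h7 bT) (h7 cT)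
      exact pq (e1.trans e2.symm)
    have h8 : (T3.powersetCard 2).card = 3 := by rw [card_powersetCard, hT3c]; rfl
    rw [← h8]
    refine card_le_card_of_injOn (fun s => s ∩ T3) ?_ ?_
    · intro s hs
      exact mem_powersetCard.2 ⟨inter_subset_right, h2 s hs⟩
    · intro s hs s' hs' heq
      obtain ⟨x, hx, y, hy, hxy⟩ := one_lt_card.1 (by rw [h2 s hs]; norm_num : 1 < (s ∩ T3).card)
      have heq' : s ∩ T3 = s' ∩ T3 := heq
      have hx' : x ∈ s' ∩ T3 := by rw [← heq']; exact hx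
      have hy' : y ∈ s' ∩ T3 := by rw [← heq']; exact hy
      exact hH.eq_of_two (mem_filter.1 hs).1 (mem_filter.1 hs').1 hxy (mem_inter.1 hx).1
        (mem_inter.1 hy).1 (mem_inter.1 hx').1 (mem_inter.1 hy').1
  have hb1 : ((sMid H T3).biUnion (fun s => s \ T3)).card ≤ (sMid H T3).card * 1 := by
    refine card_biUnion_le_card_mul _ _ _ ?_
    intro s hs
    have h1 := card_sdiff_add_card_inter s T3
    rw [hH.three s (mem_filter.1 hs).1] at h1
    have := (mem_filter.1 hs).2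
    omega
  have hb2 : (DD.biUnion (fun d => d \ (U S ∪ Co))).card ≤ DD.card * 1 := by
    refine card_biUnion_le_card_mul _ _ _ ?_
    intro d hd
    have hdD := (hDD d).2 hd
    obtain ⟨Q, hQ, w, hw, hw1, hw2⟩ := hD1 d hdD
    have h1 := card_sdiff_add_card_inter d (U S ∪ Co)
    rw [hH.three d (hKc.1 hdD.1), inter_union_distrib_left, hw1, hw2] at h1
    have hne : w ≠ Q := fun e => hCoS Q hQ (e ▸ hw)
    have h2 : ({w} ∪ {Q} : Finset α).card = 2 := by
      rw [← insert_eq, card_pair hne]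
    omega
  have := card_le_card hsubp
  have := card_union_le ((sMid H T3).biUnion (fun s => s \ T3))
    (DD.biUnion (fun d => d \ (U S ∪ Co)))
  omega

end Pool.Agent.BR2
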